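import Mathlib

set_option autoImplicit false

namespace Pool.Agent.MPdb50ff

open Finset

/-- The sign attached to a Boolean. -/
noncomputable def sg (b : Bool) : ℝ := if b then 1 else -1

theorem sg_not (b : Bool) : sg (!b) = - sg b := by
  cases b <;> simp [sg]

theorem abs_sg (b : Bool) : |sg b| = 1 := by
  cases b <;> simp [sg]

theorem sg_sq (b : Bool) : sg b ^ 2 = 1 := by
  cases b <;> simp [sg]

variable {ι : Type*} [Fintype ι] [DecidableEq ι]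

theorem sum_neg_signs (f : ℝ → ℝ) (a : ι → ℝ) :
    ∑ ε : ι → Bool, f (∑ p, sg (ε p) * a p) = ∑ ε : ι → Bool, f (-∑ p, sg (ε p) * a p) := by
  have hinv : Function.Involutive (fun ε : ι → Bool => fun p => !(ε p)) := by
    intro ε; funext p; simp
  rw [← Equiv.sum_comp hinv.toPerm]
  apply Finset.sum_congr rfl
  intro ε _
  congr 1
  rw [← Finset.sum_neg_distrib]
  apply Finset.sum_congr rfl
  intro p _
  simp [sg_not]

theorem sum_sq_ge (a : ι → ℝ) (p₀ : ι) :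
    (Fintype.card (ι → Bool) : ℝ) * a p₀ ^ 2 ≤ ∑ ε : ι → Bool, (∑ p, sg (ε p) * a p) ^ 2 := by
  have hinv : Function.Involutive (fun ε : ι → Bool => Function.update ε p₀ (!(ε p₀))) := by
    intro ε; simp
  have h1 : ∑ ε : ι → Bool, (∑ p, sg (ε p) * a p) ^ 2 =
      ∑ ε : ι → Bool, (∑ p, sg (Function.update ε p₀ (!(ε p₀)) p) * a p) ^ 2 := by
    rw [← Equiv.sum_comp hinv.toPerm]
    rfl
  have h2 : ∀ ε : ι → Bool, 2 * a p₀ ^ 2 ≤ (∑ p, sg (ε p) * a p) ^ 2 +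
      (∑ p, sg (Function.update ε p₀ (!(ε p₀)) p) * a p) ^ 2 := by
    intro ε
    have e1 : ∑ p, sg (ε p) * a p = sg (ε p₀) * a p₀ + ∑ p ∈ univ.erase p₀, sg (ε p) * a p :=
      (Finset.add_sum_erase univ (fun p => sg (ε p) * a p) (mem_univ p₀)).symm
    have e2 : ∑ p, sg (Function.update ε p₀ (!(ε p₀)) p) * a p
        = - (sg (ε p₀) * a p₀) + ∑ p ∈ univ.erase p₀, sg (ε p) * a p := by
      rw [← Finset.add_sum_erase _ _ (mem_univ p₀)]
      congr 1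
      · simp [sg_not]
      · apply Finset.sum_congr rfl
        intro p hp
        rw [Function.update_of_ne (Finset.ne_of_mem_erase hp)]
    rw [e1, e2]
    set Y := ∑ p ∈ univ.erase p₀, sg (ε p) * a p
    have e3 : (sg (ε p₀) * a p₀) ^ 2 = a p₀ ^ 2 := by rw [mul_pow, sg_sq, one_mul]
    nlinarith [sq_nonneg Y]
  have h3 : ∑ _ε : ι → Bool, 2 * a p₀ ^ 2 ≤ ∑ ε : ι → Bool, ((∑ p, sg (ε p) * a p) ^ 2 +
      (∑ p, sg (Function.update ε p₀ (!(ε p₀)) p) * a p) ^ 2) := Finset.sum_le_sum fun ε _ => h2 ε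
  rw [Finset.sum_add_distrib, ← h1, Finset.sum_const, nsmul_eq_mul, Finset.card_univ] at h3
  linarith

theorem sqrt_pair {u x : ℝ} (hu : 0 < u) (hx : |x| ≤ u) :
    Real.sqrt (u + x) + Real.sqrt (u - x) ≤ 2 * (Real.sqrt u * (1 - x ^ 2 / (8 * u ^ 2))) := by
  have h1 := abs_le.1 hx
  have ha : 0 ≤ u + x := by linarith
  have hb : 0 ≤ u - x := by linarith
  have hxu : x ^ 2 ≤ u ^ 2 := by
    have := pow_le_pow_left₀ (abs_nonneg x) hx 2
    rwa [sq_abs] at this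
  have h8 : x ^ 2 / (8 * u ^ 2) ≤ 1 / 8 := by
    rw [div_le_div_iff₀ (by positivity) (by norm_num)]; linarith
  have hR : 0 ≤ 2 * (Real.sqrt u * (1 - x ^ 2 / (8 * u ^ 2))) := by
    have : 0 ≤ 1 - x ^ 2 / (8 * u ^ 2) := by linarith
    positivity
  have hprod : Real.sqrt (u + x) * Real.sqrt (u - x) ≤ u - x ^ 2 / (2 * u) := by
    rw [← Real.sqrt_mul ha]
    have hy : 0 ≤ u - x ^ 2 / (2 * u) := by
      have : x ^ 2 / (2 * u) ≤ u / 2 := by
        rw [div_le_div_iff₀ (by positivity) (by norm_num)]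
        nlinarith
      linarith
    rw [Real.sqrt_le_left hy]
    have e : (u - x ^ 2 / (2 * u)) ^ 2 = (u + x) * (u - x) + (x ^ 2 / (2 * u)) ^ 2 := by
      field_simp
      ring
    rw [e]
    have : 0 ≤ (x ^ 2 / (2 * u)) ^ 2 := by positivity
    linarith
  have hsq : (Real.sqrt (u + x) + Real.sqrt (u - x)) ^ 2 ≤
      (2 * (Real.sqrt u * (1 - x ^ 2 / (8 * u ^ 2)))) ^ 2 := by
    have e1 : (Real.sqrt (u + x) + Real.sqrt (u - x)) ^ 2 =
        (u + x) + (u - x) + 2 * (Real.sqrt (u + x) * Real.sqrt (u - x)) := by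
      rw [add_sq, Real.sq_sqrt ha, Real.sq_sqrt hb]; ring
    have e2 : (2 * (Real.sqrt u * (1 - x ^ 2 / (8 * u ^ 2)))) ^ 2
        = 4 * u * (1 - x ^ 2 / (8 * u ^ 2)) ^ 2 := by
      rw [mul_pow, mul_pow, Real.sq_sqrt hu.le]; ring
    have e3 : 4 * u * (1 - x ^ 2 / (8 * u ^ 2)) ^ 2 = 4 * u - x ^ 2 / u + 4 * u * (x ^ 2 / (8 * u ^ 2)) ^ 2 := by
      field_simp
      ring
    rw [e1, e2, e3]
    have h5 : 0 ≤ 4 * u * (x ^ 2 / (8 * u ^ 2)) ^ 2 := by positivity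
    have h6 : x ^ 2 / (2 * u) * 2 = x ^ 2 / u := by field_simp
    linarith
  exact le_of_sq_le_sq hsq hR

/-- Averaging the square root over all sign patterns gives a definite gain. -/
theorem sign_avg (a : ι → ℝ) {u : ℝ} (hu : 0 < u) (ha : ∑ p, |a p| ≤ u) (p₀ : ι) {ρ : ℝ}
    (hρ0 : 0 ≤ ρ) (hρ : ρ * u ≤ |a p₀|) :
    ∑ ε : ι → Bool, Real.sqrt (u + ∑ p, sg (ε p) * a p) ≤
      (Fintype.card (ι → Bool) : ℝ) * (Real.sqrt u * (1 - ρ ^ 2 / 8)) := by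
  have hX : ∀ ε : ι → Bool, |∑ p, sg (ε p) * a p| ≤ u := by
    intro ε
    refine (Finset.abs_sum_le_sum_abs _ _).trans (le_trans (le_of_eq ?_) ha)
    apply Finset.sum_congr rfl
    intro p _
    rw [abs_mul, abs_sg, one_mul]
  have h1 := sum_neg_signs (fun x => Real.sqrt (u + x)) a
  have h2 : 2 * ∑ ε : ι → Bool, Real.sqrt (u + ∑ p, sg (ε p) * a p) =
      ∑ ε : ι → Bool, (Real.sqrt (u + ∑ p, sg (ε p) * a p) +
        Real.sqrt (u - ∑ p, sg (ε p) * a p)) := by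
    rw [Finset.sum_add_distrib, two_mul]
    congr 1
  have h3 : 2 * ∑ ε : ι → Bool, Real.sqrt (u + ∑ p, sg (ε p) * a p) ≤
      ∑ ε : ι → Bool, 2 * (Real.sqrt u * (1 - (∑ p, sg (ε p) * a p) ^ 2 / (8 * u ^ 2))) := by
    rw [h2]
    exact Finset.sum_le_sum fun ε _ => sqrt_pair hu (hX ε)
  have h4 : ∑ ε : ι → Bool, 2 * (Real.sqrt u * (1 - (∑ p, sg (ε p) * a p) ^ 2 / (8 * u ^ 2)))
      = 2 * (Real.sqrt u * ((Fintype.card (ι → Bool) : ℝ) -
        (∑ ε : ι → Bool, (∑ p, sg (ε p) * a p) ^ 2) / (8 * u ^ 2))) := by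
    rw [← Finset.mul_sum, ← Finset.mul_sum, Finset.sum_sub_distrib, Finset.sum_div]
    simp
  have h5 := sum_sq_ge a p₀
  have h6 : (ρ * u) ^ 2 ≤ a p₀ ^ 2 := by
    have := pow_le_pow_left₀ (by positivity) hρ 2
    rwa [sq_abs] at this
  have hc : (0 : ℝ) ≤ (Fintype.card (ι → Bool) : ℝ) := by positivity
  have h7 : (Fintype.card (ι → Bool) : ℝ) * (ρ * u) ^ 2 ≤ ∑ ε : ι → Bool, (∑ p, sg (ε p) * a p) ^ 2 :=
    (mul_le_mul_of_nonneg_left h6 hc).trans h5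
  have h8 : (Fintype.card (ι → Bool) : ℝ) * (ρ ^ 2 / 8) ≤
      (∑ ε : ι → Bool, (∑ p, sg (ε p) * a p) ^ 2) / (8 * u ^ 2) := by
    rw [le_div_iff₀ (by positivity)]
    calc (Fintype.card (ι → Bool) : ℝ) * (ρ ^ 2 / 8) * (8 * u ^ 2)
        = (Fintype.card (ι → Bool) : ℝ) * (ρ * u) ^ 2 := by ring
      _ ≤ _ := h7
  rw [h4] at h3
  have h9 : Real.sqrt u * ((Fintype.card (ι → Bool) : ℝ) -
        (∑ ε : ι → Bool, (∑ p, sg (ε p) * a p) ^ 2) / (8 * u ^ 2)) ≤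
      Real.sqrt u * ((Fintype.card (ι → Bool) : ℝ) - (Fintype.card (ι → Bool) : ℝ) * (ρ ^ 2 / 8)) := by
    apply mul_le_mul_of_nonneg_left _ (Real.sqrt_nonneg u)
    linarith
  nlinarith

end Pool.Agent.MPdb50ff
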