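/-
MP_db50ff_an : the objects of the problem, exactly as posed.
-/
import Mathlib

namespace Pool.Agent.MPdb50ff

open MeasureTheory Metric Set

/-- `ℂ^n` with its Euclidean norm. -/
abbrev Cn (n : ℕ) := EuclideanSpace ℂ (Fin n)

/-- The rotation-invariant surface measure on the unit sphere `S` of `ℂ^n`, normalised by
`σ(S) = 1` (Mathlib's surface measure `toSphere` of Lebesgue measure, divided by its mass). -/
noncomputable def sigma (n : ℕ) : Measure (sphere (0 : Cn n) 1) :=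
  ((volume : Measure (Cn n)).toSphere univ)⁻¹ • (volume : Measure (Cn n)).toSphere

/-- `f` is admissible: it belongs to the ball algebra `A(B)`, `‖f‖_∞ ≤ 1`, `f(0) = 0` and
`σ{ζ ∈ S : |f(ζ)| = 1} > 0`. -/
structure Admissible (n : ℕ) (f : Cn n → ℂ) : Prop where
  cont : ContinuousOn f (closedBall 0 1)
  holo : DifferentiableOn ℂ f (ball 0 1)
  bound : ∀ z ∈ closedBall (0 : Cn n) 1, ‖f z‖ ≤ 1
  zero : f 0 = 0
  unimodular : 0 < sigma n {ζ | ‖f ζ‖ = 1}

/-- `f` satisfies a Lipschitz (Hölder) condition of order `α` on the closed unit ball. -/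
def LipOrder (n : ℕ) (α : ℝ) (f : Cn n → ℂ) : Prop :=
  ∃ C : ℝ, ∀ z ∈ closedBall (0 : Cn n) 1, ∀ w ∈ closedBall (0 : Cn n) 1,
    ‖f z - f w‖ ≤ C * ‖z - w‖ ^ α

end Pool.Agent.MPdb50ff
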