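import Mathlib
import Pool.Agent.Lib.MP_db50ff_an.Defs

set_option autoImplicit false

/-!
Rotation invariance of `sigma`, transitivity of the unitary group, second moments.
-/

namespace Pool.Agent.MPdb50ff

open MeasureTheory Metric Set

open scoped InnerProductSpace Pointwise

/-- a complex linear isometry as a real one -/
noncomputable def toRealIso {n : ℕ} (U : Cn n ≃ₗᵢ[ℂ] Cn n) : Cn n ≃ₗᵢ[ℝ] Cn n where
  toLinearEquiv := U.toLinearEquiv.restrictScalars ℝ
  norm_map' := fun x => U.norm_map x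

theorem vol_pres {n : ℕ} (U : Cn n ≃ₗᵢ[ℂ] Cn n) :
    MeasurePreserving (fun x => U x) (volume : Measure (Cn n)) volume := by
  exact (toRealIso U).measurePreserving

/-- the map of the sphere induced by a unitary map -/
noncomputable def sphMap {n : ℕ} (U : Cn n ≃ₗᵢ[ℂ] Cn n) (ζ : sphere (0 : Cn n) 1) :
    sphere (0 : Cn n) 1 :=
  ⟨U ζ, by
    have : ‖(ζ : Cn n)‖ = 1 := by simp
    simp [this]⟩

@[simp] theorem coe_sphMap {n : ℕ} (U : Cn n ≃ₗᵢ[ℂ] Cn n) (ζ : sphere (0 : Cn n) 1) :
    (sphMap U ζ : Cn n) = U ζ := rfl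

theorem continuous_sphMap {n : ℕ} (U : Cn n ≃ₗᵢ[ℂ] Cn n) : Continuous (sphMap U) :=
  Continuous.subtype_mk (U.continuous.comp continuous_subtype_val) _

theorem toSphere_map {n : ℕ} (U : Cn n ≃ₗᵢ[ℂ] Cn n) :
    Measure.map (sphMap U) (volume : Measure (Cn n)).toSphere =
      (volume : Measure (Cn n)).toSphere := by
  ext s hs
  have hm : Measurable (sphMap U) := (continuous_sphMap U).measurable
  rw [Measure.map_apply hm hs, Measure.toSphere_apply' _ (hm hs), Measure.toSphere_apply' _ hs]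
  congr 1
  have h1 : (Ioo (0:ℝ) 1 • (Subtype.val '' (sphMap U ⁻¹' s)) : Set (Cn n)) =
      (fun x => U x) ⁻¹' (Ioo (0:ℝ) 1 • (Subtype.val '' s)) := by
    ext x
    constructor
    · rintro ⟨t, ht, y, ⟨ζ, hζ, rfl⟩, rfl⟩
      refine ⟨t, ht, _, ⟨sphMap U ζ, hζ, rfl⟩, ?_⟩
      simp only [coe_sphMap]
      exact ((toRealIso U).map_smul t (ζ : Cn n)).symm
    · rintro ⟨t, ht, y, ⟨ζ, hζ, rfl⟩, hx⟩
      refine ⟨t, ht, _, ⟨sphMap U.symm ζ, ?_, rfl⟩, ?_⟩
      · have : sphMap U (sphMap U.symm ζ) = ζ := by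
          ext1; simp
        simpa [this] using hζ
      · have h2 : U x = t • (ζ : Cn n) := hx.symm
        have h3 : x = U.symm (t • (ζ : Cn n)) := by rw [← h2]; simp
        rw [h3]
        simp only [coe_sphMap]
        exact ((toRealIso U.symm).map_smul t (ζ : Cn n)).symm
  rw [h1]
  apply (vol_pres U).measure_preimage_equiv (f := (toRealIso U).toHomeomorph.toMeasurableEquiv)

theorem sigma_map {n : ℕ} (U : Cn n ≃ₗᵢ[ℂ] Cn n) :
    Measure.map (sphMap U) (sigma n) = sigma n := by
  unfold sigma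
  rw [Measure.map_smul, toSphere_map]

instance sigma_prob {n : ℕ} [NeZero n] : IsProbabilityMeasure (sigma n) := by
  constructor
  unfold sigma
  rw [Measure.smul_apply, smul_eq_mul]
  apply ENNReal.inv_mul_cancel
  · have : (volume : Measure (Cn n)).toSphere ≠ 0 := Measure.toSphere_ne_zero _
    exact Measure.measure_univ_ne_zero.2 this
  · exact measure_ne_top _ _

theorem sigma_integral_map {n : ℕ} {E : Type*} [NormedAddCommGroup E] [NormedSpace ℝ E]
    (U : Cn n ≃ₗᵢ[ℂ] Cn n) (F : sphere (0 : Cn n) 1 → E) :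
    ∫ ζ, F (sphMap U ζ) ∂(sigma n) = ∫ ζ, F ζ ∂(sigma n) := by
  have h : MeasurableEmbedding (sphMap U) := by
    let e : sphere (0 : Cn n) 1 ≃ₜ sphere (0 : Cn n) 1 :=
      { toFun := sphMap U
        invFun := sphMap U.symm
        left_inv := fun ζ => by ext1; simp
        right_inv := fun ζ => by ext1; simp
        continuous_toFun := continuous_sphMap U
        continuous_invFun := continuous_sphMap U.symm }
    exact e.measurableEmbedding
  rw [← h.integral_map, sigma_map]

/-- the unitary group is transitive on the unit sphere -/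
theorem exists_unitary {n : ℕ} [NeZero n] {x y : Cn n} (hx : ‖x‖ = 1) (hy : ‖y‖ = 1) :
    ∃ U : Cn n ≃ₗᵢ[ℂ] Cn n, U x = y := by
  have key : ∀ x : Cn n, ‖x‖ = 1 → ∃ b : OrthonormalBasis (Fin n) ℂ (Cn n), b 0 = x := by
    intro x hx
    have ho : Orthonormal ℂ (({0} : Set (Fin n)).domRestrict (fun _ => x)) := by
      constructor
      · intro i; simpa using hx
      · intro i j hij
        exact absurd (Subsingleton.elim i j) hij
    obtain ⟨b, hb⟩ := ho.exists_orthonormalBasis_extension_of_card_eq (by simp)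
    exact ⟨b, hb 0 (by simp)⟩
  obtain ⟨b, hb⟩ := key x hx
  obtain ⟨b', hb'⟩ := key y hy
  refine ⟨b.equiv b' (Equiv.refl _), ?_⟩
  rw [← hb, OrthonormalBasis.equiv_apply_basis]
  simpa using hb'

/-- multiplication by a unimodular number -/
noncomputable def rotIso (n : ℕ) (c : ℂ) (hc : ‖c‖ = 1) : Cn n ≃ₗᵢ[ℂ] Cn n where
  toLinearEquiv := LinearEquiv.smulOfNeZero ℂ (Cn n) c (by rintro rfl; simp at hc)
  norm_map' := fun x => by
    show ‖c • x‖ = ‖x‖
    rw [norm_smul, hc, one_mul]

theorem rotIso_apply (n : ℕ) (c : ℂ) (hc : ‖c‖ = 1) (x : Cn n) : rotIso n c hc x = c • x := rfl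

/-- a function continuous on the closed ball of radius `r < 1` is integrable over the sphere -/
theorem integrable_sphere {n : ℕ} [NeZero n] {E : Type*} [NormedAddCommGroup E]
    {F : Cn n → E} {r : ℝ} (hr0 : 0 ≤ r) (hr1 : r < 1)
    (hF : ContinuousOn F (ball 0 1)) :
    Integrable (fun ζ : sphere (0 : Cn n) 1 => F (r • (ζ : Cn n))) (sigma n) := by
  have hc : Continuous (fun ζ : sphere (0 : Cn n) 1 => F (r • (ζ : Cn n))) := by
    apply hF.comp_continuous (by fun_prop)
    intro ζ
    have : ‖(ζ : Cn n)‖ = 1 := by simp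
    rw [mem_ball_zero_iff, norm_smul, this, mul_one, Real.norm_of_nonneg hr0]
    exact hr1
  exact hc.integrable_of_hasCompactSupport (HasCompactSupport.of_compactSpace _)

/-- mean value property over the sphere for holomorphic functions -/
theorem mean_value {n : ℕ} [NeZero n] {F : Cn n → ℂ} {r : ℝ} (hr0 : 0 ≤ r) (hr1 : r < 1)
    (hF : DifferentiableOn ℂ F (ball 0 1)) :
    ∫ ζ, F (r • (ζ : Cn n)) ∂(sigma n) = F 0 := by
  have hnorm : ∀ (t : ℝ) (ζ : sphere (0 : Cn n) 1), circleMap 0 r t • (ζ : Cn n) ∈ ball (0 : Cn n) 1 := by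
    intro t ζ
    have : ‖(ζ : Cn n)‖ = 1 := by simp
    rw [mem_ball_zero_iff, norm_smul, this, mul_one, norm_circleMap_zero, abs_of_nonneg hr0]
    exact hr1
  -- rotation
  have h1 : ∀ t : ℝ, ∫ ζ, F (circleMap 0 r t • (ζ : Cn n)) ∂(sigma n) =
      ∫ ζ, F (r • (ζ : Cn n)) ∂(sigma n) := by
    intro t
    have hc : ‖Complex.exp (t * Complex.I)‖ = 1 := Complex.norm_exp_ofReal_mul_I t
    rw [← sigma_integral_map (rotIso n _ hc) (fun ζ => F (r • (ζ : Cn n)))]
    congr 1
    ext ζ
    rw [coe_sphMap, rotIso_apply, circleMap_zero, mul_smul, Complex.coe_smul]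
  have h2 : ∀ ζ : sphere (0 : Cn n) 1,
      ∫ t in (0 : ℝ)..(2 * Real.pi), F (circleMap 0 r t • (ζ : Cn n)) = (2 * Real.pi) • F 0 := by
    intro ζ
    have h3 : Real.circleAverage (fun z : ℂ => F (z • (ζ : Cn n))) 0 r = F ((0:ℂ) • (ζ : Cn n)) := by
      apply DiffContOnCl.circleAverage
      have hb : closedBall (0 : ℂ) |r| ⊆ {z : ℂ | z • (ζ : Cn n) ∈ ball (0 : Cn n) 1} := by
        intro z hz
        have : ‖(ζ : Cn n)‖ = 1 := by simp
        rw [mem_closedBall_zero_iff, abs_of_nonneg hr0] at hz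
        show z • (ζ : Cn n) ∈ ball (0 : Cn n) 1
        rw [mem_ball_zero_iff, norm_smul, this, mul_one]
        exact hz.trans_lt hr1
      have hd : DifferentiableOn ℂ (fun z : ℂ => F (z • (ζ : Cn n))) (closedBall 0 |r|) := by
        intro z hz
        have hz' := hb hz
        have h4 : DifferentiableAt ℂ F (z • (ζ : Cn n)) :=
          (hF _ hz').differentiableAt (isOpen_ball.mem_nhds hz')
        exact (h4.comp z (by fun_prop : DifferentiableAt ℂ (fun z : ℂ => z • (ζ : Cn n)) z)).differentiableWithinAt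
      exact hd.diffContOnCl_ball subset_rfl
    rw [Real.circleAverage_def] at h3
    rw [zero_smul] at h3
    rw [← h3, smul_smul, mul_inv_cancel₀ (by positivity), one_smul]
  have hint : Integrable (Function.uncurry fun (t : ℝ) (ζ : sphere (0 : Cn n) 1) =>
      F (circleMap 0 r t • (ζ : Cn n)))
      ((volume.restrict (Ioc 0 (2 * Real.pi))).prod (sigma n)) := by
    have hc : Continuous (Function.uncurry fun (t : ℝ) (ζ : sphere (0 : Cn n) 1) =>
      F (circleMap 0 r t • (ζ : Cn n))) := by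
      apply hF.continuousOn.comp_continuous
      · fun_prop
      · rintro ⟨t, ζ⟩
        exact hnorm t ζ
    obtain ⟨C, hC⟩ := (isCompact_closedBall (0 : Cn n) r).exists_bound_of_continuousOn
      (hF.continuousOn.mono (closedBall_subset_ball hr1))
    refine Integrable.of_bound hc.aestronglyMeasurable C (Filter.Eventually.of_forall ?_)
    rintro ⟨t, ζ⟩
    apply hC
    have : ‖(ζ : Cn n)‖ = 1 := by simp
    rw [mem_closedBall_zero_iff, norm_smul, this, mul_one, norm_circleMap_zero, abs_of_nonneg hr0]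
  have h5 := integral_integral_swap hint
  simp_rw [h1] at h5
  have h6 : ∀ ζ : sphere (0 : Cn n) 1, ∫ t in Ioc (0 : ℝ) (2 * Real.pi),
      F (circleMap 0 r t • (ζ : Cn n)) = (2 * Real.pi) • F 0 := by
    intro ζ
    rw [← h2 ζ, intervalIntegral.integral_of_le (by positivity)]
  simp_rw [h6] at h5
  simp only [integral_const, measureReal_restrict_apply_univ, Real.volume_real_Ioc, probReal_univ, one_smul] at h5
  rw [sub_zero, max_eq_left (by positivity)] at h5
  exact smul_right_injective ℂ (by positivity : (2 * Real.pi) ≠ 0) h5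

end Pool.Agent.MPdb50ff
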