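import Mathlib

set_option autoImplicit false

namespace Pool.Agent.MPdb50ff

open MeasureTheory Metric Complex Real

open scoped InnerProductSpace ComplexConjugate

/-- Real part version of the Poisson formula on a disc. -/
theorem re_eq_circleAverage {F : ℂ → ℂ} {R : ℝ} (hF : DiffContOnCl ℂ F (ball 0 R))
    {a : ℂ} (ha : a ∈ ball (0 : ℂ) R) :
    (F a).re = circleAverage (fun z => poissonKernel 0 a z * (F z).re) 0 R := by
  have hR : 0 < R := pos_of_mem_ball ha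
  have h1 := hF.circleAverage_poissonKernel_smul ha
  have hcont : ContinuousOn F (closedBall 0 R) := by
    have := hF.continuousOn
    rwa [closure_ball _ hR.ne'] at this
  have hP : ContinuousOn (fun z => poissonKernel 0 a z) (sphere (0 : ℂ) R) := by
    unfold poissonKernel
    apply ContinuousOn.div
    · fun_prop
    · fun_prop
    · intro z hz
      have h2 : z ≠ a := by
        rintro rfl
        simp only [mem_ball, mem_sphere] at ha hz
        linarith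
      have : (z - 0) - (a - 0) ≠ 0 := by simpa [sub_eq_zero] using h2
      positivity
  have hci : CircleIntegrable (poissonKernel 0 a • F) 0 R := by
    apply ContinuousOn.circleIntegrable hR.le
    exact hP.smul (hcont.mono sphere_subset_closedBall)
  have h2 := Complex.reCLM.circleAverage_comp_comm hci
  rw [h1] at h2
  have h3 : (F a).re = Complex.reCLM (F a) := rfl
  rw [h3, ← h2]
  congr 1
  ext z
  simp

theorem poisson_ratio {R : ℝ} {a b z : ℂ} (ha : ‖a‖ < R) (hb : ‖b‖ < R) (hz : ‖z‖ = R) :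
    poissonKernel 0 a z ≤
      16 * ‖(R : ℂ) ^ 2 - conj b * a‖ ^ 2 / ((R ^ 2 - ‖a‖ ^ 2) * (R ^ 2 - ‖b‖ ^ 2)) *
        poissonKernel 0 b z := by
  have hR : 0 < R := lt_of_le_of_lt (norm_nonneg a) ha
  have hna := norm_nonneg a
  have hnb := norm_nonneg b
  set X : ℝ := ‖(R : ℂ) ^ 2 - conj b * a‖ with hX
  have hX0 : 0 ≤ X := norm_nonneg _
  have hza : z ≠ a := by rintro rfl; linarith
  have hzb : z ≠ b := by rintro rfl; linarith
  have hza' : 0 < ‖z - a‖ := by rw [norm_pos_iff]; exact sub_ne_zero.2 hza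
  have hzb' : 0 < ‖z - b‖ := by rw [norm_pos_iff]; exact sub_ne_zero.2 hzb
  have hA : 0 < R ^ 2 - ‖a‖ ^ 2 := by nlinarith
  have hB : 0 < R ^ 2 - ‖b‖ ^ 2 := by nlinarith
  -- X ≥ R² - |a||b|
  have hX1 : R ^ 2 - ‖a‖ * ‖b‖ ≤ X := by
    have h := norm_sub_norm_le ((R : ℂ) ^ 2) (conj b * a)
    have h2 : ‖((R : ℂ) ^ 2)‖ = R ^ 2 := by
      rw [norm_pow, Complex.norm_real, Real.norm_eq_abs, sq_abs]
    have h3 : ‖conj b * a‖ = ‖a‖ * ‖b‖ := by
      rw [norm_mul, RCLike.norm_conj, mul_comm]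
    rw [h2, h3] at h
    exact h
  have hX2 : R ^ 2 - ‖a‖ ^ 2 ≤ 2 * X := by nlinarith
  -- R|z-b| ≤ X + R|z-a|
  have hX3 : R * ‖z - b‖ ≤ X + R * ‖z - a‖ := by
    have e1 : conj z * (z - b) = ((R : ℂ) ^ 2 - conj a * b) - b * (conj z - conj a) := by
      have : conj z * z = (R : ℂ) ^ 2 := by
        rw [mul_comm, Complex.mul_conj, Complex.normSq_eq_norm_sq, hz]; push_cast; ring
      linear_combination this
    have e2 : ‖(R : ℂ) ^ 2 - conj a * b‖ = X := by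
      rw [hX, ← RCLike.norm_conj]
      congr 1
      simp
      ring
    have e3 : ‖conj z * (z - b)‖ = R * ‖z - b‖ := by
      rw [norm_mul, RCLike.norm_conj, hz]
    rw [← e3, e1]
    calc ‖((R : ℂ) ^ 2 - conj a * b) - b * (conj z - conj a)‖
        ≤ ‖(R : ℂ) ^ 2 - conj a * b‖ + ‖b * (conj z - conj a)‖ := norm_sub_le _ _
      _ = X + ‖b‖ * ‖z - a‖ := by
          rw [e2, norm_mul, ← map_sub, RCLike.norm_conj]
      _ ≤ X + R * ‖z - a‖ := by nlinarith
  have hX4 : R ^ 2 - ‖a‖ ^ 2 ≤ 2 * R * ‖z - a‖ := by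
    have h := norm_sub_norm_le z a
    rw [hz] at h
    nlinarith
  have hkey : (R ^ 2 - ‖a‖ ^ 2) * ‖z - b‖ ≤ 4 * X * ‖z - a‖ := by
    have h1 : R * ((R ^ 2 - ‖a‖ ^ 2) * ‖z - b‖) ≤ R * (4 * X * ‖z - a‖) := by
      calc R * ((R ^ 2 - ‖a‖ ^ 2) * ‖z - b‖) = (R ^ 2 - ‖a‖ ^ 2) * (R * ‖z - b‖) := by ring
        _ ≤ (R ^ 2 - ‖a‖ ^ 2) * (X + R * ‖z - a‖) := by
            apply mul_le_mul_of_nonneg_left hX3 hA.le
        _ = (R ^ 2 - ‖a‖ ^ 2) * X + (R ^ 2 - ‖a‖ ^ 2) * (R * ‖z - a‖) := by ring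
        _ ≤ (2 * R * ‖z - a‖) * X + (2 * X) * (R * ‖z - a‖) := by
            apply add_le_add
            · exact mul_le_mul_of_nonneg_right hX4 hX0
            · exact mul_le_mul_of_nonneg_right hX2 (by positivity)
        _ = R * (4 * X * ‖z - a‖) := by ring
    exact le_of_mul_le_mul_left h1 hR
  have hkey2 : (R ^ 2 - ‖a‖ ^ 2) ^ 2 * ‖z - b‖ ^ 2 ≤ 16 * X ^ 2 * ‖z - a‖ ^ 2 := by
    have h0 : 0 ≤ (R ^ 2 - ‖a‖ ^ 2) * ‖z - b‖ := by positivity
    have := mul_self_le_mul_self h0 hkey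
    nlinarith
  unfold poissonKernel
  simp only [sub_zero]
  rw [hz]
  rw [show 16 * X ^ 2 / ((R ^ 2 - ‖a‖ ^ 2) * (R ^ 2 - ‖b‖ ^ 2)) * ((R ^ 2 - ‖b‖ ^ 2) / ‖z - b‖ ^ 2)
      = 16 * X ^ 2 / ((R ^ 2 - ‖a‖ ^ 2) * ‖z - b‖ ^ 2) by
        field_simp]
  rw [div_le_div_iff₀ (by positivity) (by positivity)]
  nlinarith

/-- Harnack's inequality on a disc, in an invariant form. -/
theorem harnack_disc {F : ℂ → ℂ} {R : ℝ} (hF : DiffContOnCl ℂ F (ball 0 R))
    (hpos : ∀ z ∈ sphere (0 : ℂ) R, 0 ≤ (F z).re) {a b : ℂ}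
    (ha : a ∈ ball (0 : ℂ) R) (hb : b ∈ ball (0 : ℂ) R) :
    (F a).re ≤ 16 * ‖(R : ℂ) ^ 2 - conj b * a‖ ^ 2 /
      ((R ^ 2 - ‖a‖ ^ 2) * (R ^ 2 - ‖b‖ ^ 2)) * (F b).re := by
  have hR : 0 < R := pos_of_mem_ball ha
  have hcont : ContinuousOn F (closedBall 0 R) := by
    have := hF.continuousOn
    rwa [closure_ball _ hR.ne'] at this
  have hP : ∀ c ∈ ball (0 : ℂ) R, CircleIntegrable (fun z => poissonKernel 0 c z * (F z).re) 0 R := by
    intro c hc
    apply ContinuousOn.circleIntegrable hR.le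
    apply ContinuousOn.mul
    · unfold poissonKernel
      apply ContinuousOn.div
      · fun_prop
      · fun_prop
      · intro z hz
        have h2 : z ≠ c := by
          rintro rfl
          simp only [mem_ball, mem_sphere] at hc hz
          linarith
        have : (z - 0) - (c - 0) ≠ 0 := by simpa [sub_eq_zero] using h2
        positivity
    · exact Complex.continuous_re.comp_continuousOn (hcont.mono sphere_subset_closedBall)
  rw [re_eq_circleAverage hF ha, re_eq_circleAverage hF hb]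
  set C : ℝ := 16 * ‖(R : ℂ) ^ 2 - conj b * a‖ ^ 2 /
      ((R ^ 2 - ‖a‖ ^ 2) * (R ^ 2 - ‖b‖ ^ 2)) with hC
  have h1 : C * circleAverage (fun z => poissonKernel 0 b z * (F z).re) 0 R
      = circleAverage (fun z => C * (poissonKernel 0 b z * (F z).re)) 0 R := by
    have := circleAverage_fun_smul (a := C) (f := fun z => poissonKernel 0 b z * (F z).re)
      (c := 0) (R := R)
    simpa using this.symm
  rw [h1]
  apply circleAverage_mono (hP a ha)
  · simpa using (hP b hb).const_fun_smul (a := C)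
  · intro z hz
    rw [abs_of_pos hR] at hz
    have hz' : ‖z‖ = R := by simpa using hz
    have ha' : ‖a‖ < R := by simpa using ha
    have hb' : ‖b‖ < R := by simpa using hb
    have := poisson_ratio ha' hb' hz'
    have h3 := hpos z hz
    calc poissonKernel 0 a z * (F z).re ≤ (C * poissonKernel 0 b z) * (F z).re :=
          mul_le_mul_of_nonneg_right this h3
      _ = C * (poissonKernel 0 b z * (F z).re) := by ring

variable {E : Type*} [NormedAddCommGroup E] [InnerProductSpace ℂ E]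

/-- Harnack's inequality for real parts of holomorphic functions on a ball of a complex inner
product space. -/
theorem harnack_ball {h : E → ℂ} {r : ℝ} (hd : DifferentiableOn ℂ h (ball 0 r))
    (hc : ContinuousOn h (closedBall 0 r)) (hpos : ∀ z ∈ closedBall (0 : E) r, 0 ≤ (h z).re)
    {a b : E} (ha : ‖a‖ < r) (hb : ‖b‖ < r) :
    (h a).re ≤ 16 * ‖(r : ℂ) ^ 2 - ⟪b, a⟫_ℂ‖ ^ 2 /
      ((r ^ 2 - ‖a‖ ^ 2) * (r ^ 2 - ‖b‖ ^ 2)) * (h b).re := by
  have hr : 0 < r := lt_of_le_of_lt (norm_nonneg a) ha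
  have hna := norm_nonneg a
  have hnb := norm_nonneg b
  have hA : 0 < r ^ 2 - ‖a‖ ^ 2 := by nlinarith
  have hB : 0 < r ^ 2 - ‖b‖ ^ 2 := by nlinarith
  by_cases hab : a = b
  · subst hab
    have h1 : ‖(r : ℂ) ^ 2 - ⟪a, a⟫_ℂ‖ = r ^ 2 - ‖a‖ ^ 2 := by
      rw [inner_self_eq_norm_sq_to_K]
      have : ((r : ℂ) ^ 2 - (((‖a‖ : ℝ) : ℂ)) ^ 2) = ((r ^ 2 - ‖a‖ ^ 2 : ℝ) : ℂ) := by
        push_cast; ring
      have h2 : ‖((r : ℂ) ^ 2 - (((‖a‖ : ℝ) : ℂ)) ^ 2)‖ = r ^ 2 - ‖a‖ ^ 2 := by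
        rw [this, Complex.norm_real, Real.norm_eq_abs, abs_of_pos hA]
      exact h2
    rw [h1]
    have h2 : 16 * (r ^ 2 - ‖a‖ ^ 2) ^ 2 / ((r ^ 2 - ‖a‖ ^ 2) * (r ^ 2 - ‖a‖ ^ 2)) = 16 := by
      field_simp
    rw [h2]
    have := hpos a (by simpa using ha.le)
    linarith
  · have hab' : 0 < ‖a - b‖ := by rw [norm_pos_iff]; exact sub_ne_zero.2 hab
    have hne : ((‖a - b‖ : ℝ) : ℂ) ≠ 0 := by exact_mod_cast hab'.ne'
    obtain ⟨e, he1, hsub⟩ : ∃ e : E, ‖e‖ = 1 ∧ a - b = (‖a - b‖ : ℂ) • e := by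
      refine ⟨((‖a - b‖ : ℂ)⁻¹) • (a - b), ?_, ?_⟩
      · rw [norm_smul, norm_inv, Complex.norm_real, Real.norm_eq_abs, abs_of_pos hab',
          inv_mul_cancel₀ hab'.ne']
      · rw [smul_smul, mul_inv_cancel₀ hne, one_smul]
    have hee : ⟪e, e⟫_ℂ = 1 := by
      rw [inner_self_eq_norm_sq_to_K, he1]; simp
    set ma : ℂ := ⟪e, a⟫_ℂ with hma
    set mb : ℂ := ⟪e, b⟫_ℂ with hmb
    set c₀ : E := a - ma • e with hc₀
    have hc₀e : ⟪e, c₀⟫_ℂ = 0 := by
      rw [hc₀, inner_sub_right, inner_smul_right, hee, ← hma]; ring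
    have hec₀ : ⟪c₀, e⟫_ℂ = 0 := by
      rw [← inner_conj_symm, hc₀e]; simp
    have hmab : ma - mb = (‖a - b‖ : ℂ) := by
      rw [hma, hmb, ← inner_sub_right, hsub, inner_smul_right, hee, mul_one]
      rw [← hsub]
    have ha_eq : a = c₀ + ma • e := by rw [hc₀]; abel
    have hb_eq : b = c₀ + mb • e := by
      have : mb = ma - (‖a - b‖ : ℂ) := by rw [← hmab]; ring
      rw [this, sub_smul, ← hsub, hc₀]
      abel
    have hnorm : ∀ m : ℂ, ‖c₀ + m • e‖ ^ 2 = ‖c₀‖ ^ 2 + ‖m‖ ^ 2 := by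
      intro m
      have h1 : ⟪c₀, m • e⟫_ℂ = 0 := by rw [inner_smul_right, hec₀, mul_zero]
      have := norm_add_pow_two (𝕜 := ℂ) c₀ (m • e)
      rw [h1] at this
      simp [norm_smul, he1] at this
      linarith [this]
    have hna2 : ‖a‖ ^ 2 = ‖c₀‖ ^ 2 + ‖ma‖ ^ 2 := by
      have h := hnorm ma
      rwa [← ha_eq] at h
    have hnb2 : ‖b‖ ^ 2 = ‖c₀‖ ^ 2 + ‖mb‖ ^ 2 := by
      have h := hnorm mb
      rwa [← hb_eq] at h
    have hR2 : 0 < r ^ 2 - ‖c₀‖ ^ 2 := by nlinarith [sq_nonneg ‖ma‖]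
    set R : ℝ := Real.sqrt (r ^ 2 - ‖c₀‖ ^ 2) with hRdef
    have hR : 0 < R := Real.sqrt_pos.2 hR2
    have hRsq : R ^ 2 = r ^ 2 - ‖c₀‖ ^ 2 := Real.sq_sqrt hR2.le
    set F : ℂ → ℂ := fun m => h (c₀ + m • e) with hF
    have hmaps : Set.MapsTo (fun m : ℂ => c₀ + m • e) (ball 0 R) (ball 0 r) := by
      intro m hm
      have hm' : ‖m‖ < R := by simpa using hm
      have h1 := hnorm m
      have h2 : ‖m‖ ^ 2 < R ^ 2 := by
        have := norm_nonneg m
        nlinarith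
      have : ‖c₀ + m • e‖ ^ 2 < r ^ 2 := by rw [h1]; linarith
      have h3 : ‖c₀ + m • e‖ < r := lt_of_pow_lt_pow_left₀ 2 hr.le this
      simpa using h3
    have hmaps2 : Set.MapsTo (fun m : ℂ => c₀ + m • e) (closedBall 0 R) (closedBall 0 r) := by
      intro m hm
      have hm' : ‖m‖ ≤ R := by simpa using hm
      have h1 := hnorm m
      have h2 : ‖m‖ ^ 2 ≤ R ^ 2 := by
        have := norm_nonneg m
        nlinarith
      have : ‖c₀ + m • e‖ ^ 2 ≤ r ^ 2 := by rw [h1]; linarith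
      have h3 : ‖c₀ + m • e‖ ≤ r := le_of_sq_le_sq this hr.le
      simpa using h3
    have hFd : DiffContOnCl ℂ F (ball 0 R) := by
      refine ⟨?_, ?_⟩
      · exact hd.comp (by fun_prop) hmaps
      · rw [closure_ball _ hR.ne']
        exact hc.comp (by fun_prop) hmaps2
    have hFpos : ∀ z ∈ sphere (0 : ℂ) R, 0 ≤ (F z).re := by
      intro z hz
      exact hpos _ (hmaps2 (sphere_subset_closedBall hz))
    have hma_mem : ma ∈ ball (0 : ℂ) R := by
      have : ‖ma‖ ^ 2 < R ^ 2 := by rw [hRsq]; linarith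
      have h3 : ‖ma‖ < R := lt_of_pow_lt_pow_left₀ 2 hR.le this
      simpa using h3
    have hmb_mem : mb ∈ ball (0 : ℂ) R := by
      have : ‖mb‖ ^ 2 < R ^ 2 := by rw [hRsq]; linarith
      have h3 : ‖mb‖ < R := lt_of_pow_lt_pow_left₀ 2 hR.le this
      simpa using h3
    have hmain := harnack_disc hFd hFpos hma_mem hmb_mem
    have hFa : F ma = h a := by rw [hF]; simp only; rw [← ha_eq]
    have hFb : F mb = h b := by rw [hF]; simp only; rw [← hb_eq]
    have hin : ⟪b, a⟫_ℂ = ((‖c₀‖ : ℝ) : ℂ) ^ 2 + conj mb * ma := by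
      conv_lhs => rw [hb_eq, ha_eq]
      rw [inner_add_left, inner_add_right, inner_add_right, inner_smul_left, inner_smul_left,
        inner_smul_right, inner_smul_right, hec₀, hc₀e, hee, inner_self_eq_norm_sq_to_K]
      simp
    have hRc : (R : ℂ) ^ 2 = (r : ℂ) ^ 2 - ((‖c₀‖ : ℝ) : ℂ) ^ 2 := by
      have := congrArg (fun x : ℝ => (x : ℂ)) hRsq
      push_cast at this
      exact this
    have e1 : (R : ℂ) ^ 2 - conj mb * ma = (r : ℂ) ^ 2 - ⟪b, a⟫_ℂ := by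
      rw [hRc, hin]; ring
    have e2 : R ^ 2 - ‖ma‖ ^ 2 = r ^ 2 - ‖a‖ ^ 2 := by rw [hRsq, hna2]; ring
    have e3 : R ^ 2 - ‖mb‖ ^ 2 = r ^ 2 - ‖b‖ ^ 2 := by rw [hRsq, hnb2]; ring
    rw [hFa, hFb, e1, e2, e3] at hmain
    exact hmain

end Pool.Agent.MPdb50ff
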