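import Mathlib

set_option autoImplicit false

namespace Pool.Agent.MPdb50ff

open MeasureTheory Metric Complex Real

open scoped InnerProductSpace ComplexConjugate

/-- The vector `(1, t)`. -/
noncomputable def vec {d : ℕ} (t : Fin d → ℂ) : EuclideanSpace ℂ (Fin (d+1)) :=
  WithLp.toLp 2 (Fin.cons 1 t : Fin (d+1) → ℂ)

theorem norm_vec_sq {d : ℕ} (t : Fin d → ℂ) : ‖vec t‖ ^ 2 = 1 + ∑ i, ‖t i‖ ^ 2 := by
  rw [EuclideanSpace.norm_sq_eq, Fin.sum_univ_succ]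
  simp [vec]

theorem inner_vec {d : ℕ} (t : Fin d → ℂ) (z : EuclideanSpace ℂ (Fin (d+1))) :
    ⟪vec t, z⟫_ℂ = z 0 + ∑ i, conj (t i) * z i.succ := by
  rw [PiLp.inner_apply, Fin.sum_univ_succ]
  simp [vec, mul_comm]

theorem norm_vec_pos {d : ℕ} (t : Fin d → ℂ) : 1 ≤ ‖vec t‖ := by
  have h := norm_vec_sq t
  have h2 : 0 ≤ ∑ i, ‖t i‖ ^ 2 := Finset.sum_nonneg fun i _ => by positivity
  have h3 : (1 : ℝ) ^ 2 ≤ ‖vec t‖ ^ 2 := by linarith
  exact le_of_sq_le_sq h3 (norm_nonneg _)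

/-- Sums of the Cauchy kernel over integers are bounded. -/
theorem sum_inv_one_add_sq (a : ℝ) (K : ℕ) :
    ∑ m ∈ Finset.range K, (1 + ((m : ℝ) - a) ^ 2)⁻¹ ≤ 10 := by
  have key : ∀ y : ℝ, (1 + y ^ 2)⁻¹ ≤ 3 * (Real.arctan (y + 1) - Real.arctan y) := by
    intro y
    have h1 : (1 + y ^ 2)⁻¹ / 3 * ((y + 1) - y) ≤ Real.arctan (y + 1) - Real.arctan y := by
      apply Convex.mul_sub_le_image_sub_of_le_deriv (convex_Icc y (y+1))
        Real.continuous_arctan.continuousOn Real.differentiable_arctan.differentiableOn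
      · intro x hx
        rw [interior_Icc] at hx
        rw [Real.deriv_arctan]
        have hx1 := hx.1
        have hx2 := hx.2
        show (1 + y ^ 2)⁻¹ / 3 ≤ 1 / (1 + x ^ 2)
        rw [inv_eq_one_div, div_div, div_le_div_iff₀ (by positivity) (by positivity)]
        nlinarith [sq_nonneg (y+1), sq_nonneg (y-1), sq_nonneg (x - y), sq_nonneg (x-y-1),
          mul_nonneg (sub_nonneg.2 hx1.le) (sub_nonneg.2 hx2.le)]
      · exact Set.left_mem_Icc.2 (by linarith)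
      · exact Set.right_mem_Icc.2 (by linarith)
      · linarith
    linarith
  have h2 : ∑ m ∈ Finset.range K, (1 + ((m : ℝ) - a) ^ 2)⁻¹ ≤
      ∑ m ∈ Finset.range K, (3 * Real.arctan (((m + 1 : ℕ) : ℝ) - a) - 3 * Real.arctan ((m : ℝ) - a)) := by
    apply Finset.sum_le_sum
    intro m _
    have := key ((m : ℝ) - a)
    have e : ((m + 1 : ℕ) : ℝ) - a = (m : ℝ) - a + 1 := by push_cast; ring
    rw [e]
    linarith
  rw [Finset.sum_range_sub (fun m : ℕ => 3 * Real.arctan ((m : ℝ) - a))] at h2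
  have h3 := Real.arctan_lt_pi_div_two ((K : ℝ) - a)
  have h4 := Real.neg_pi_div_two_lt_arctan (((0 : ℕ) : ℝ) - a)
  have h5 := Real.pi_lt_d2
  linarith

theorem sum_fin_inv_one_add_sq (a : ℝ) (K : ℕ) :
    ∑ m : Fin K, (1 + (((m : ℕ) : ℝ) - a) ^ 2)⁻¹ ≤ 10 := by
  rw [Fin.sum_univ_eq_sum_range (fun m : ℕ => (1 + ((m : ℝ) - a) ^ 2)⁻¹) K]
  exact sum_inv_one_add_sq a K

theorem sin_lower {y : ℝ} (h0 : 0 ≤ y) (h1 : y ≤ 12 / 5) : y / 6 ≤ Real.sin y := by
  have hp1 := Real.pi_gt_d2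
  have hp2 := Real.pi_lt_d2
  have hp : 0 < π := Real.pi_pos
  by_cases h : y ≤ π / 2
  · have := Real.mul_le_sin h0 h
    have h3 : y / 6 ≤ 2 / π * y := by
      rw [div_mul_eq_mul_div, div_le_div_iff₀ (by norm_num) hp]
      nlinarith
    linarith
  · push Not at h
    have h4 : 0 ≤ π - y := by linarith
    have h5 : π - y ≤ π / 2 := by linarith
    have := Real.mul_le_sin h4 h5
    rw [Real.sin_pi_sub] at this
    have h3 : y / 6 ≤ 2 / π * (π - y) := by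
      rw [div_mul_eq_mul_div, div_le_div_iff₀ (by norm_num) hp]
      nlinarith
    linarith

/-- The distance from a real number `b ≥ 1` to `s e^{ix}` controls `|x|`. -/
theorem norm_sub_exp_ge {b s x : ℝ} (hb : 1 ≤ b) (hs : 0 ≤ s) (hx : |x| ≤ 24 / 5) :
    |x| / 24 ≤ ‖(b : ℂ) - s * Complex.exp (x * I)‖ := by
  have hsq : ‖(b : ℂ) - s * Complex.exp (x * I)‖ ^ 2 = (b - s) ^ 2 + 4 * b * s * Real.sin (|x| / 2) ^ 2 := by
    rw [Complex.exp_mul_I, ← Complex.ofReal_cos, ← Complex.ofReal_sin, ← Complex.normSq_eq_norm_sq,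
      Complex.normSq_apply]
    have h1 : Real.cos x = 1 - 2 * Real.sin (|x| / 2) ^ 2 := by
      rw [← Real.cos_abs x]
      have : |x| = 2 * (|x| / 2) := by ring
      conv_lhs => rw [this]
      rw [Real.cos_two_mul, Real.cos_sq']
      ring
    have h2 := Real.sin_sq_add_cos_sq x
    simp
    have e : (b - s * Real.cos x) * (b - s * Real.cos x) + s * Real.sin x * (s * Real.sin x)
        = b ^ 2 - 2 * b * s * Real.cos x + s ^ 2 * (Real.sin x ^ 2 + Real.cos x ^ 2) := by ring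
    rw [Complex.cos_ofReal_re, Complex.sin_ofReal_re, e, h2, h1]
    ring
  have habs := abs_nonneg x
  by_cases h : 1 / 2 ≤ s
  · have h1 := sin_lower (y := |x| / 2) (by positivity) (by linarith)
    have h2 : (|x| / 2 / 6) ^ 2 ≤ Real.sin (|x| / 2) ^ 2 := by
      apply pow_le_pow_left₀ (by positivity) h1
    have h3 : 1 / 2 ≤ b * s := by nlinarith
    have h4 : (|x| / 24) ^ 2 ≤ ‖(b : ℂ) - s * Complex.exp (x * I)‖ ^ 2 := by
      rw [hsq]
      have h5 : 0 ≤ Real.sin (|x| / 2) ^ 2 := by positivity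
      nlinarith [sq_nonneg (b - s)]
    exact le_of_sq_le_sq h4 (norm_nonneg _)
  · push Not at h
    have h4 : (|x| / 24) ^ 2 ≤ ‖(b : ℂ) - s * Complex.exp (x * I)‖ ^ 2 := by
      rw [hsq]
      have h5 : 0 ≤ 4 * b * s * Real.sin (|x| / 2) ^ 2 := by positivity
      have h6 : (1 / 2 : ℝ) ≤ b - s := by linarith
      have h7 : |x| / 24 ≤ 1 / 2 := by linarith
      have h8 : (|x| / 24) ^ 2 ≤ (1 / 2) ^ 2 := pow_le_pow_left₀ (by positivity) h7 2
      have h9 : (1 / 2 : ℝ) ^ 2 ≤ (b - s) ^ 2 := pow_le_pow_left₀ (by norm_num) h6 2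
      linarith
    exact le_of_sq_le_sq h4 (norm_nonneg _)

/-- The angular grid. -/
noncomputable def ang (L : ℕ) (l : Fin (2 * L + 1)) : ℝ := 33 / 20 * (((l : ℕ) : ℝ) / L - 1)

theorem ang_le {L : ℕ} (hL : 1 ≤ L) (l : Fin (2 * L + 1)) : |ang L l| ≤ 33 / 20 := by
  have hL' : (0 : ℝ) < L := by exact_mod_cast hL
  have h1 : ((l : ℕ) : ℝ) ≤ 2 * L := by
    have := l.2
    have h2 : (l : ℕ) ≤ 2 * L := by omega
    exact_mod_cast h2
  have h0 : (0 : ℝ) ≤ ((l : ℕ) : ℝ) := Nat.cast_nonneg _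
  rw [abs_le]
  unfold ang
  constructor
  · have : 0 ≤ ((l : ℕ) : ℝ) / L := by positivity
    linarith
  · have : ((l : ℕ) : ℝ) / L ≤ 2 := by
      rw [div_le_iff₀ hL']; linarith
    linarith

theorem angular_sum {N L : ℕ} (hN : 1 ≤ N) (hL : 1 ≤ L) (lam : ℂ)
    (hlam : ‖lam‖ ≤ 1 + 1 / (2 * N)) :
    ∑ l : Fin (2 * L + 1),
      (((N : ℝ) * ‖((1 + 1 / N : ℝ) : ℂ) - Complex.exp (-(ang L l : ℂ) * I) * lam‖) ^ 2)⁻¹
      ≤ 20 / min (1 / 4) (((N : ℝ) / (24 * L)) ^ 2) := by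
  have hN' : (0 : ℝ) < N := by exact_mod_cast hN
  have hL' : (0 : ℝ) < L := by exact_mod_cast hL
  set κ : ℝ := (N : ℝ) / (24 * L) with hκ
  have hκ0 : 0 < κ := by positivity
  set m : ℝ := min (1 / 4) (κ ^ 2) with hm
  have hm0 : 0 < m := lt_min (by norm_num) (by positivity)
  have hm1 : m ≤ 1 / 4 := min_le_left _ _
  have hm2 : m ≤ κ ^ 2 := min_le_right _ _
  set a : ℝ := L * (20 / 33 * arg lam + 1) with ha
  have hterm : ∀ l : Fin (2 * L + 1),
      (((N : ℝ) * ‖((1 + 1 / N : ℝ) : ℂ) - Complex.exp (-(ang L l : ℂ) * I) * lam‖) ^ 2)⁻¹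
        ≤ 2 / m * (1 + (((l : ℕ) : ℝ) - a) ^ 2)⁻¹ := by
    intro l
    have e1 : Complex.exp (-(ang L l : ℂ) * I) * lam =
        ((‖lam‖ : ℝ) : ℂ) * Complex.exp (((arg lam - ang L l : ℝ) : ℂ) * I) := by
      conv_lhs => rw [← Complex.norm_mul_exp_arg_mul_I lam]
      rw [mul_left_comm, ← Complex.exp_add]
      congr 2
      push_cast
      ring
    rw [e1]
    set x : ℝ := arg lam - ang L l with hx
    have hx1 : |x| ≤ 24 / 5 := by
      have h1 := Complex.abs_arg_le_pi lam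
      have h2 := ang_le hL l
      have h3 := Real.pi_lt_d2
      calc |x| ≤ |arg lam| + |ang L l| := abs_sub _ _
        _ ≤ 24 / 5 := by linarith
    have hb : (1 : ℝ) ≤ 1 + 1 / N := by
      have : (0 : ℝ) ≤ 1 / N := by positivity
      linarith
    have hA := norm_sub_exp_ge hb (norm_nonneg lam) hx1
    set X : ℝ := ‖((1 + 1 / N : ℝ) : ℂ) - ((‖lam‖ : ℝ) : ℂ) * Complex.exp ((x : ℂ) * I)‖ with hX
    have hB : 1 / (2 * N) ≤ X := by
      have h1 := norm_sub_norm_le ((1 + 1 / N : ℝ) : ℂ) (((‖lam‖ : ℝ) : ℂ) * Complex.exp ((x : ℂ) * I))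
      rw [norm_mul, Complex.norm_exp_ofReal_mul_I, Complex.norm_real, Complex.norm_real,
        Real.norm_eq_abs, Real.norm_eq_abs, abs_of_nonneg (norm_nonneg lam),
        abs_of_pos (by positivity), mul_one] at h1
      have h2 : (1 : ℝ) / N - 1 / (2 * N) = 1 / (2 * N) := by field_simp; ring
      linarith
    have hX0 : 0 < X := lt_of_lt_of_le (by positivity) hB
    have hC : (1 : ℝ) / 2 ≤ N * X := by
      have := mul_le_mul_of_nonneg_left hB hN'.le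
      have e2 : (N : ℝ) * (1 / (2 * N)) = 1 / 2 := by field_simp
      linarith
    have hD : κ * |((l : ℕ) : ℝ) - a| ≤ N * X := by
      have e3 : κ * |((l : ℕ) : ℝ) - a| = 20 / 33 * (N * (|x| / 24)) := by
        have : ((l : ℕ) : ℝ) - a = - (20 / 33 * (L * x)) := by
          rw [hx, ha]; unfold ang; field_simp; ring
        rw [this, abs_neg, abs_mul, abs_mul, abs_of_pos hL', hκ,
          abs_of_pos (by norm_num : (0 : ℝ) < 20 / 33)]
        field_simp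
      rw [e3]
      have e4 : 0 ≤ N * (|x| / 24) := by positivity
      have e5 := mul_le_mul_of_nonneg_left hA hN'.le
      linarith
    have hE : m / 2 * (1 + (((l : ℕ) : ℝ) - a) ^ 2) ≤ (N * X) ^ 2 := by
      have h1 : ((1 : ℝ) / 2) ^ 2 ≤ (N * X) ^ 2 := pow_le_pow_left₀ (by norm_num) hC 2
      have h2 : (κ * |((l : ℕ) : ℝ) - a|) ^ 2 ≤ (N * X) ^ 2 := pow_le_pow_left₀ (by positivity) hD 2
      rw [mul_pow, sq_abs] at h2
      have h3 : m * (((l : ℕ) : ℝ) - a) ^ 2 ≤ κ ^ 2 * (((l : ℕ) : ℝ) - a) ^ 2 :=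
        mul_le_mul_of_nonneg_right hm2 (by positivity)
      nlinarith
    have hF : 0 < m / 2 * (1 + (((l : ℕ) : ℝ) - a) ^ 2) := by positivity
    calc ((N * X) ^ 2)⁻¹ ≤ (m / 2 * (1 + (((l : ℕ) : ℝ) - a) ^ 2))⁻¹ := inv_anti₀ hF hE
      _ = 2 / m * (1 + (((l : ℕ) : ℝ) - a) ^ 2)⁻¹ := by
          rw [mul_inv, inv_div]
  calc _ ≤ ∑ l : Fin (2 * L + 1), 2 / m * (1 + (((l : ℕ) : ℝ) - a) ^ 2)⁻¹ :=
        Finset.sum_le_sum fun l _ => hterm l
    _ = 2 / m * ∑ l : Fin (2 * L + 1), (1 + (((l : ℕ) : ℝ) - a) ^ 2)⁻¹ := by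
        rw [Finset.mul_sum]
    _ ≤ 2 / m * 10 := by
        apply mul_le_mul_of_nonneg_left (sum_fin_inv_one_add_sq a _) (by positivity)
    _ = 20 / m := by ring

end Pool.Agent.MPdb50ff
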