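import Mathlib
import Pool.Agent.Lib.MP_db50ff_an.NetA

set_option autoImplicit false

namespace Pool.Agent.MPdb50ff

open MeasureTheory Metric Complex Real

open scoped InnerProductSpace ComplexConjugate

/-- The unit vector in the direction of `(1, t)`. -/
noncomputable def uv {d : ℕ} (t : Fin d → ℂ) : EuclideanSpace ℂ (Fin (d+1)) :=
  ((‖vec t‖ : ℂ)⁻¹) • vec t

theorem norm_uv {d : ℕ} (t : Fin d → ℂ) : ‖uv t‖ = 1 := by
  have h := norm_vec_pos t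
  have h' : 0 < ‖vec t‖ := by linarith
  rw [uv, norm_smul, norm_inv, Complex.norm_real, Real.norm_eq_abs, abs_of_pos h',
    inv_mul_cancel₀ h'.ne']

theorem vec_eq {d : ℕ} (t : Fin d → ℂ) : vec t = (‖vec t‖ : ℂ) • uv t := by
  have h := norm_vec_pos t
  have h' : ((‖vec t‖ : ℝ) : ℂ) ≠ 0 := by
    have : ‖vec t‖ ≠ 0 := by linarith
    exact_mod_cast this
  rw [uv, smul_smul, mul_inv_cancel₀ h', one_smul]

theorem norm_sub_proj_sq {d : ℕ} {u z : EuclideanSpace ℂ (Fin (d+1))} (hu : ‖u‖ = 1) :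
    ‖z - ⟪u, z⟫_ℂ • u‖ ^ 2 = ‖z‖ ^ 2 - ‖⟪u, z⟫_ℂ‖ ^ 2 := by
  have huu : ⟪u, u⟫_ℂ = 1 := by rw [inner_self_eq_norm_sq_to_K, hu]; simp
  have h1 : ⟪z - ⟪u, z⟫_ℂ • u, ⟪u, z⟫_ℂ • u⟫_ℂ = 0 := by
    have h2 : ⟪z, u⟫_ℂ = conj ⟪u, z⟫_ℂ := (inner_conj_symm z u).symm
    rw [inner_smul_right, inner_sub_left, inner_smul_left, huu, h2]
    ring
  have h3 := norm_add_pow_two (𝕜 := ℂ) (z - ⟪u, z⟫_ℂ • u) (⟪u, z⟫_ℂ • u)
  rw [h1, sub_add_cancel] at h3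
  simp [norm_smul, hu] at h3
  linarith

/-- The distance of `z` to the complex line spanned by `(1, t)` from below. -/
theorem defect_ge {d : ℕ} (t : Fin d → ℂ) (z : EuclideanSpace ℂ (Fin (d+1))) (i : Fin d)
    (hti : ‖t i‖ ^ 2 ≤ 2) :
    ‖z i.succ - t i * z 0‖ ^ 2 / 3 ≤ ‖z‖ ^ 2 - ‖⟪uv t, z⟫_ℂ‖ ^ 2 := by
  set w : EuclideanSpace ℂ (Fin (d+1)) :=
    EuclideanSpace.single i.succ 1 - conj (t i) • EuclideanSpace.single (0 : Fin (d+1)) (1 : ℂ)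
    with hw
  have hinner : ∀ x : EuclideanSpace ℂ (Fin (d+1)), ⟪w, x⟫_ℂ = x i.succ - t i * x 0 := by
    intro x
    rw [hw, inner_sub_left, inner_smul_left, EuclideanSpace.inner_single_left,
      EuclideanSpace.inner_single_left]
    simp
  have hwvec : ⟪w, uv t⟫_ℂ = 0 := by
    rw [uv, inner_smul_right, hinner]
    simp [vec]
  have hwnorm : ‖w‖ ^ 2 ≤ 3 := by
    have h1 := hinner w
    rw [inner_self_eq_norm_sq_to_K] at h1
    have h2 : w i.succ = 1 := by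
      rw [hw]; simp
    have h3 : w 0 = - conj (t i) := by
      rw [hw]; simp [Fin.succ_ne_zero]
    rw [h2, h3] at h1
    have h4 : ((‖w‖ ^ 2 : ℝ) : ℂ) = ((1 + ‖t i‖ ^ 2 : ℝ) : ℂ) := by
      push_cast
      have h5 : t i * conj (t i) = ((‖t i‖ : ℝ) : ℂ) ^ 2 := Complex.mul_conj' (t i)
      have h1' : ((‖w‖ : ℝ) : ℂ) ^ 2 = 1 - t i * -conj (t i) := h1
      rw [h1', ← h5]
      ring
    have h5 : ‖w‖ ^ 2 = 1 + ‖t i‖ ^ 2 := by exact_mod_cast h4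
    linarith
  have h1 : ⟪w, z⟫_ℂ = ⟪w, z - ⟪uv t, z⟫_ℂ • uv t⟫_ℂ := by
    rw [inner_sub_right, inner_smul_right, hwvec, mul_zero, sub_zero]
  have h2 : ‖⟪w, z⟫_ℂ‖ ≤ ‖w‖ * ‖z - ⟪uv t, z⟫_ℂ • uv t‖ := by
    rw [h1]; exact norm_inner_le_norm _ _
  have h3 : ‖⟪w, z⟫_ℂ‖ ^ 2 ≤ ‖w‖ ^ 2 * ‖z - ⟪uv t, z⟫_ℂ • uv t‖ ^ 2 := by
    rw [← mul_pow]; exact pow_le_pow_left₀ (norm_nonneg _) h2 2
  rw [norm_sub_proj_sq (norm_uv t), hinner] at h3
  have h4 : 0 ≤ ‖z‖ ^ 2 - ‖⟪uv t, z⟫_ℂ‖ ^ 2 := by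
    rw [← norm_sub_proj_sq (norm_uv t)]; positivity
  nlinarith

/-- Radial lower bound. -/
theorem radial_ge {N : ℕ} (hN : 1 ≤ N) {E : Type*} [NormedAddCommGroup E] [InnerProductSpace ℂ E]
    {u z : E} (hu : ‖u‖ = 1) (hz : ‖z‖ ≤ 1 + 1 / (2 * N)) :
    1 / 2 + N * (‖z‖ ^ 2 - ‖⟪u, z⟫_ℂ‖ ^ 2) / 3 ≤ N * (1 + 1 / N - ‖⟪u, z⟫_ℂ‖) := by
  have hN' : (0 : ℝ) < N := by exact_mod_cast hN
  have h1 : ‖⟪u, z⟫_ℂ‖ ≤ ‖z‖ := by
    have := norm_inner_le_norm (𝕜 := ℂ) u z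
    rwa [hu, one_mul] at this
  have h2 : (1 : ℝ) / (2 * N) ≤ 1 / 2 := by
    apply one_div_le_one_div_of_le (by norm_num)
    have : (1 : ℝ) ≤ N := by exact_mod_cast hN
    linarith
  have h3 : (N : ℝ) * (1 + 1 / N - ‖z‖) ≥ 1 / 2 := by
    have : 1 + 1 / (N : ℝ) - ‖z‖ ≥ 1 / (2 * N) := by
      have e : (1 : ℝ) / N - 1 / (2 * N) = 1 / (2 * N) := by field_simp; ring
      linarith
    have := mul_le_mul_of_nonneg_left this hN'.le
    have e2 : (N : ℝ) * (1 / (2 * N)) = 1 / 2 := by field_simp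
    linarith
  have h4 : (‖z‖ ^ 2 - ‖⟪u, z⟫_ℂ‖ ^ 2) / 3 ≤ ‖z‖ - ‖⟪u, z⟫_ℂ‖ := by
    have h5 : 0 ≤ ‖z‖ - ‖⟪u, z⟫_ℂ‖ := by linarith
    have h6 : ‖z‖ + ‖⟪u, z⟫_ℂ‖ ≤ 3 := by linarith
    nlinarith
  have h5 := mul_le_mul_of_nonneg_left h4 hN'.le
  nlinarith

/-- The grid in `[0,1]^{2d}`. -/
noncomputable def tg {d : ℕ} (W : ℕ) (m : Fin d → Fin (W+1) × Fin (W+1)) : Fin d → ℂ :=
  fun i => ⟨(((m i).1 : ℕ) : ℝ) / W, (((m i).2 : ℕ) : ℝ) / W⟩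

theorem tg_norm {d W : ℕ} (hW : 1 ≤ W) (m : Fin d → Fin (W+1) × Fin (W+1)) (i : Fin d) :
    ‖tg W m i‖ ^ 2 ≤ 2 := by
  have hW' : (0 : ℝ) < W := by exact_mod_cast hW
  rw [← Complex.normSq_eq_norm_sq, Complex.normSq_apply]
  unfold tg
  simp only
  have h1 : (((m i).1 : ℕ) : ℝ) / W ≤ 1 := by
    rw [div_le_one hW']
    have := (m i).1.2
    have : ((m i).1 : ℕ) ≤ W := by omega
    exact_mod_cast this
  have h2 : (((m i).2 : ℕ) : ℝ) / W ≤ 1 := by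
    rw [div_le_one hW']
    have := (m i).2.2
    have : ((m i).2 : ℕ) ≤ W := by omega
    exact_mod_cast this
  have h3 : (0 : ℝ) ≤ (((m i).1 : ℕ) : ℝ) / W := by positivity
  have h4 : (0 : ℝ) ≤ (((m i).2 : ℕ) : ℝ) / W := by positivity
  nlinarith

/-- The net. -/
noncomputable def zeta {d : ℕ} (W L : ℕ) (p : (Fin d → Fin (W+1) × Fin (W+1)) × Fin (2 * L + 1)) :
    EuclideanSpace ℂ (Fin (d+1)) :=
  Complex.exp ((ang L p.2 : ℂ) * I) • uv (tg W p.1)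

theorem norm_zeta {d : ℕ} (W L : ℕ) (p : (Fin d → Fin (W+1) × Fin (W+1)) × Fin (2 * L + 1)) :
    ‖zeta W L p‖ = 1 := by
  rw [zeta, norm_smul, norm_uv, Complex.norm_exp_ofReal_mul_I, mul_one]

theorem inner_zeta {d : ℕ} (W L : ℕ) (p : (Fin d → Fin (W+1) × Fin (W+1)) × Fin (2 * L + 1))
    (z : EuclideanSpace ℂ (Fin (d+1))) :
    ⟪zeta W L p, z⟫_ℂ = Complex.exp (-(ang L p.2 : ℂ) * I) * ⟪uv (tg W p.1), z⟫_ℂ := by
  rw [zeta, inner_smul_left]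
  congr 1
  rw [← Complex.exp_conj]
  simp

theorem one_add_eq {N : ℕ} (hN : 1 ≤ N) (lam : ℂ) :
    ‖1 + (N : ℂ) * (1 - lam)‖ = N * ‖((1 + 1 / N : ℝ) : ℂ) - lam‖ := by
  have hN' : (N : ℂ) ≠ 0 := by
    have : N ≠ 0 := by omega
    exact_mod_cast this
  have e : 1 + (N : ℂ) * (1 - lam) = (N : ℂ) * (((1 + 1 / N : ℝ) : ℂ) - lam) := by
    push_cast
    field_simp
    ring
  rw [e, norm_mul, Complex.norm_natCast]

/-- One term of the sum is controlled by a product. -/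
theorem term_le {d N W L : ℕ} (hN : 1 ≤ N) (hW : 1 ≤ W) {κ : ℝ} (hκ : 0 < κ) (hκ1 : κ ≤ 1 / 2)
    (z : EuclideanSpace ℂ (Fin (d+1))) (hz : ‖z‖ ≤ 1 + 1 / (2 * N)) (hz0 : 0 < ‖z 0‖)
    (hκ2 : κ * (9 * (W : ℝ) ^ 2) ≤ N * ‖z 0‖ ^ 2)
    (p : (Fin d → Fin (W+1) × Fin (W+1)) × Fin (2 * L + 1)) :
    (‖1 + (N : ℂ) * (1 - ⟪zeta W L p, z⟫_ℂ)‖ ^ (2 * (d + 1)))⁻¹ ≤
      (((N : ℝ) * ‖((1 + 1 / N : ℝ) : ℂ) - Complex.exp (-(ang L p.2 : ℂ) * I) *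
        ⟪uv (tg W p.1), z⟫_ℂ‖) ^ 2)⁻¹ *
      ∏ i, ((κ ^ 2)⁻¹ * ((1 + ((((p.1 i).1 : ℕ) : ℝ) - W * (z i.succ / z 0).re) ^ 2)⁻¹ *
        (1 + ((((p.1 i).2 : ℕ) : ℝ) - W * (z i.succ / z 0).im) ^ 2)⁻¹)) := by
  have hN' : (0 : ℝ) < N := by exact_mod_cast hN
  have hW' : (0 : ℝ) < W := by exact_mod_cast hW
  rw [one_add_eq hN, inner_zeta]
  set lam : ℂ := ⟪uv (tg W p.1), z⟫_ℂ with hlam
  set X : ℝ := (N : ℝ) * ‖((1 + 1 / N : ℝ) : ℂ) - Complex.exp (-(ang L p.2 : ℂ) * I) * lam‖ with hX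
  have hX1 : 1 / 2 + N * (‖z‖ ^ 2 - ‖lam‖ ^ 2) / 3 ≤ X := by
    refine (radial_ge hN (norm_uv _) hz).trans ?_
    rw [hX]
    apply mul_le_mul_of_nonneg_left _ hN'.le
    have h1 := norm_sub_norm_le ((1 + 1 / N : ℝ) : ℂ) (Complex.exp (-(ang L p.2 : ℂ) * I) * lam)
    have h2 : ‖Complex.exp (-(ang L p.2 : ℂ) * I)‖ = 1 := by
      have : -(ang L p.2 : ℂ) * I = ((-ang L p.2 : ℝ) : ℂ) * I := by push_cast; ring
      rw [this, Complex.norm_exp_ofReal_mul_I]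
    rw [norm_mul, h2, one_mul, Complex.norm_real, Real.norm_eq_abs, abs_of_pos (by positivity)] at h1
    exact h1
  have hdef : 0 ≤ ‖z‖ ^ 2 - ‖lam‖ ^ 2 := by
    rw [hlam, ← norm_sub_proj_sq (norm_uv _)]; positivity
  have hX0 : 0 < X := by
    have : 0 ≤ N * (‖z‖ ^ 2 - ‖lam‖ ^ 2) / 3 := by positivity
    linarith
  -- each factor
  have hfac : ∀ i : Fin d, κ ^ 2 * ((1 + ((((p.1 i).1 : ℕ) : ℝ) - W * (z i.succ / z 0).re) ^ 2) *
      (1 + ((((p.1 i).2 : ℕ) : ℝ) - W * (z i.succ / z 0).im) ^ 2)) ≤ X ^ 2 := by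
    intro i
    set x : ℝ := (((p.1 i).1 : ℕ) : ℝ) - W * (z i.succ / z 0).re with hx
    set y : ℝ := (((p.1 i).2 : ℕ) : ℝ) - W * (z i.succ / z 0).im with hy
    have h1 := defect_ge (tg W p.1) z i (tg_norm hW p.1 i)
    have hz0' : z 0 ≠ 0 := norm_pos_iff.1 hz0
    have h2 : ‖z i.succ - tg W p.1 i * z 0‖ ^ 2 = ‖z 0‖ ^ 2 * ((x ^ 2 + y ^ 2) / (W : ℝ) ^ 2) := by
      have e1 : z i.succ - tg W p.1 i * z 0 = z 0 * (z i.succ / z 0 - tg W p.1 i) := by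
        field_simp
      rw [e1, norm_mul, mul_pow]
      congr 1
      rw [← Complex.normSq_eq_norm_sq, Complex.normSq_apply, Complex.sub_re, Complex.sub_im]
      have e2 : (tg W p.1 i).re = (((p.1 i).1 : ℕ) : ℝ) / W := rfl
      have e3 : (tg W p.1 i).im = (((p.1 i).2 : ℕ) : ℝ) / W := rfl
      rw [e2, e3, hx, hy]
      field_simp
      ring
    rw [h2] at h1
    have h3 : κ * (1 + x ^ 2 + y ^ 2) ≤ X := by
      have h4 : κ * (x ^ 2 + y ^ 2) ≤ N * (‖z 0‖ ^ 2 * ((x ^ 2 + y ^ 2) / (W : ℝ) ^ 2)) / 9 := by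
        have e4 : N * (‖z 0‖ ^ 2 * ((x ^ 2 + y ^ 2) / (W : ℝ) ^ 2)) / 9
            = (N * ‖z 0‖ ^ 2) * ((x ^ 2 + y ^ 2) / (9 * (W : ℝ) ^ 2)) := by
          field_simp
        rw [e4]
        have e5 : κ * (x ^ 2 + y ^ 2) = (κ * (9 * (W : ℝ) ^ 2)) * ((x ^ 2 + y ^ 2) / (9 * (W : ℝ) ^ 2)) := by
          field_simp
        rw [e5]
        exact mul_le_mul_of_nonneg_right hκ2 (by positivity)
      have h5 : N * (‖z 0‖ ^ 2 * ((x ^ 2 + y ^ 2) / (W : ℝ) ^ 2)) / 9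
          ≤ N * (‖z‖ ^ 2 - ‖lam‖ ^ 2) / 3 := by
        have := mul_le_mul_of_nonneg_left h1 hN'.le
        linarith
      linarith
    have h6 : (κ * (1 + x ^ 2 + y ^ 2)) ^ 2 ≤ X ^ 2 := pow_le_pow_left₀ (by positivity) h3 2
    have h7 : κ ^ 2 * ((1 + x ^ 2) * (1 + y ^ 2)) ≤ (κ * (1 + x ^ 2 + y ^ 2)) ^ 2 := by
      rw [mul_pow]
      apply mul_le_mul_of_nonneg_left _ (by positivity)
      nlinarith [sq_nonneg x, sq_nonneg y, mul_nonneg (sq_nonneg x) (sq_nonneg y)]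
    linarith
  have hprod : (∏ i : Fin d, κ ^ 2 * ((1 + ((((p.1 i).1 : ℕ) : ℝ) - W * (z i.succ / z 0).re) ^ 2) *
      (1 + ((((p.1 i).2 : ℕ) : ℝ) - W * (z i.succ / z 0).im) ^ 2))) ≤ (X ^ 2) ^ d := by
    calc _ ≤ ∏ _i : Fin d, X ^ 2 := by
          apply Finset.prod_le_prod
          · intro i _; positivity
          · intro i _; exact hfac i
      _ = (X ^ 2) ^ d := by simp
  have hprodpos : 0 < (∏ i : Fin d, κ ^ 2 * ((1 + ((((p.1 i).1 : ℕ) : ℝ) - W * (z i.succ / z 0).re) ^ 2) *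
      (1 + ((((p.1 i).2 : ℕ) : ℝ) - W * (z i.succ / z 0).im) ^ 2))) := by
    apply Finset.prod_pos; intro i _; positivity
  have e6 : X ^ (2 * (d + 1)) = X ^ 2 * (X ^ 2) ^ d := by
    rw [← pow_mul]; ring
  rw [e6, mul_inv]
  apply mul_le_mul_of_nonneg_left _ (by positivity)
  calc ((X ^ 2) ^ d)⁻¹ ≤ (∏ i : Fin d, κ ^ 2 * ((1 + ((((p.1 i).1 : ℕ) : ℝ) - W * (z i.succ / z 0).re) ^ 2) *
      (1 + ((((p.1 i).2 : ℕ) : ℝ) - W * (z i.succ / z 0).im) ^ 2)))⁻¹ := inv_anti₀ hprodpos hprod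
    _ = _ := by
        rw [← Finset.prod_inv_distrib]
        apply Finset.prod_congr rfl
        intro i _
        rw [mul_inv, mul_inv]

/-- The sum bound when `z 0` is not small. -/
theorem sum_le_A {d N W L : ℕ} (hN : 1 ≤ N) (hW : 1 ≤ W) (hL : 1 ≤ L) {κ : ℝ} (hκ : 0 < κ)
    (hκ1 : κ ≤ 1 / 2)
    (z : EuclideanSpace ℂ (Fin (d+1))) (hz : ‖z‖ ≤ 1 + 1 / (2 * N)) (hz0 : 0 < ‖z 0‖)
    (hκ2 : κ * (9 * (W : ℝ) ^ 2) ≤ N * ‖z 0‖ ^ 2) :
    ∑ p : (Fin d → Fin (W+1) × Fin (W+1)) × Fin (2 * L + 1),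
      (‖1 + (N : ℂ) * (1 - ⟪zeta W L p, z⟫_ℂ)‖ ^ (2 * (d + 1)))⁻¹ ≤
      (20 / min (1 / 4) (((N : ℝ) / (24 * L)) ^ 2)) * ((κ ^ 2)⁻¹ * 100) ^ d := by
  set Cθ : ℝ := 20 / min (1 / 4) (((N : ℝ) / (24 * L)) ^ 2) with hCθ
  have hN' : (0 : ℝ) < N := by exact_mod_cast hN
  have hL' : (0 : ℝ) < L := by exact_mod_cast hL
  have hCθ0 : 0 < Cθ := by
    apply div_pos (by norm_num)
    apply lt_min (by norm_num) (by positivity)
  set G : (Fin d → Fin (W+1) × Fin (W+1)) → ℝ := fun m =>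
    ∏ i, ((κ ^ 2)⁻¹ * ((1 + ((((m i).1 : ℕ) : ℝ) - W * (z i.succ / z 0).re) ^ 2)⁻¹ *
        (1 + ((((m i).2 : ℕ) : ℝ) - W * (z i.succ / z 0).im) ^ 2)⁻¹)) with hG
  have hG0 : ∀ m, 0 ≤ G m := by
    intro m; apply Finset.prod_nonneg; intro i _; positivity
  rw [Fintype.sum_prod_type]
  calc _ ≤ ∑ m : Fin d → Fin (W+1) × Fin (W+1), ∑ l : Fin (2 * L + 1),
        (((N : ℝ) * ‖((1 + 1 / N : ℝ) : ℂ) - Complex.exp (-(ang L l : ℂ) * I) *
        ⟪uv (tg W m), z⟫_ℂ‖) ^ 2)⁻¹ * G m := by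
        apply Finset.sum_le_sum
        intro m _
        apply Finset.sum_le_sum
        intro l _
        exact term_le (L := L) hN hW hκ hκ1 z hz hz0 hκ2 (m, l)
    _ = ∑ m : Fin d → Fin (W+1) × Fin (W+1), (∑ l : Fin (2 * L + 1),
        (((N : ℝ) * ‖((1 + 1 / N : ℝ) : ℂ) - Complex.exp (-(ang L l : ℂ) * I) *
        ⟪uv (tg W m), z⟫_ℂ‖) ^ 2)⁻¹) * G m := by
        apply Finset.sum_congr rfl
        intro m _
        rw [Finset.sum_mul]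
    _ ≤ ∑ m : Fin d → Fin (W+1) × Fin (W+1), Cθ * G m := by
        apply Finset.sum_le_sum
        intro m _
        apply mul_le_mul_of_nonneg_right _ (hG0 m)
        apply angular_sum hN hL
        have := norm_inner_le_norm (𝕜 := ℂ) (uv (tg W m)) z
        rw [norm_uv, one_mul] at this
        linarith
    _ = Cθ * ∑ m : Fin d → Fin (W+1) × Fin (W+1), G m := by rw [Finset.mul_sum]
    _ ≤ Cθ * ((κ ^ 2)⁻¹ * 100) ^ d := by
        apply mul_le_mul_of_nonneg_left _ hCθ0.le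
        have h1 : ∑ m : Fin d → Fin (W+1) × Fin (W+1), G m =
            ∏ i : Fin d, ∑ j : Fin (W+1) × Fin (W+1),
            ((κ ^ 2)⁻¹ * ((1 + (((j.1 : ℕ) : ℝ) - W * (z i.succ / z 0).re) ^ 2)⁻¹ *
            (1 + (((j.2 : ℕ) : ℝ) - W * (z i.succ / z 0).im) ^ 2)⁻¹)) := by
          rw [Finset.prod_univ_sum, Fintype.piFinset_univ]
        rw [h1]
        calc _ ≤ ∏ _i : Fin d, ((κ ^ 2)⁻¹ * 100) := by
              apply Finset.prod_le_prod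
              · intro i _
                apply Finset.sum_nonneg
                intro j _
                positivity
              · intro i _
                rw [← Finset.mul_sum, Fintype.sum_prod_type]
                apply mul_le_mul_of_nonneg_left _ (by positivity)
                simp only
                have e1 : ∀ j1 : Fin (W+1), ∑ j2 : Fin (W+1),
                    ((1 + (((j1 : ℕ) : ℝ) - W * (z i.succ / z 0).re) ^ 2)⁻¹ *
                    (1 + (((j2 : ℕ) : ℝ) - W * (z i.succ / z 0).im) ^ 2)⁻¹)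
                    ≤ (1 + (((j1 : ℕ) : ℝ) - W * (z i.succ / z 0).re) ^ 2)⁻¹ * 10 := by
                  intro j1
                  rw [← Finset.mul_sum]
                  apply mul_le_mul_of_nonneg_left _ (by positivity)
                  exact sum_fin_inv_one_add_sq _ _
                calc _ ≤ ∑ j1 : Fin (W+1), (1 + (((j1 : ℕ) : ℝ) - W * (z i.succ / z 0).re) ^ 2)⁻¹ * 10 :=
                      Finset.sum_le_sum fun j1 _ => e1 j1
                  _ = (∑ j1 : Fin (W+1), (1 + (((j1 : ℕ) : ℝ) - W * (z i.succ / z 0).re) ^ 2)⁻¹) * 10 := by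
                      rw [Finset.sum_mul]
                  _ ≤ 10 * 10 := by
                      apply mul_le_mul_of_nonneg_right _ (by norm_num)
                      exact sum_fin_inv_one_add_sq _ _
                  _ = 100 := by norm_num
          _ = ((κ ^ 2)⁻¹ * 100) ^ d := by simp

/-- The sum bound when `z 0` is small. -/
theorem sum_le_B {d N W L : ℕ} (hN : 1 ≤ N) (hW : 1 ≤ W)
    (z : EuclideanSpace ℂ (Fin (d+1))) (hz : ‖z‖ ≤ 1 + 1 / (2 * N))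
    (hz0 : ‖z 0‖ ≤ 1 / (4 * (2 * d + 1))) :
    ∑ p : (Fin d → Fin (W+1) × Fin (W+1)) × Fin (2 * L + 1),
      (‖1 + (N : ℂ) * (1 - ⟪zeta W L p, z⟫_ℂ)‖ ^ (2 * (d + 1)))⁻¹ ≤
      (((W : ℝ) + 1) ^ 2) ^ d * (2 * L + 1) * ((4 * (2 * d + 1) / N) ^ (2 * (d + 1))) := by
  have hN' : (0 : ℝ) < N := by exact_mod_cast hN
  have hterm : ∀ p : (Fin d → Fin (W+1) × Fin (W+1)) × Fin (2 * L + 1),
      (‖1 + (N : ℂ) * (1 - ⟪zeta W L p, z⟫_ℂ)‖ ^ (2 * (d + 1)))⁻¹ ≤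
        ((4 * (2 * d + 1) / N) ^ (2 * (d + 1))) := by
    intro p
    rw [one_add_eq hN, inner_zeta]
    set t := tg W p.1 with ht
    have ht2 : ∑ i, ‖t i‖ ^ 2 ≤ 2 * d := by
      calc ∑ i, ‖t i‖ ^ 2 ≤ ∑ _i : Fin d, (2 : ℝ) := Finset.sum_le_sum fun i _ => tg_norm hW p.1 i
        _ = 2 * d := by simp; ring
    set lam : ℂ := ⟪uv t, z⟫_ℂ with hlam
    have hv := norm_vec_sq t
    have hv1 := norm_vec_pos t
    have hv0 : 0 < ‖vec t‖ := by linarith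
    -- the norm of lam
    set S : ℝ := ∑ i, ‖t i‖ ^ 2 with hS
    have hS0 : 0 ≤ S := Finset.sum_nonneg fun i _ => by positivity
    have hlam1 : ‖vec t‖ * ‖lam‖ ≤ ‖z 0‖ + Real.sqrt S * ‖z‖ := by
      have e1 : (‖vec t‖ : ℂ) * lam = ⟪vec t, z⟫_ℂ := by
        conv_rhs => rw [vec_eq t, inner_smul_left]
        simp [hlam]
      have e2 : ‖vec t‖ * ‖lam‖ = ‖⟪vec t, z⟫_ℂ‖ := by
        rw [← e1, norm_mul, Complex.norm_real, Real.norm_eq_abs, abs_of_pos hv0]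
      rw [e2, inner_vec]
      set t' : EuclideanSpace ℂ (Fin (d+1)) := WithLp.toLp 2 (Fin.cons 0 t : Fin (d+1) → ℂ) with ht'
      have e3 : ∑ i, conj (t i) * z i.succ = ⟪t', z⟫_ℂ := by
        rw [PiLp.inner_apply, Fin.sum_univ_succ]
        simp [ht', mul_comm]
      have e4 : ‖t'‖ = Real.sqrt S := by
        rw [EuclideanSpace.norm_eq, Fin.sum_univ_succ]
        simp [ht', hS]
      calc ‖z 0 + ∑ i, conj (t i) * z i.succ‖ ≤ ‖z 0‖ + ‖∑ i, conj (t i) * z i.succ‖ := norm_add_le _ _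
        _ ≤ ‖z 0‖ + ‖t'‖ * ‖z‖ := by
            rw [e3]
            have := norm_inner_le_norm (𝕜 := ℂ) t' z
            linarith
        _ = _ := by rw [e4]
    -- sqrt S ≤ (1 - 1/(2(2d+1))) ‖vec t‖
    have hd0 : (0 : ℝ) < 2 * d + 1 := by positivity
    have hsq : Real.sqrt S ≤ (1 - 1 / (2 * (2 * d + 1))) * ‖vec t‖ := by
      have hnn : 0 ≤ (1 - 1 / (2 * (2 * d + 1) : ℝ)) := by
        have : 1 / (2 * (2 * d + 1) : ℝ) ≤ 1 := by
          rw [div_le_one (by positivity)]; 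
          have : (0 : ℝ) ≤ d := by positivity
          linarith
        linarith
      rw [Real.sqrt_le_left (by positivity), mul_pow, hv]
      have h1 : (1 - 1 / (2 * (2 * d + 1) : ℝ)) ^ 2 ≥ 1 - 1 / (2 * d + 1) := by
        have : (1 - 1 / (2 * (2 * d + 1) : ℝ)) ^ 2 = 1 - 1 / (2 * d + 1) + (1 / (2 * (2 * d + 1))) ^ 2 := by
          field_simp; ring
        rw [this]
        have : 0 ≤ (1 / (2 * (2 * d + 1) : ℝ)) ^ 2 := by positivity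
        linarith
      have h2 : S ≤ (1 - 1 / (2 * d + 1 : ℝ)) * (1 + S) := by
        have : (1 - 1 / (2 * d + 1 : ℝ)) * (1 + S) - S = (2 * d - S) / (2 * d + 1) := by
          field_simp; ring
        have h3 : 0 ≤ (2 * d - S) / (2 * d + 1 : ℝ) := by
          apply div_nonneg _ hd0.le; linarith
        linarith
      calc S ≤ (1 - 1 / (2 * d + 1 : ℝ)) * (1 + S) := h2
        _ ≤ (1 - 1 / (2 * (2 * d + 1) : ℝ)) ^ 2 * (1 + S) := by
            apply mul_le_mul_of_nonneg_right h1 (by positivity)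
    have hlam2 : ‖lam‖ ≤ 1 / (4 * (2 * d + 1)) + (1 - 1 / (2 * (2 * d + 1))) * ‖z‖ := by
      have h1 : ‖vec t‖ * ‖lam‖ ≤ ‖vec t‖ * (1 / (4 * (2 * d + 1)) + (1 - 1 / (2 * (2 * d + 1))) * ‖z‖) := by
        calc ‖vec t‖ * ‖lam‖ ≤ ‖z 0‖ + Real.sqrt S * ‖z‖ := hlam1
          _ ≤ 1 / (4 * (2 * d + 1)) + ((1 - 1 / (2 * (2 * d + 1))) * ‖vec t‖) * ‖z‖ := by
              apply add_le_add hz0
              exact mul_le_mul_of_nonneg_right hsq (norm_nonneg _)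
          _ ≤ ‖vec t‖ * (1 / (4 * (2 * d + 1))) + ((1 - 1 / (2 * (2 * d + 1))) * ‖vec t‖) * ‖z‖ := by
              have : (0 : ℝ) ≤ 1 / (4 * (2 * d + 1)) := by positivity
              nlinarith
          _ = _ := by ring
      exact le_of_mul_le_mul_left h1 hv0
    have hfin : 1 / (4 * (2 * d + 1)) ≤ 1 + 1 / (N : ℝ) - ‖lam‖ := by
      have hc : (0 : ℝ) < 1 / (2 * (2 * d + 1)) := by positivity
      have hc1 : 1 / (2 * (2 * d + 1) : ℝ) ≤ 1 / 2 := by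
        apply one_div_le_one_div_of_le (by norm_num)
        have : (0 : ℝ) ≤ d := by positivity
        linarith
      have h1 : (1 - 1 / (2 * (2 * d + 1) : ℝ)) * ‖z‖ ≤ (1 - 1 / (2 * (2 * d + 1) : ℝ)) * (1 + 1 / (2 * N)) := by
        apply mul_le_mul_of_nonneg_left hz; linarith
      have h2 : (1 - 1 / (2 * (2 * d + 1) : ℝ)) * (1 + 1 / (2 * N)) ≤ (1 - 1 / (2 * (2 * d + 1) : ℝ)) + 1 / (2 * N) := by
        have : (0 : ℝ) ≤ 1 / (2 * N) := by positivity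
        nlinarith
      have h3 : 1 / (2 * (N : ℝ)) ≤ 1 / N := by
        apply one_div_le_one_div_of_le hN'; linarith
      have h4 : 1 / (2 * (2 * d + 1) : ℝ) = 1 / (4 * (2 * d + 1)) + 1 / (4 * (2 * d + 1)) := by
        field_simp; ring
      linarith
    have hX : N / (4 * (2 * d + 1)) ≤ N * ‖((1 + 1 / N : ℝ) : ℂ) - Complex.exp (-(ang L p.2 : ℂ) * I) * lam‖ := by
      have h1 := norm_sub_norm_le ((1 + 1 / N : ℝ) : ℂ) (Complex.exp (-(ang L p.2 : ℂ) * I) * lam)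
      have h2 : ‖Complex.exp (-(ang L p.2 : ℂ) * I)‖ = 1 := by
        have : -(ang L p.2 : ℂ) * I = ((-ang L p.2 : ℝ) : ℂ) * I := by push_cast; ring
        rw [this, Complex.norm_exp_ofReal_mul_I]
      rw [norm_mul, h2, one_mul, Complex.norm_real, Real.norm_eq_abs, abs_of_pos (by positivity)] at h1
      have h3 : 1 / (4 * (2 * d + 1)) ≤ ‖((1 + 1 / N : ℝ) : ℂ) - Complex.exp (-(ang L p.2 : ℂ) * I) * lam‖ := by
        linarith
      calc N / (4 * (2 * d + 1)) = N * (1 / (4 * (2 * d + 1) : ℝ)) := by ring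
        _ ≤ _ := mul_le_mul_of_nonneg_left h3 hN'.le
    have hX2 : 0 < (N : ℝ) / (4 * (2 * d + 1)) := by positivity
    calc _ ≤ (((N : ℝ) / (4 * (2 * d + 1))) ^ (2 * (d + 1)))⁻¹ := by
          apply inv_anti₀ (by positivity)
          exact pow_le_pow_left₀ hX2.le hX _
      _ = ((4 * (2 * d + 1) / N) ^ (2 * (d + 1))) := by
          rw [← inv_pow, inv_div]
  calc _ ≤ ∑ _p : (Fin d → Fin (W+1) × Fin (W+1)) × Fin (2 * L + 1),
        ((4 * (2 * d + 1) / N : ℝ) ^ (2 * (d + 1))) := Finset.sum_le_sum fun p _ => hterm p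
    _ = (((W : ℝ) + 1) ^ 2) ^ d * (2 * L + 1) * ((4 * (2 * d + 1) / N) ^ (2 * (d + 1))) := by
        rw [Finset.sum_const, Finset.card_univ, Fintype.card_prod, Fintype.card_fun, Fintype.card_prod]
        simp only [Fintype.card_fin, nsmul_eq_mul]
        push_cast
        ring

end Pool.Agent.MPdb50ff
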