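import Mathlib
import Pool.Agent.Lib.MP_db50ff_an.NetB

set_option autoImplicit false

namespace Pool.Agent.MPdb50ff

open MeasureTheory Metric Complex Real

open scoped InnerProductSpace ComplexConjugate

/-- Radial projection to the unit sphere of `ℂⁿ` with the Euclidean norm. -/
noncomputable def nz {n : ℕ} (w : Fin n → ℂ) : EuclideanSpace ℂ (Fin n) :=
  ((‖(WithLp.toLp 2 w : EuclideanSpace ℂ (Fin n))‖ : ℂ)⁻¹) • WithLp.toLp 2 w

/-- An open region in the unit ball on which the peaks live. -/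
def region (d : ℕ) : Set (Fin (d+1) → ℂ) :=
  {w | 0 < (w 0).re ∧ 0 < (w 0).im ∧ 4 * (w 0).im < (w 0).re ∧
    (∀ i : Fin d, 0 < (w i.succ * conj (w 0)).re ∧ (w i.succ * conj (w 0)).re < normSq (w 0) ∧
      0 < (w i.succ * conj (w 0)).im ∧ (w i.succ * conj (w 0)).im < normSq (w 0)) ∧
    ‖(WithLp.toLp 2 w : EuclideanSpace ℂ (Fin (d+1)))‖ < 1}

theorem isOpen_region (d : ℕ) : IsOpen (region d) := by
  have h0 : Continuous fun w : Fin (d+1) → ℂ => w 0 := continuous_apply 0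
  have hs : ∀ i : Fin d, Continuous fun w : Fin (d+1) → ℂ => w i.succ * conj (w 0) := by
    intro i
    exact (continuous_apply i.succ).mul (Complex.continuous_conj.comp h0)
  have hn : Continuous fun w : Fin (d+1) → ℂ => normSq (w 0) := Complex.continuous_normSq.comp h0
  have hN : Continuous fun w : Fin (d+1) → ℂ =>
      ‖(WithLp.toLp 2 w : EuclideanSpace ℂ (Fin (d+1)))‖ := by
    exact continuous_norm.comp (PiLp.continuous_toLp 2 _)
  have e : region d = {w | 0 < (w 0).re} ∩ ({w | 0 < (w 0).im} ∩ ({w | 4 * (w 0).im < (w 0).re} ∩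
      ((⋂ i : Fin d, ({w | 0 < (w i.succ * conj (w 0)).re} ∩
        ({w | (w i.succ * conj (w 0)).re < normSq (w 0)} ∩
        ({w | 0 < (w i.succ * conj (w 0)).im} ∩
        {w | (w i.succ * conj (w 0)).im < normSq (w 0)})))) ∩
      {w | ‖(WithLp.toLp 2 w : EuclideanSpace ℂ (Fin (d+1)))‖ < 1}))) := by
    ext w
    simp only [region, Set.mem_ofPred_eq, Set.mem_inter_iff, Set.mem_iInter]
  rw [e]
  refine (isOpen_lt continuous_const (Complex.continuous_re.comp h0)).inter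
    ((isOpen_lt continuous_const (Complex.continuous_im.comp h0)).inter
    ((isOpen_lt (continuous_const.mul (Complex.continuous_im.comp h0))
      (Complex.continuous_re.comp h0)).inter
    ((isOpen_iInter_of_finite fun i => ?_).inter (isOpen_lt hN continuous_const))))
  exact (isOpen_lt continuous_const (Complex.continuous_re.comp (hs i))).inter
    ((isOpen_lt (Complex.continuous_re.comp (hs i)) hn).inter
    ((isOpen_lt continuous_const (Complex.continuous_im.comp (hs i))).inter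
    (isOpen_lt (Complex.continuous_im.comp (hs i)) hn)))

theorem region_nonempty (d : ℕ) : (region d).Nonempty := by
  -- direction
  set t : Fin d → ℂ := fun _ => ⟨1 / 2, 1 / 2⟩ with ht
  set w₀ : ℂ := ⟨1, 1 / 8⟩ with hw₀
  set v : EuclideanSpace ℂ (Fin (d+1)) := w₀ • vec t with hv
  set ε : ℝ := 1 / (2 * (‖v‖ + 1)) with hε
  have hε0 : 0 < ε := by positivity
  refine ⟨fun i => (ε : ℂ) * v i, ?_, ?_, ?_, ?_, ?_⟩
  · simp only [hv, vec, PiLp.smul_apply, Fin.cons_zero, smul_eq_mul, mul_one, hw₀]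
    simp [hε0]
  · simp only [hv, vec, PiLp.smul_apply, Fin.cons_zero, smul_eq_mul, mul_one, hw₀]
    simp [hε0]
  · simp only [hv, vec, PiLp.smul_apply, Fin.cons_zero, smul_eq_mul, mul_one, hw₀]
    simp
    linarith
  · intro i
    simp only [hv, vec, PiLp.smul_apply, Fin.cons_zero, Fin.cons_succ, smul_eq_mul, mul_one, hw₀, ht]
    simp only [map_mul, Complex.conj_ofReal, Complex.normSq_apply, Complex.mul_re, Complex.mul_im,
      Complex.ofReal_re, Complex.ofReal_im, Complex.conj_re, Complex.conj_im]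
    have h2 : 0 < ε ^ 2 := by positivity
    refine ⟨?_, ?_, ?_, ?_⟩ <;> nlinarith
  · have e : (WithLp.toLp 2 (fun i => (ε : ℂ) * v i) : EuclideanSpace ℂ (Fin (d+1))) = (ε : ℂ) • v := by
      ext i; simp
    rw [e, norm_smul, Complex.norm_real, Real.norm_eq_abs, abs_of_pos hε0, hε]
    have h1 : 0 ≤ ‖v‖ := norm_nonneg v
    rw [div_mul_eq_mul_div, one_mul, div_lt_one (by positivity)]
    linarith

theorem region_measure_pos (d : ℕ) : 0 < volume (region d) :=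
  (isOpen_region d).measure_pos volume (region_nonempty d)

theorem norm_nz {n : ℕ} {w : Fin n → ℂ} (hw : w ≠ 0) : ‖nz w‖ = 1 := by
  have h : (WithLp.toLp 2 w : EuclideanSpace ℂ (Fin n)) ≠ 0 := by
    intro h
    apply hw
    have := congrArg (fun x : EuclideanSpace ℂ (Fin n) => WithLp.ofLp x) h
    simpa using this
  have h' : 0 < ‖(WithLp.toLp 2 w : EuclideanSpace ℂ (Fin n))‖ := norm_pos_iff.2 h
  rw [nz, norm_smul, norm_inv, Complex.norm_real, Real.norm_eq_abs, abs_of_pos h',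
    inv_mul_cancel₀ h'.ne']

/-- Structure of the points of the region. -/
theorem region_struct {d : ℕ} {w : Fin (d+1) → ℂ} (hw : w ∈ region d) :
    ∃ t : Fin d → ℂ, (∀ i, 0 < (t i).re ∧ (t i).re < 1 ∧ 0 < (t i).im ∧ (t i).im < 1) ∧
      w 0 ≠ 0 ∧ nz w = (w 0 / (‖w 0‖ : ℂ)) • uv t := by
  obtain ⟨h1, h2, h3, h4, h5⟩ := hw
  have hw0 : w 0 ≠ 0 := by
    intro h; rw [h] at h1; simp at h1
  have hns : 0 < normSq (w 0) := Complex.normSq_pos.2 hw0
  refine ⟨fun i => w i.succ / w 0, ?_, hw0, ?_⟩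
  · intro i
    obtain ⟨a1, a2, a3, a4⟩ := h4 i
    have e : w i.succ / w 0 = (w i.succ * conj (w 0)) * (((normSq (w 0))⁻¹ : ℝ) : ℂ) := by
      rw [div_eq_mul_inv, Complex.inv_def, mul_assoc]
    simp only
    rw [e, Complex.re_mul_ofReal, Complex.im_mul_ofReal]
    refine ⟨by positivity, ?_, by positivity, ?_⟩
    · rw [← div_eq_mul_inv, div_lt_one hns]; exact a2
    · rw [← div_eq_mul_inv, div_lt_one hns]; exact a4
  · have e : (WithLp.toLp 2 w : EuclideanSpace ℂ (Fin (d+1))) = w 0 • vec (fun i => w i.succ / w 0) := by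
      ext i
      refine Fin.cases ?_ (fun j => ?_) i
      · simp [vec]
      · simp [vec]
        field_simp
    have hn : ((‖w 0‖ : ℝ) : ℂ) ≠ 0 := by
      have : ‖w 0‖ ≠ 0 := norm_ne_zero_iff.2 hw0
      exact_mod_cast this
    rw [nz, e, norm_smul, uv, smul_smul, smul_smul]
    congr 1
    push_cast
    rw [mul_inv]
    field_simp

theorem covering {d W L : ℕ} (hW : 8 * d + 1 ≤ W) (hL : 1 ≤ L)
    {w : Fin (d+1) → ℂ} (hw : w ∈ region d) :
    ∃ p : (Fin d → Fin (W+1) × Fin (W+1)) × Fin (2 * L + 1),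
      ‖1 - ⟪zeta W L p, nz w⟫_ℂ‖ ≤ d / (W : ℝ) ^ 2 + 2 / L := by
  have hL' : (0 : ℝ) < L := by exact_mod_cast hL
  have hW' : (0 : ℝ) < W := by
    have : 0 < W := by omega
    exact_mod_cast this
  have hWd : 8 * (d : ℝ) + 1 ≤ W := by exact_mod_cast hW
  obtain ⟨t, ht, hw0, hnz⟩ := region_struct hw
  obtain ⟨r1, r2, r3, -, -⟩ := hw
  -- choose the grid point
  have hfl : ∀ x : ℝ, 0 < x → x < 1 → ∃ k : Fin (W+1), |x - ((k : ℕ) : ℝ) / W| ≤ 1 / W ∧ 0 ≤ ((k : ℕ) : ℝ) / W ∧ ((k : ℕ) : ℝ) / W ≤ 1 := by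
    intro x hx0 hx1
    have h0 : 0 ≤ W * x := by positivity
    have h1 : ⌊(W : ℝ) * x⌋₊ < W + 1 := by
      have : ((⌊(W : ℝ) * x⌋₊ : ℕ) : ℝ) ≤ W * x := Nat.floor_le h0
      have h2 : (W : ℝ) * x < W := by nlinarith
      have h3 : ((⌊(W : ℝ) * x⌋₊ : ℕ) : ℝ) < W := by linarith
      have h4 : ⌊(W : ℝ) * x⌋₊ < W := by exact_mod_cast h3
      omega
    refine ⟨⟨⌊(W : ℝ) * x⌋₊, h1⟩, ?_, by positivity, ?_⟩
    · simp only
      have h2 : ((⌊(W : ℝ) * x⌋₊ : ℕ) : ℝ) ≤ W * x := Nat.floor_le h0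
      have h3 : (W : ℝ) * x < ⌊(W : ℝ) * x⌋₊ + 1 := Nat.lt_floor_add_one _
      rw [abs_le]
      constructor
      · have : ((⌊(W : ℝ) * x⌋₊ : ℕ) : ℝ) / W ≤ x := by
          rw [div_le_iff₀ hW']; linarith
        have h4 : (0 : ℝ) < 1 / W := by positivity
        linarith
      · have : x ≤ (((⌊(W : ℝ) * x⌋₊ : ℕ) : ℝ) + 1) / W := by
          rw [le_div_iff₀ hW']; linarith
        rw [add_div] at this
        linarith
    · simp only
      rw [div_le_one hW']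
      have : ((⌊(W : ℝ) * x⌋₊ : ℕ) : ℝ) ≤ W * x := Nat.floor_le h0
      nlinarith
  have hch : ∀ i : Fin d, ∃ k : Fin (W+1) × Fin (W+1),
      |(t i).re - ((k.1 : ℕ) : ℝ) / W| ≤ 1 / W ∧ 0 ≤ ((k.1 : ℕ) : ℝ) / W ∧ ((k.1 : ℕ) : ℝ) / W ≤ 1 ∧
      |(t i).im - ((k.2 : ℕ) : ℝ) / W| ≤ 1 / W ∧ 0 ≤ ((k.2 : ℕ) : ℝ) / W ∧ ((k.2 : ℕ) : ℝ) / W ≤ 1 := by
    intro i
    obtain ⟨a1, a2, a3, a4⟩ := ht i
    obtain ⟨k1, b1, b2, b3⟩ := hfl _ a1 a2
    obtain ⟨k2, c1, c2, c3⟩ := hfl _ a3 a4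
    exact ⟨(k1, k2), b1, b2, b3, c1, c2, c3⟩
  choose m hm using hch
  set s : Fin d → ℂ := tg W m with hs
  have hsre : ∀ i, (s i).re = (((m i).1 : ℕ) : ℝ) / W := fun i => rfl
  have hsim : ∀ i, (s i).im = (((m i).2 : ℕ) : ℝ) / W := fun i => rfl
  -- inner product of vec s and vec t
  set v : ℂ := ⟪vec s, vec t⟫_ℂ with hv
  have hvexp : v = 1 + ∑ i, conj (s i) * t i := by
    rw [hv, inner_vec]
    simp [vec]
  have hvre : 1 ≤ v.re := by
    rw [hvexp, Complex.add_re, Complex.re_sum]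
    have : 0 ≤ ∑ i, (conj (s i) * t i).re := by
      apply Finset.sum_nonneg
      intro i _
      obtain ⟨a1, a2, a3, a4⟩ := ht i
      obtain ⟨b1, b2, b3, b4, b5, b6⟩ := hm i
      rw [Complex.mul_re, Complex.conj_re, Complex.conj_im, hsre, hsim]
      nlinarith [mul_nonneg b2 a1.le, mul_nonneg b5 a3.le]
    simp only [Complex.one_re]
    linarith
  have hvim : |v.im| ≤ v.re / 4 := by
    have h1 : |v.im| ≤ ∑ _i : Fin d, 2 / (W : ℝ) := by
      rw [hvexp, Complex.add_im, Complex.im_sum]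
      simp only [Complex.one_im, zero_add]
      refine (Finset.abs_sum_le_sum_abs _ _).trans (Finset.sum_le_sum fun i _ => ?_)
      obtain ⟨a1, a2, a3, a4⟩ := ht i
      obtain ⟨b1, b2, b3, b4, b5, b6⟩ := hm i
      rw [Complex.mul_im, Complex.conj_re, Complex.conj_im, hsre, hsim]
      set X : ℝ := (((m i).1 : ℕ) : ℝ) / W
      set Y : ℝ := (((m i).2 : ℕ) : ℝ) / W
      have e : X * (t i).im + -Y * (t i).re = X * ((t i).im - Y) - Y * ((t i).re - X) := by ring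
      rw [e]
      calc |X * ((t i).im - Y) - Y * ((t i).re - X)| ≤ |X * ((t i).im - Y)| + |Y * ((t i).re - X)| :=
            abs_sub _ _
        _ = X * |(t i).im - Y| + Y * |(t i).re - X| := by
            rw [abs_mul, abs_mul, abs_of_nonneg b2, abs_of_nonneg b5]
        _ ≤ 1 * (1 / W) + 1 * (1 / W) := by
            apply add_le_add
            · apply mul_le_mul b3 b4 (abs_nonneg _) (by norm_num)
            · apply mul_le_mul b6 b1 (abs_nonneg _) (by norm_num)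
        _ = 2 / W := by ring
    have h2 : ∑ _i : Fin d, 2 / (W : ℝ) = 2 * d / W := by
      simp; ring
    have h3 : 2 * (d : ℝ) / W ≤ 1 / 4 := by
      rw [div_le_iff₀ hW']; linarith
    linarith
  -- the inner product with nz w
  set u : ℂ := ⟪uv s, nz w⟫_ℂ with hu
  have hvs := norm_vec_pos s
  have hvt := norm_vec_pos t
  have hw0' : 0 < ‖w 0‖ := norm_pos_iff.2 hw0
  have hpos : 0 < (‖w 0‖ * ‖vec s‖ * ‖vec t‖)⁻¹ := by positivity
  have hueq : u = (((‖w 0‖ * ‖vec s‖ * ‖vec t‖)⁻¹ : ℝ) : ℂ) * (w 0 * v) := by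
    rw [hu, hnz, uv, uv, inner_smul_right, inner_smul_left, inner_smul_right, ← hv]
    simp only [map_inv₀, Complex.conj_ofReal]
    push_cast
    rw [mul_inv, mul_inv]
    ring
  have hure : 0 < u.re := by
    rw [hueq, Complex.re_ofReal_mul, Complex.mul_re]
    apply mul_pos hpos
    have h1 := abs_le.1 hvim
    have h2 : (w 0).im * v.im ≤ (w 0).im * (v.re / 4) := by nlinarith
    nlinarith
  have harg : |arg u| < π / 2 := Complex.abs_arg_lt_pi_div_two_iff.2 (Or.inl hure)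
  -- choose the angle
  have hpi := Real.pi_lt_d2
  have harg2 := abs_lt.1 harg
  set y : ℝ := L * (20 / 33 * arg u + 1) with hy
  have hy0 : 0 ≤ y := by
    apply mul_nonneg hL'.le
    linarith
  have hy1 : y ≤ 2 * L := by
    have : 20 / 33 * arg u + 1 ≤ 2 := by linarith
    nlinarith
  have hl : ⌊y⌋₊ < 2 * L + 1 := by
    have h1 : ((⌊y⌋₊ : ℕ) : ℝ) ≤ y := Nat.floor_le hy0
    have h2 : ((⌊y⌋₊ : ℕ) : ℝ) ≤ ((2 * L : ℕ) : ℝ) := by push_cast; linarith
    have h3 : ⌊y⌋₊ ≤ 2 * L := by exact_mod_cast h2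
    omega
  set l : Fin (2 * L + 1) := ⟨⌊y⌋₊, hl⟩ with hldef
  have hang : |arg u - ang L l| ≤ 2 / L := by
    have h1 : ((⌊y⌋₊ : ℕ) : ℝ) ≤ y := Nat.floor_le hy0
    have h2 : y < ⌊y⌋₊ + 1 := Nat.lt_floor_add_one _
    have e : arg u - ang L l = 33 / 20 * (y - ⌊y⌋₊) / L := by
      unfold ang
      simp only [hldef]
      generalize ((⌊y⌋₊ : ℕ) : ℝ) = F
      rw [hy]
      field_simp
      ring
    rw [e, abs_div, abs_of_pos hL']
    apply div_le_div_of_nonneg_right _ hL'.le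
    rw [abs_of_nonneg (by nlinarith)]
    linarith
  refine ⟨(m, l), ?_⟩
  rw [inner_zeta]
  simp only
  rw [← hs, ← hu]
  have e1 : Complex.exp (-(ang L l : ℂ) * I) * u =
      ((‖u‖ : ℝ) : ℂ) * Complex.exp (((arg u - ang L l : ℝ) : ℂ) * I) := by
    conv_lhs => rw [← Complex.norm_mul_exp_arg_mul_I u]
    rw [mul_left_comm, ← Complex.exp_add]
    congr 2
    push_cast
    ring
  rw [e1]
  have hu1 : ‖u‖ ≤ 1 := by
    have hwne : w ≠ 0 := by
      rintro rfl; simp at hw0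
    have := norm_inner_le_norm (𝕜 := ℂ) (uv s) (nz w)
    rwa [norm_uv, norm_nz hwne, one_mul] at this
  have hexp : ‖(1 : ℂ) - Complex.exp (((arg u - ang L l : ℝ) : ℂ) * I)‖ ≤ |arg u - ang L l| := by
    rw [← norm_neg, neg_sub, mul_comm]
    exact Real.norm_exp_I_mul_ofReal_sub_one_le
  have hdef : 1 - ‖u‖ ≤ d / (W : ℝ) ^ 2 := by
    have h1 : ‖u‖ = (‖vec s‖ * ‖vec t‖)⁻¹ * ‖v‖ := by
      rw [hueq, norm_mul, Complex.norm_real, Real.norm_eq_abs, abs_of_pos hpos, norm_mul]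
      field_simp
    have h2 : v.re ≤ ‖v‖ := Complex.re_le_norm v
    have h3 : ‖vec s - vec t‖ ^ 2 = ‖vec s‖ ^ 2 - 2 * v.re + ‖vec t‖ ^ 2 := by
      have := norm_sub_pow_two (𝕜 := ℂ) (vec s) (vec t)
      rw [← hv] at this
      exact this
    have h4 : ‖vec s - vec t‖ ^ 2 ≤ 2 * (d / (W : ℝ) ^ 2) := by
      have e2 : vec s - vec t = WithLp.toLp 2 (Fin.cons 0 (fun i => s i - t i) : Fin (d+1) → ℂ) := by
        ext i
        refine Fin.cases ?_ (fun j => ?_) i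
        · simp [vec]
        · simp [vec]
      rw [e2, EuclideanSpace.norm_sq_eq, Fin.sum_univ_succ]
      simp only [Fin.cons_zero, norm_zero, Fin.cons_succ]
      have h5 : ∀ i : Fin d, ‖s i - t i‖ ^ 2 ≤ 2 / (W : ℝ) ^ 2 := by
        intro i
        obtain ⟨b1, b2, b3, b4, b5, b6⟩ := hm i
        rw [← Complex.normSq_eq_norm_sq, Complex.normSq_apply, Complex.sub_re, Complex.sub_im,
          hsre, hsim]
        have c1 := abs_le.1 b1
        have c2 := abs_le.1 b4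
        have e3 : 2 / (W : ℝ) ^ 2 = (1 / W) * (1 / W) + (1 / W) * (1 / W) := by field_simp; ring
        rw [e3]
        apply add_le_add
        · nlinarith
        · nlinarith
      calc (0 : ℝ) ^ 2 + ∑ i : Fin d, ‖s i - t i‖ ^ 2 ≤ 0 ^ 2 + ∑ _i : Fin d, 2 / (W : ℝ) ^ 2 := by
            apply add_le_add_right
            exact Finset.sum_le_sum fun i _ => h5 i
        _ = 2 * (d / (W : ℝ) ^ 2) := by simp; ring
    have h5 : ‖vec s‖ * ‖vec t‖ - d / (W : ℝ) ^ 2 ≤ ‖v‖ := by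
      nlinarith [sq_nonneg (‖vec s‖ - ‖vec t‖)]
    have h6 : 1 ≤ ‖vec s‖ * ‖vec t‖ := by nlinarith
    have h7 : 0 < ‖vec s‖ * ‖vec t‖ := by linarith
    rw [h1]
    have h8 : (‖vec s‖ * ‖vec t‖)⁻¹ * (‖vec s‖ * ‖vec t‖ - d / (W : ℝ) ^ 2) ≤
        (‖vec s‖ * ‖vec t‖)⁻¹ * ‖v‖ := mul_le_mul_of_nonneg_left h5 (by positivity)
    have h9 : (‖vec s‖ * ‖vec t‖)⁻¹ * (‖vec s‖ * ‖vec t‖ - d / (W : ℝ) ^ 2)
        = 1 - (‖vec s‖ * ‖vec t‖)⁻¹ * (d / (W : ℝ) ^ 2) := by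
      field_simp
    have h10 : (‖vec s‖ * ‖vec t‖)⁻¹ * (d / (W : ℝ) ^ 2) ≤ 1 * (d / (W : ℝ) ^ 2) := by
      apply mul_le_mul_of_nonneg_right _ (by positivity)
      exact inv_le_one_of_one_le₀ h6
    linarith
  have efin : (1 : ℂ) - ((‖u‖ : ℝ) : ℂ) * Complex.exp (((arg u - ang L l : ℝ) : ℂ) * I)
      = ((1 - ‖u‖ : ℝ) : ℂ) + ((‖u‖ : ℝ) : ℂ) * (1 - Complex.exp (((arg u - ang L l : ℝ) : ℂ) * I)) := by
    push_cast; ring
  rw [efin]
  calc _ ≤ ‖((1 - ‖u‖ : ℝ) : ℂ)‖ + ‖((‖u‖ : ℝ) : ℂ) * (1 - Complex.exp (((arg u - ang L l : ℝ) : ℂ) * I))‖ :=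
        norm_add_le _ _
    _ ≤ d / (W : ℝ) ^ 2 + 2 / L := by
        apply add_le_add
        · rw [Complex.norm_real, Real.norm_eq_abs, abs_of_nonneg (by linarith)]
          exact hdef
        · rw [norm_mul, Complex.norm_real, Real.norm_eq_abs, abs_of_nonneg (norm_nonneg u)]
          calc ‖u‖ * ‖1 - Complex.exp (((arg u - ang L l : ℝ) : ℂ) * I)‖ ≤ 1 * (2 / L) := by
                apply mul_le_mul hu1 (hexp.trans hang) (norm_nonneg _) (by norm_num)
            _ = 2 / L := one_mul _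

end Pool.Agent.MPdb50ff
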