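import Mathlib
import Pool.Agent.Lib.MP_db50ff_an.NetC

set_option autoImplicit false

namespace Pool.Agent.MPdb50ff

open MeasureTheory Metric Complex Real

open scoped InnerProductSpace ComplexConjugate

/-- Existence of nets adapted to the scale `1/N`. -/
theorem exists_net (d : ℕ) {τ : ℝ} (hτ : 0 < τ) :
    ∃ C : ℝ, 0 < C ∧ ∀ N : ℕ, 1 ≤ N → ∃ W L : ℕ,
      (∀ w ∈ region d, ∃ p : (Fin d → Fin (W+1) × Fin (W+1)) × Fin (2 * L + 1),
        N * ‖1 - ⟪zeta W L p, nz w⟫_ℂ‖ ≤ τ) ∧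
      (∀ z : EuclideanSpace ℂ (Fin (d+1)), ‖z‖ ≤ 1 + 1 / (2 * N) →
        ∑ p : (Fin d → Fin (W+1) × Fin (W+1)) × Fin (2 * L + 1),
          (‖1 + (N : ℂ) * (1 - ⟪zeta W L p, z⟫_ℂ)‖ ^ (2 * (d + 1)))⁻¹ ≤ C) := by
  set w₀ : ℕ := 8 * d + 1 + ⌈2 * d / τ⌉₊ with hw₀
  set cL : ℕ := ⌈4 / τ⌉₊ + 1 with hcL
  have hw₀1 : 1 ≤ w₀ := by omega
  have hw₀' : (0 : ℝ) < w₀ := by exact_mod_cast hw₀1
  have hw₀2 : 2 * d / τ ≤ (w₀ : ℝ) ^ 2 := by
    have h1 : 2 * d / τ ≤ (⌈2 * d / τ⌉₊ : ℝ) := Nat.le_ceil _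
    have h2 : ((⌈2 * d / τ⌉₊ : ℕ) : ℝ) ≤ w₀ := by
      have : ⌈2 * d / τ⌉₊ ≤ w₀ := by omega
      exact_mod_cast this
    have h3 : (1 : ℝ) ≤ w₀ := by exact_mod_cast hw₀1
    nlinarith
  have hcL1 : 1 ≤ cL := by omega
  have hcL' : (0 : ℝ) < cL := by exact_mod_cast hcL1
  have hcL2 : 4 / τ ≤ cL := by
    have h1 : 4 / τ ≤ (⌈4 / τ⌉₊ : ℝ) := Nat.le_ceil _
    rw [hcL]; push_cast; linarith
  set δ : ℝ := 1 / (4 * (2 * d + 1)) with hδ
  have hδ0 : 0 < δ := by positivity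
  set κ : ℝ := min (1 / 2) (δ ^ 2 / (36 * (w₀ : ℝ) ^ 2)) with hκ
  have hκ0 : 0 < κ := lt_min (by norm_num) (by positivity)
  have hκ1 : κ ≤ 1 / 2 := min_le_left _ _
  have hκ2 : κ ≤ δ ^ 2 / (36 * (w₀ : ℝ) ^ 2) := min_le_right _ _
  set CA : ℝ := (20 / min (1 / 4) ((1 / (24 * (cL : ℝ))) ^ 2)) * ((κ ^ 2)⁻¹ * 100) ^ d with hCA
  have hCA0 : 0 < CA := by
    apply mul_pos
    · apply div_pos (by norm_num)
      apply lt_min (by norm_num) (by positivity)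
    · positivity
  set CB : ℝ := (16 * (w₀ : ℝ) ^ 2) ^ d * (3 * cL) * (4 * (2 * d + 1)) ^ (2 * (d + 1)) with hCB
  have hCB0 : 0 < CB := by positivity
  refine ⟨CA + CB, by positivity, ?_⟩
  intro N hN
  have hN' : (0 : ℝ) < N := by exact_mod_cast hN
  have hN1 : (1 : ℝ) ≤ N := by exact_mod_cast hN
  set s : ℕ := Nat.sqrt N with hs
  have hs1 : 1 ≤ s := by
    rw [hs]
    have : 0 < Nat.sqrt N := Nat.sqrt_pos.2 hN
    omega
  have hsle : ((s : ℝ)) ^ 2 ≤ N := by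
    have : s ^ 2 ≤ N := Nat.sqrt_le' N
    exact_mod_cast this
  have hslt : (N : ℝ) ≤ ((s : ℝ) + 1) ^ 2 := by
    have : N < (s + 1) ^ 2 := Nat.lt_succ_sqrt' N
    have h2 : N ≤ (s + 1) ^ 2 := this.le
    exact_mod_cast h2
  have hs1' : (1 : ℝ) ≤ s := by exact_mod_cast hs1
  have hs4 : ((s : ℝ) + 1) ^ 2 ≤ 4 * N := by nlinarith
  set W : ℕ := w₀ * (s + 1) with hW
  set L : ℕ := cL * N with hL
  have hW1 : 8 * d + 1 ≤ W := by
    rw [hW]
    calc 8 * d + 1 ≤ w₀ * 1 := by omega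
      _ ≤ w₀ * (s + 1) := Nat.mul_le_mul_left _ (by omega)
  have hWpos : 1 ≤ W := by omega
  have hW' : (0 : ℝ) < W := by exact_mod_cast hWpos
  have hL1 : 1 ≤ L := by
    rw [hL]; exact Nat.one_le_iff_ne_zero.2 (by positivity)
  have hL' : (0 : ℝ) < L := by exact_mod_cast hL1
  have hWsq : (W : ℝ) ^ 2 = (w₀ : ℝ) ^ 2 * ((s : ℝ) + 1) ^ 2 := by
    rw [hW]; push_cast; ring
  have hWlow : (w₀ : ℝ) ^ 2 * N ≤ (W : ℝ) ^ 2 := by
    rw [hWsq]; exact mul_le_mul_of_nonneg_left hslt (by positivity)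
  have hWup : (W : ℝ) ^ 2 ≤ (w₀ : ℝ) ^ 2 * (4 * N) := by
    rw [hWsq]; exact mul_le_mul_of_nonneg_left hs4 (by positivity)
  have hLeq : (L : ℝ) = cL * N := by rw [hL]; push_cast; ring
  refine ⟨W, L, ?_, ?_⟩
  · intro w hw
    obtain ⟨p, hp⟩ := covering hW1 hL1 hw
    refine ⟨p, ?_⟩
    calc N * ‖1 - ⟪zeta W L p, nz w⟫_ℂ‖ ≤ N * (d / (W : ℝ) ^ 2 + 2 / L) :=
          mul_le_mul_of_nonneg_left hp hN'.le
      _ = N * (d / (W : ℝ) ^ 2) + N * (2 / L) := by ring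
      _ ≤ τ / 2 + τ / 2 := by
          apply add_le_add
          · have h1 : N * (d / (W : ℝ) ^ 2) ≤ d / (w₀ : ℝ) ^ 2 := by
              rw [mul_div_assoc', div_le_div_iff₀ (by positivity) (by positivity)]
              have : (0 : ℝ) ≤ d := by positivity
              nlinarith
            have h2 : d / (w₀ : ℝ) ^ 2 ≤ τ / 2 := by
              rw [div_le_iff₀ (by positivity)]
              rw [div_le_iff₀ hτ] at hw₀2
              nlinarith
            linarith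
          · rw [hLeq]
            have h1 : (N : ℝ) * (2 / (cL * N)) = 2 / cL := by field_simp
            rw [h1, div_le_div_iff₀ hcL' (by norm_num)]
            rw [div_le_iff₀ hτ] at hcL2
            linarith
      _ = τ := by ring
  · intro z hz
    by_cases hz0 : ‖z 0‖ ≤ δ
    · have h1 := sum_le_B (L := L) hN hWpos z hz hz0
      refine h1.trans ?_
      have h2 : (((W : ℝ) + 1) ^ 2) ^ d ≤ (16 * (w₀ : ℝ) ^ 2 * N) ^ d := by
        apply pow_le_pow_left₀ (by positivity)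
        have : (1 : ℝ) ≤ W := by exact_mod_cast hWpos
        nlinarith
      have h3 : (2 * (L : ℝ) + 1) ≤ 3 * cL * N := by
        have : (1 : ℝ) ≤ L := by exact_mod_cast hL1
        rw [hLeq] at this ⊢
        linarith
      have h4 : (((W : ℝ) + 1) ^ 2) ^ d * (2 * L + 1) * ((4 * (2 * d + 1) / N) ^ (2 * (d + 1)))
          ≤ (16 * (w₀ : ℝ) ^ 2 * N) ^ d * (3 * cL * N) * ((4 * (2 * d + 1) / N) ^ (2 * (d + 1))) := by
        apply mul_le_mul_of_nonneg_right _ (by positivity)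
        apply mul_le_mul h2 h3 (by positivity) (by positivity)
      refine h4.trans ?_
      have h5 : (16 * (w₀ : ℝ) ^ 2 * N) ^ d * (3 * cL * N) * ((4 * (2 * d + 1) / N) ^ (2 * (d + 1)))
          = CB * (N ^ (d + 1) / (N : ℝ) ^ (2 * (d + 1))) := by
        rw [hCB, div_pow, mul_pow, pow_succ (N : ℝ) d]
        ring
      rw [h5]
      have h6 : (N : ℝ) ^ (d + 1) / (N : ℝ) ^ (2 * (d + 1)) ≤ 1 := by
        rw [div_le_one (by positivity)]
        exact pow_le_pow_right₀ hN1 (by omega)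
      nlinarith
    · push Not at hz0
      have hz0' : 0 < ‖z 0‖ := lt_trans hδ0 hz0
      have h1 : κ * (9 * (W : ℝ) ^ 2) ≤ N * ‖z 0‖ ^ 2 := by
        calc κ * (9 * (W : ℝ) ^ 2) ≤ δ ^ 2 / (36 * (w₀ : ℝ) ^ 2) * (9 * ((w₀ : ℝ) ^ 2 * (4 * N))) := by
              apply mul_le_mul hκ2 (by linarith) (by positivity) (by positivity)
          _ = N * δ ^ 2 := by field_simp; ring
          _ ≤ N * ‖z 0‖ ^ 2 := by
              apply mul_le_mul_of_nonneg_left _ hN'.le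
              exact pow_le_pow_left₀ hδ0.le hz0.le 2
      have h2 := sum_le_A (L := L) hN hWpos hL1 hκ0 hκ1 z hz hz0' h1
      refine h2.trans ?_
      have h3 : (N : ℝ) / (24 * L) = 1 / (24 * cL) := by
        rw [hLeq]; field_simp
      rw [h3]
      linarith

end Pool.Agent.MPdb50ff
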