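import Mathlib
import Pool.Agent.Lib.MP_db50ff_an.Harnack
import Pool.Agent.Lib.MP_db50ff_an.NetD
import Pool.Agent.Lib.MP_db50ff_an.Sign

set_option autoImplicit false

namespace Pool.Agent.MPdb50ff

open MeasureTheory Metric Complex Real

open scoped InnerProductSpace ComplexConjugate

section Kernel

variable {E : Type*} [NormedAddCommGroup E] [InnerProductSpace ℂ E]

/-- The base `1 + N (1 - ⟨z, ζ⟩)` of the peak functions. -/
noncomputable def base (N : ℕ) (ζ z : E) : ℂ := 1 + (N : ℂ) * (1 - ⟪ζ, z⟫_ℂ)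

/-- The peak function of scale `1/N` at `ζ`. -/
noncomputable def peak (N q : ℕ) (ζ z : E) : ℂ := ⟪ζ, z⟫_ℂ * ((base N ζ z) ^ q)⁻¹

theorem differentiable_base (N : ℕ) (ζ : E) : Differentiable ℂ (base N ζ) := by
  have h : Differentiable ℂ (fun z : E => ⟪ζ, z⟫_ℂ) := (innerSL ℂ ζ).differentiable
  unfold base
  exact (differentiable_const _).add ((differentiable_const _).mul ((differentiable_const _).sub h))

theorem re_base_ge {N : ℕ} {ζ z : E} (hζ : ‖ζ‖ = 1) : 1 + N * (1 - ‖z‖) ≤ (base N ζ z).re := by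
  have h1 : ‖⟪ζ, z⟫_ℂ‖ ≤ ‖z‖ := by
    have := norm_inner_le_norm (𝕜 := ℂ) ζ z
    rwa [hζ, one_mul] at this
  have h2 : (⟪ζ, z⟫_ℂ).re ≤ ‖z‖ := (Complex.re_le_norm _).trans h1
  have h3 : (base N ζ z).re = 1 + N * (1 - (⟪ζ, z⟫_ℂ).re) := by
    unfold base; simp
  rw [h3]
  have : (0 : ℝ) ≤ N := Nat.cast_nonneg N
  nlinarith

theorem norm_base_ge {N : ℕ} (hN : 1 ≤ N) {ζ z : E} (hζ : ‖ζ‖ = 1) (hz : ‖z‖ ≤ 1 + 1 / (2 * N)) :
    1 / 2 ≤ ‖base N ζ z‖ := by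
  have hN' : (0 : ℝ) < N := by exact_mod_cast hN
  have h1 := re_base_ge (N := N) (z := z) hζ
  have h2 : (base N ζ z).re ≤ ‖base N ζ z‖ := Complex.re_le_norm _
  have h3 : (N : ℝ) * (‖z‖ - 1) ≤ 1 / 2 := by
    have : ‖z‖ - 1 ≤ 1 / (2 * N) := by linarith
    have h4 := mul_le_mul_of_nonneg_left this hN'.le
    have e : (N : ℝ) * (1 / (2 * N)) = 1 / 2 := by field_simp
    linarith
  nlinarith

theorem differentiableOn_peak {N : ℕ} (hN : 1 ≤ N) (q : ℕ) {ζ : E} (hζ : ‖ζ‖ = 1) :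
    DifferentiableOn ℂ (peak N q ζ) (ball 0 (1 + 1 / N)) := by
  have hN' : (0 : ℝ) < N := by exact_mod_cast hN
  have h : Differentiable ℂ (fun z : E => ⟪ζ, z⟫_ℂ) := (innerSL ℂ ζ).differentiable
  have hne : ∀ z ∈ ball (0 : E) (1 + 1 / N), base N ζ z ^ q ≠ 0 := by
    intro z hz
    apply pow_ne_zero
    intro h0
    have h1 := re_base_ge (N := N) (z := z) hζ
    rw [h0] at h1
    simp only [Complex.zero_re] at h1
    have h2 : ‖z‖ < 1 + 1 / N := by simpa using hz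
    have h3 : (N : ℝ) * ‖z‖ < N * (1 + 1 / N) := mul_lt_mul_of_pos_left h2 hN'
    have e : (N : ℝ) * (1 + 1 / N) = N + 1 := by field_simp
    nlinarith
  unfold peak
  apply DifferentiableOn.mul h.differentiableOn
  exact DifferentiableOn.inv ((differentiable_base N ζ).pow q).differentiableOn hne

theorem norm_peak_le {N q : ℕ} (hN : 1 ≤ N) {ζ z : E} (hζ : ‖ζ‖ = 1) (hz : ‖z‖ ≤ 1 + 1 / (2 * N)) :
    ‖peak N (q + 2) ζ z‖ ≤ 3 / 2 * (‖base N ζ z‖ ^ 2)⁻¹ * (‖base N ζ z‖ ^ q)⁻¹ := by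
  have hN' : (1 : ℝ) ≤ N := by exact_mod_cast hN
  have h1 : ‖⟪ζ, z⟫_ℂ‖ ≤ ‖z‖ := by
    have := norm_inner_le_norm (𝕜 := ℂ) ζ z
    rwa [hζ, one_mul] at this
  have h2 : (1 : ℝ) / (2 * N) ≤ 1 / 2 := by
    apply one_div_le_one_div_of_le (by norm_num)
    linarith
  rw [peak, norm_mul, norm_inv, norm_pow, pow_add, mul_inv, mul_comm (‖base N ζ z‖ ^ q)⁻¹,
    ← mul_assoc]
  apply mul_le_mul_of_nonneg_right _ (by positivity)
  apply mul_le_mul_of_nonneg_right _ (by positivity)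
  linarith

theorem norm_pow_sub_one_le {x : ℂ} {τ : ℝ} (hτ : 0 ≤ τ) (hx : ‖x - 1‖ ≤ τ) (q : ℕ) :
    ‖x ^ q - 1‖ ≤ (1 + τ) ^ q - 1 := by
  induction q with
  | zero => simp
  | succ q ih =>
    have e : x ^ (q + 1) - 1 = x * (x ^ q - 1) + (x - 1) := by ring
    have hx2 : ‖x‖ ≤ 1 + τ := by
      have : x = (x - 1) + 1 := by ring
      rw [this]
      refine (norm_add_le _ _).trans ?_
      simp only [norm_one]
      linarith
    rw [e]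
    calc ‖x * (x ^ q - 1) + (x - 1)‖ ≤ ‖x * (x ^ q - 1)‖ + ‖x - 1‖ := norm_add_le _ _
      _ ≤ (1 + τ) * ((1 + τ) ^ q - 1) + τ := by
          rw [norm_mul]
          apply add_le_add _ hx
          exact mul_le_mul hx2 ih (norm_nonneg _) (by linarith)
      _ = (1 + τ) ^ (q + 1) - 1 := by ring

theorem re_peak_ge {N q : ℕ} (hN : 1 ≤ N) {ζ z : E} (hq : 1 ≤ q)
    (hclose : N * ‖1 - ⟪ζ, z⟫_ℂ‖ ≤ 1 / (10 * q)) : 1 / 2 ≤ (peak N q ζ z).re := by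
  have hN' : (1 : ℝ) ≤ N := by exact_mod_cast hN
  have hq' : (1 : ℝ) ≤ q := by exact_mod_cast hq
  set τ : ℝ := 1 / (10 * q) with hτ
  have hτ0 : 0 < τ := by positivity
  have hτ1 : τ ≤ 1 / 10 := by
    rw [hτ]; apply one_div_le_one_div_of_le (by norm_num); linarith
  set X := base N ζ z with hX
  have hX1 : ‖X - 1‖ ≤ τ := by
    have : X - 1 = (N : ℂ) * (1 - ⟪ζ, z⟫_ℂ) := by rw [hX]; unfold base; ring
    rw [this, norm_mul, Complex.norm_natCast]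
    exact hclose
  have hpow : ‖X ^ q - 1‖ ≤ 1 / 5 := by
    have h1 := norm_pow_sub_one_le hτ0.le hX1 q
    have h2 : (1 + τ) ^ q ≤ Real.exp (τ * q) := by
      have h3 : 1 + τ ≤ Real.exp τ := by linarith [Real.add_one_le_exp τ]
      calc (1 + τ) ^ q ≤ (Real.exp τ) ^ q := pow_le_pow_left₀ (by positivity) h3 q
        _ = Real.exp (τ * q) := by rw [← Real.exp_nat_mul]; ring_nf
    have h4 : τ * q = 1 / 10 := by rw [hτ]; field_simp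
    rw [h4] at h2
    have h5 : Real.exp (1 / 10) ≤ 6 / 5 := by
      have h6 := Real.exp_bound' (x := 1 / 10) (by norm_num) (by norm_num) (n := 2) (by norm_num)
      norm_num [Finset.sum_range_succ] at h6
      linarith
    linarith
  have hlam : ‖⟪ζ, z⟫_ℂ - 1‖ ≤ 1 / 10 := by
    rw [← norm_neg, neg_sub]
    have h0 := norm_nonneg (1 - ⟪ζ, z⟫_ℂ)
    nlinarith
  have hXq : 4 / 5 ≤ ‖X ^ q‖ := by
    have h1 : ‖(1 : ℂ)‖ ≤ ‖X ^ q‖ + ‖X ^ q - 1‖ := by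
      have : (1 : ℂ) = X ^ q - (X ^ q - 1) := by ring
      conv_lhs => rw [this]
      exact norm_sub_le _ _
    rw [norm_one] at h1
    linarith
  have hXq0 : X ^ q ≠ 0 := by
    intro h; rw [h, norm_zero] at hXq; norm_num at hXq
  have hdiff : ‖peak N q ζ z - 1‖ ≤ 1 / 2 := by
    have e : peak N q ζ z - 1 = ((⟪ζ, z⟫_ℂ - 1) - (X ^ q - 1)) * (X ^ q)⁻¹ := by
      unfold peak
      rw [← hX]
      field_simp
      ring
    rw [e, norm_mul, norm_inv, ← div_eq_mul_inv, div_le_iff₀ (by linarith)]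
    calc ‖(⟪ζ, z⟫_ℂ - 1) - (X ^ q - 1)‖ ≤ ‖⟪ζ, z⟫_ℂ - 1‖ + ‖X ^ q - 1‖ := norm_sub_le _ _
      _ ≤ 1 / 10 + 1 / 5 := add_le_add hlam hpow
      _ ≤ 1 / 2 * ‖X ^ q‖ := by linarith
  have h7 := Complex.abs_re_le_norm (peak N q ζ z - 1)
  have h8 : (peak N q ζ z - 1).re = (peak N q ζ z).re - 1 := by simp
  rw [h8] at h7
  have h9 := abs_le.1 (h7.trans hdiff)
  linarith

/-- Harnack comparison of the value at a unit vector `ζ` with the value at `z`. -/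
theorem harnack_peak {N : ℕ} (hN : 1 ≤ N) {h : E → ℂ}
    (hd : DifferentiableOn ℂ h (ball 0 (1 + 1 / N)))
    (hc : ContinuousOn h (closedBall 0 (1 + 1 / N)))
    (hpos : ∀ z ∈ closedBall (0 : E) (1 + 1 / N), 0 ≤ (h z).re)
    {ζ z : E} (hζ : ‖ζ‖ = 1) (hz : ‖z‖ ≤ 1 + 1 / (2 * N)) :
    (h ζ).re ≤ 648 * ‖base N ζ z‖ ^ 2 * (h z).re := by
  have hN' : (0 : ℝ) < N := by exact_mod_cast hN
  have hN1 : (1 : ℝ) ≤ N := by exact_mod_cast hN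
  have hi : (0 : ℝ) < 1 / N := by positivity
  have e2 : (1 : ℝ) / (2 * N) = (1 / N) / 2 := by field_simp
  set r : ℝ := 1 + 1 / N with hr
  set x : ℝ := 1 / N with hx
  have hx1 : x ≤ 1 := by rw [hx, div_le_one hN']; exact hN1
  rw [e2] at hz
  have hzr : ‖z‖ < r := by linarith
  have hζr : ‖ζ‖ < r := by rw [hζ]; linarith
  have hmain := harnack_ball hd hc hpos hζr hzr
  have hzpos : 0 ≤ (h z).re := hpos z (by simpa using hzr.le)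
  refine hmain.trans ?_
  apply mul_le_mul_of_nonneg_right _ hzpos
  rw [hζ]
  -- estimates
  have hb := norm_base_ge hN hζ (z := z) (by rw [e2]; exact hz)
  set X := ‖base N ζ z‖ with hX
  have h1 : 1 * x ≤ r ^ 2 - ‖z‖ ^ 2 := by
    have := norm_nonneg z
    have h5 : ‖z‖ ^ 2 ≤ (1 + x / 2) ^ 2 := pow_le_pow_left₀ this hz 2
    nlinarith
  have h2 : 2 * x ≤ r ^ 2 - 1 ^ 2 := by nlinarith
  have h3 : ‖(r : ℂ) ^ 2 - ⟪z, ζ⟫_ℂ‖ ≤ 9 * x * X := by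
    have e3 : ‖(r : ℂ) ^ 2 - ⟪z, ζ⟫_ℂ‖ = ‖(r : ℂ) ^ 2 - ⟪ζ, z⟫_ℂ‖ := by
      rw [← RCLike.norm_conj]
      congr 1
      rw [map_sub, map_pow, Complex.conj_ofReal, inner_conj_symm]
    rw [e3]
    have e4 : (r : ℂ) ^ 2 - ⟪ζ, z⟫_ℂ = ((r ^ 2 - 1 - x : ℝ) : ℂ) + (x : ℂ) * base N ζ z := by
      unfold base
      have : (x : ℂ) * (N : ℂ) = 1 := by
        rw [hx]; push_cast
        have : (N : ℂ) ≠ 0 := by
          have : N ≠ 0 := by omega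
          exact_mod_cast this
        field_simp
      push_cast
      linear_combination (⟪ζ, z⟫_ℂ - 1) * this
    rw [e4]
    calc ‖((r ^ 2 - 1 - x : ℝ) : ℂ) + (x : ℂ) * base N ζ z‖
        ≤ ‖((r ^ 2 - 1 - x : ℝ) : ℂ)‖ + ‖(x : ℂ) * base N ζ z‖ := norm_add_le _ _
      _ = (r ^ 2 - 1 - x) + x * X := by
          rw [norm_mul, Complex.norm_real, Complex.norm_real, Real.norm_eq_abs, Real.norm_eq_abs,
            abs_of_pos hi, abs_of_nonneg (by nlinarith)]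
      _ ≤ 9 * x * X := by nlinarith
  have h4 : 0 ≤ ‖(r : ℂ) ^ 2 - ⟪z, ζ⟫_ℂ‖ := norm_nonneg _
  have h5 : ‖(r : ℂ) ^ 2 - ⟪z, ζ⟫_ℂ‖ ^ 2 ≤ (9 * x * X) ^ 2 := pow_le_pow_left₀ h4 h3 2
  have h6 : 0 < r ^ 2 - 1 ^ 2 := by linarith
  have h7 : 0 < r ^ 2 - ‖z‖ ^ 2 := by linarith
  rw [div_le_iff₀ (by positivity)]
  have h8 : 2 * x * (1 * x) ≤ (r ^ 2 - 1 ^ 2) * (r ^ 2 - ‖z‖ ^ 2) :=
    mul_le_mul h2 h1 (by positivity) h6.le
  have h9 : 0 ≤ 648 * X ^ 2 := by positivity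
  nlinarith [mul_le_mul_of_nonneg_left h8 h9]

/-- Harnack comparison of values at nearby unit vectors. -/
theorem harnack_close {N : ℕ} (hN : 1 ≤ N) {h : E → ℂ}
    (hd : DifferentiableOn ℂ h (ball 0 (1 + 1 / N)))
    (hc : ContinuousOn h (closedBall 0 (1 + 1 / N)))
    (hpos : ∀ z ∈ closedBall (0 : E) (1 + 1 / N), 0 ≤ (h z).re)
    {ζ z : E} (hζ : ‖ζ‖ = 1) (hz : ‖z‖ = 1) (hclose : N * ‖1 - ⟪ζ, z⟫_ℂ‖ ≤ 1 / 10) :
    (h ζ).re ≤ 40 * (h z).re ∧ (h z).re ≤ 40 * (h ζ).re := by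
  have hN' : (0 : ℝ) < N := by exact_mod_cast hN
  have hN1 : (1 : ℝ) ≤ N := by exact_mod_cast hN
  have hi : (0 : ℝ) < 1 / N := by positivity
  set r : ℝ := 1 + 1 / N with hr
  set x : ℝ := 1 / N with hx
  have hx1 : x ≤ 1 := by rw [hx, div_le_one hN']; exact hN1
  have hζr : ‖ζ‖ < r := by rw [hζ]; linarith
  have hzr : ‖z‖ < r := by rw [hz]; linarith
  have hsmall : ‖1 - ⟪ζ, z⟫_ℂ‖ ≤ x / 10 := by
    have : ‖1 - ⟪ζ, z⟫_ℂ‖ = x * (N * ‖1 - ⟪ζ, z⟫_ℂ‖) := by rw [hx]; field_simp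
    rw [this]; nlinarith
  have key : ∀ a b : E, ‖a‖ = 1 → ‖b‖ = 1 → ‖1 - ⟪b, a⟫_ℂ‖ ≤ x / 10 → (h a).re ≤ 40 * (h b).re := by
    intro a b ha hb hab
    have har : ‖a‖ < r := by rw [ha]; linarith
    have hbr : ‖b‖ < r := by rw [hb]; linarith
    have hmain := harnack_ball hd hc hpos har hbr
    have hbpos : 0 ≤ (h b).re := hpos b (by simpa using hbr.le)
    refine hmain.trans (mul_le_mul_of_nonneg_right ?_ hbpos)
    rw [ha, hb]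
    have h2 : 2 * x ≤ r ^ 2 - 1 ^ 2 := by nlinarith
    have h6 : 0 < r ^ 2 - 1 ^ 2 := by linarith
    have h3 : ‖(r : ℂ) ^ 2 - ⟪b, a⟫_ℂ‖ ≤ (r ^ 2 - 1 ^ 2) + x / 10 := by
      have e4 : (r : ℂ) ^ 2 - ⟪b, a⟫_ℂ = ((r ^ 2 - 1 ^ 2 : ℝ) : ℂ) + (1 - ⟪b, a⟫_ℂ) := by
        push_cast; ring
      rw [e4]
      refine (norm_add_le _ _).trans ?_
      rw [Complex.norm_real, Real.norm_eq_abs, abs_of_pos h6]
      linarith
    have h5 : ‖(r : ℂ) ^ 2 - ⟪b, a⟫_ℂ‖ ^ 2 ≤ ((r ^ 2 - 1 ^ 2) + x / 10) ^ 2 :=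
      pow_le_pow_left₀ (norm_nonneg _) h3 2
    rw [div_le_iff₀ (by positivity)]
    have h7 : (r ^ 2 - 1 ^ 2) + x / 10 ≤ 21 / 20 * (r ^ 2 - 1 ^ 2) := by linarith
    have h8 : ((r ^ 2 - 1 ^ 2) + x / 10) ^ 2 ≤ (21 / 20 * (r ^ 2 - 1 ^ 2)) ^ 2 :=
      pow_le_pow_left₀ (by positivity) h7 2
    nlinarith
  refine ⟨key ζ z hζ hz ?_, key z ζ hz hζ hsmall⟩
  rw [← RCLike.norm_conj, map_sub, map_one, inner_conj_symm]
  exact hsmall

end Kernel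

end Pool.Agent.MPdb50ff
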