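import Mathlib
import Pool.Agent.Lib.MP_db50ff_an.Step

set_option autoImplicit false

namespace Pool.Agent.MPdb50ff

open MeasureTheory Metric Complex Real

open scoped InnerProductSpace ComplexConjugate

/-- The potential `∫ min(1, √(Re h / T))` over the region. -/
noncomputable def J (d : ℕ) (h : EuclideanSpace ℂ (Fin (d+1)) → ℂ) (T : ℝ) : ℝ :=
  ∫ w in region d, min 1 (Real.sqrt ((h (nz w)).re / T))

theorem region_ne_zero {d : ℕ} {w : Fin (d+1) → ℂ} (hw : w ∈ region d) : w ≠ 0 := by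
  intro h
  have h1 := hw.1
  rw [h] at h1
  simp at h1

theorem continuousOn_nz {n : ℕ} : ContinuousOn (nz (n := n)) {w | w ≠ 0} := by
  intro w hw
  apply ContinuousAt.continuousWithinAt
  have h1 : Continuous fun w : Fin n → ℂ => (WithLp.toLp 2 w : EuclideanSpace ℂ (Fin n)) :=
    PiLp.continuous_toLp 2 _
  have h2 : Continuous fun w : Fin n → ℂ => ‖(WithLp.toLp 2 w : EuclideanSpace ℂ (Fin n))‖ :=
    continuous_norm.comp h1
  have h3 : (‖(WithLp.toLp 2 w : EuclideanSpace ℂ (Fin n))‖ : ℂ) ≠ 0 := by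
    rw [Ne, Complex.ofReal_eq_zero, norm_eq_zero]
    intro h
    apply hw
    have := congrArg (fun x : EuclideanSpace ℂ (Fin n) => WithLp.ofLp x) h
    simpa using this
  unfold nz
  exact ((Complex.continuous_ofReal.comp h2).continuousAt.inv₀ h3).smul h1.continuousAt

theorem measurableSet_region (d : ℕ) : MeasurableSet (region d) := (isOpen_region d).measurableSet

theorem volume_region_lt_top (d : ℕ) : volume (region d) < ⊤ := by
  have h : region d ⊆ closedBall (0 : Fin (d+1) → ℂ) 1 := by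
    intro w hw
    have h5 : ‖(WithLp.toLp 2 w : EuclideanSpace ℂ (Fin (d+1)))‖ < 1 := hw.2.2.2.2
    rw [mem_closedBall_zero_iff, pi_norm_le_iff_of_nonneg zero_le_one]
    intro i
    exact (PiLp.norm_apply_le (WithLp.toLp 2 w : EuclideanSpace ℂ (Fin (d+1))) i).trans h5.le
  exact lt_of_le_of_lt (measure_mono h) (isCompact_closedBall _ _).measure_lt_top

theorem continuousOn_comp_nz {d : ℕ} {h : EuclideanSpace ℂ (Fin (d+1)) → ℂ}
    (hc : ContinuousOn h (closedBall 0 1)) :
    ContinuousOn (fun w : Fin (d+1) → ℂ => h (nz w)) (region d) := by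
  refine hc.comp (continuousOn_nz.mono fun w hw => region_ne_zero hw) ?_
  intro w hw
  rw [mem_closedBall_zero_iff, norm_nz (region_ne_zero hw)]

theorem J_integrable {d : ℕ} {h : EuclideanSpace ℂ (Fin (d+1)) → ℂ}
    (hc : ContinuousOn h (closedBall 0 1)) (T : ℝ) :
    IntegrableOn (fun w : Fin (d+1) → ℂ => min 1 (Real.sqrt ((h (nz w)).re / T))) (region d) := by
  have h1 : ContinuousOn (fun w : Fin (d+1) → ℂ => min 1 (Real.sqrt ((h (nz w)).re / T)))
      (region d) := by
    have h2 := continuousOn_comp_nz hc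
    have h3 : ContinuousOn (fun w : Fin (d+1) → ℂ => (h (nz w)).re) (region d) :=
      Complex.continuous_re.comp_continuousOn h2
    exact ContinuousOn.inf continuousOn_const
      (Real.continuous_sqrt.comp_continuousOn (h3.div_const T))
  have : IsFiniteMeasure ((volume : Measure (Fin (d+1) → ℂ)).restrict (region d)) :=
    ⟨by rw [Measure.restrict_apply_univ]; exact volume_region_lt_top d⟩
  refine Integrable.of_bound (h1.aestronglyMeasurable (measurableSet_region d)) 1 ?_
  refine Filter.Eventually.of_forall fun w => ?_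
  rw [Real.norm_eq_abs, abs_of_nonneg (le_min zero_le_one (Real.sqrt_nonneg _))]
  exact min_le_left _ _

theorem J_nonneg (d : ℕ) (h : EuclideanSpace ℂ (Fin (d+1)) → ℂ) (T : ℝ) : 0 ≤ J d h T := by
  unfold J
  apply integral_nonneg
  intro w
  exact le_min zero_le_one (Real.sqrt_nonneg _)

/-- The coefficient attached to a peak. -/
noncomputable def coef (c A x : ℝ) : ℝ := if x ≤ A then c * x else 0

theorem coef_nonneg {c A x : ℝ} (hc : 0 ≤ c) (hx : 0 ≤ x) : 0 ≤ coef c A x := by
  unfold coef; split_ifs <;> positivity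

theorem coef_le {c A x : ℝ} (hc : 0 ≤ c) (hx : 0 ≤ x) : coef c A x ≤ c * x := by
  unfold coef; split_ifs
  · exact le_rfl
  · positivity

theorem coef_le' {c A x : ℝ} (hc : 0 ≤ c) (hA : 0 ≤ A) : coef c A x ≤ c * A := by
  unfold coef; split_ifs with h
  · exact mul_le_mul_of_nonneg_left h hc
  · positivity

theorem step (d : ℕ) : ∃ ρ : ℝ, 0 < ρ ∧ ρ ≤ 1 ∧ ∀ D : ℕ, 1 ≤ D →
    ∀ (h : EuclideanSpace ℂ (Fin (d+1)) → ℂ) (T : ℝ), 0 < T →
    DifferentiableOn ℂ h (ball 0 (1 + 1 / (D : ℝ))) →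
    (∀ z ∈ closedBall (0 : EuclideanSpace ℂ (Fin (d+1))) (1 + 1 / (2 * (D : ℝ))), 0 < (h z).re) →
    ∃ g : EuclideanSpace ℂ (Fin (d+1)) → ℂ,
      DifferentiableOn ℂ g (ball 0 (1 + 1 / (2 * (D : ℝ)))) ∧ g 0 = 0 ∧
      (∀ z ∈ closedBall (0 : EuclideanSpace ℂ (Fin (d+1))) (1 + 1 / (4 * (D : ℝ))),
        ‖g z‖ ≤ (h z).re / 2 ∧ ‖g z‖ ≤ T) ∧
      J d (fun z => h z + g z) ((1 - ρ ^ 2 / 8) ^ 2 * T) ≤ J d h T := by
  set q : ℕ := 2 * (d + 1) + 2 with hq
  have hq1 : 1 ≤ q := by omega
  have hq' : (0 : ℝ) < q := by exact_mod_cast hq1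
  set τ : ℝ := 1 / (10 * q) with hτ
  have hτ0 : 0 < τ := by positivity
  have hτ1 : τ ≤ 1 / 10 := by
    rw [hτ]
    apply one_div_le_one_div_of_le (by norm_num)
    have : (1 : ℝ) ≤ q := by exact_mod_cast hq1
    linarith
  obtain ⟨C₀, hC₀, hnet₀⟩ := exists_net d hτ0
  set C : ℝ := C₀ + 1 with hC
  have hC1 : 1 ≤ C := by linarith
  set c : ℝ := 1 / (2000 * C) with hc
  have hc0 : 0 < c := by positivity
  have hcC : c * C = 1 / 2000 := by
    rw [hc]; field_simp
  have hc1 : c ≤ 1 / 2000 := by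
    rw [← hcC]
    nlinarith
  refine ⟨c / 80, by positivity, by linarith, ?_⟩
  set ρ : ℝ := c / 80 with hρ
  have hρ0 : 0 < ρ := by positivity
  have hρ1 : ρ ≤ 1 := by rw [hρ]; linarith
  intro D hD h T hT hd hpos
  have hD' : (0 : ℝ) < D := by exact_mod_cast hD
  set N : ℕ := 2 * D with hN
  have hN1 : 1 ≤ N := by omega
  have hNr : (N : ℝ) = 2 * D := by rw [hN]; push_cast; ring
  have hr1 : 1 + 1 / (2 * (D : ℝ)) = 1 + 1 / (N : ℝ) := by rw [hNr]
  have hr2 : 1 + 1 / (4 * (D : ℝ)) = 1 + 1 / (2 * (N : ℝ)) := by rw [hNr]; ring_nf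
  have hr3 : 1 + 1 / (N : ℝ) < 1 + 1 / (D : ℝ) := by
    rw [hNr]
    have : 1 / (2 * (D : ℝ)) < 1 / D := by
      apply one_div_lt_one_div_of_lt hD'; linarith
    linarith
  rw [hr1] at hpos
  rw [hr1, hr2]
  have hd1 : DifferentiableOn ℂ h (ball 0 (1 + 1 / (N : ℝ))) :=
    hd.mono (ball_subset_ball hr3.le)
  have hc1' : ContinuousOn h (closedBall 0 (1 + 1 / (N : ℝ))) :=
    hd.continuousOn.mono (closedBall_subset_ball hr3)
  have hpos' : ∀ z ∈ closedBall (0 : EuclideanSpace ℂ (Fin (d+1))) (1 + 1 / (N : ℝ)),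
      0 ≤ (h z).re := fun z hz => (hpos z hz).le
  have hN0 : (0 : ℝ) < N := by exact_mod_cast hN1
  have hsub1 : closedBall (0 : EuclideanSpace ℂ (Fin (d+1))) 1 ⊆ ball 0 (1 + 1 / (N : ℝ)) := by
    apply closedBall_subset_ball
    have : 0 < 1 / (N : ℝ) := by positivity
    linarith
  have hhalf : 1 / (2 * (N : ℝ)) < 1 / N := by
    apply one_div_lt_one_div_of_lt hN0; linarith
  obtain ⟨W, L, hcov, hsum⟩ := hnet₀ N hN1
  set ι := (Fin d → Fin (W+1) × Fin (W+1)) × Fin (2 * L + 1) with hι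
  -- coefficients
  set κ : ι → ℝ := fun p => coef c (40 * T) (h (zeta W L p)).re with hκ
  have hζmem : ∀ p : ι, zeta W L p ∈ closedBall (0 : EuclideanSpace ℂ (Fin (d+1))) (1 + 1 / (N : ℝ)) := by
    intro p
    apply ball_subset_closedBall
    apply hsub1
    rw [mem_closedBall_zero_iff, norm_zeta]
  have hux : ∀ p : ι, 0 ≤ (h (zeta W L p)).re := fun p => hpos' _ (hζmem p)
  have hκ0 : ∀ p, 0 ≤ κ p := fun p => coef_nonneg hc0.le (hux p)
  -- the total variation bound
  have htot : ∀ z ∈ closedBall (0 : EuclideanSpace ℂ (Fin (d+1))) (1 + 1 / (2 * (N : ℝ))),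
      ∑ p : ι, κ p * ‖peak N q (zeta W L p) z‖ ≤ (h z).re / 2 ∧
      ∑ p : ι, κ p * ‖peak N q (zeta W L p) z‖ ≤ T := by
    intro z hz
    rw [mem_closedBall_zero_iff] at hz
    have hzmem : z ∈ closedBall (0 : EuclideanSpace ℂ (Fin (d+1))) (1 + 1 / (N : ℝ)) := by
      rw [mem_closedBall_zero_iff]; linarith
    have hu := hpos' z hzmem
    have hs := hsum z hz
    have hs' : ∑ p : ι, (‖base N (zeta W L p) z‖ ^ (2 * (d + 1)))⁻¹ ≤ C := by
      refine le_trans ?_ (hs.trans (by linarith))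
      exact le_of_eq rfl
    constructor
    · have key : ∀ p : ι, κ p * ‖peak N q (zeta W L p) z‖ ≤
          (c * 972 * (h z).re) * (‖base N (zeta W L p) z‖ ^ (2 * (d + 1)))⁻¹ := by
        intro p
        have hb := norm_base_ge hN1 (norm_zeta W L p) hz
        have hb0 : 0 < ‖base N (zeta W L p) z‖ := by linarith
        have h1 := norm_peak_le (q := 2 * (d + 1)) hN1 (norm_zeta W L p) hz
        have h2 := harnack_peak hN1 hd1 hc1' hpos' (norm_zeta W L p) hz
        have h3 : κ p ≤ c * (h (zeta W L p)).re := coef_le hc0.le (hux p)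
        calc κ p * ‖peak N q (zeta W L p) z‖
            ≤ (c * (h (zeta W L p)).re) * (3 / 2 * (‖base N (zeta W L p) z‖ ^ 2)⁻¹ *
                (‖base N (zeta W L p) z‖ ^ (2 * (d + 1)))⁻¹) := by
              apply mul_le_mul h3 h1 (norm_nonneg _)
              exact mul_nonneg hc0.le (hux p)
          _ ≤ (c * (648 * ‖base N (zeta W L p) z‖ ^ 2 * (h z).re)) *
                (3 / 2 * (‖base N (zeta W L p) z‖ ^ 2)⁻¹ *
                (‖base N (zeta W L p) z‖ ^ (2 * (d + 1)))⁻¹) := by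
              apply mul_le_mul_of_nonneg_right
              · exact mul_le_mul_of_nonneg_left h2 hc0.le
              · positivity
          _ = (c * 972 * (h z).re) * (‖base N (zeta W L p) z‖ ^ (2 * (d + 1)))⁻¹ := by
              field_simp
              ring
      calc ∑ p : ι, κ p * ‖peak N q (zeta W L p) z‖
          ≤ ∑ p : ι, (c * 972 * (h z).re) * (‖base N (zeta W L p) z‖ ^ (2 * (d + 1)))⁻¹ :=
            Finset.sum_le_sum fun p _ => key p
        _ = (c * 972 * (h z).re) * ∑ p : ι, (‖base N (zeta W L p) z‖ ^ (2 * (d + 1)))⁻¹ := by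
            rw [Finset.mul_sum]
        _ ≤ (c * 972 * (h z).re) * C := mul_le_mul_of_nonneg_left hs' (by positivity)
        _ = 972 * (c * C) * (h z).re := by ring
        _ ≤ (h z).re / 2 := by rw [hcC]; linarith
    · have key : ∀ p : ι, κ p * ‖peak N q (zeta W L p) z‖ ≤
          (c * (40 * T) * 6) * (‖base N (zeta W L p) z‖ ^ (2 * (d + 1)))⁻¹ := by
        intro p
        have hb := norm_base_ge hN1 (norm_zeta W L p) hz
        have hb0 : 0 < ‖base N (zeta W L p) z‖ := by linarith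
        have h1 := norm_peak_le (q := 2 * (d + 1)) hN1 (norm_zeta W L p) hz
        have h3 : κ p ≤ c * (40 * T) := coef_le' hc0.le (by positivity)
        have h4 : (‖base N (zeta W L p) z‖ ^ 2)⁻¹ ≤ 4 := by
          rw [inv_le_comm₀ (by positivity) (by norm_num)]
          nlinarith
        calc κ p * ‖peak N q (zeta W L p) z‖
            ≤ (c * (40 * T)) * (3 / 2 * (‖base N (zeta W L p) z‖ ^ 2)⁻¹ *
                (‖base N (zeta W L p) z‖ ^ (2 * (d + 1)))⁻¹) := by
              apply mul_le_mul h3 h1 (norm_nonneg _)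
              positivity
          _ ≤ (c * (40 * T)) * (3 / 2 * 4 *
                (‖base N (zeta W L p) z‖ ^ (2 * (d + 1)))⁻¹) := by
              gcongr
          _ = (c * (40 * T) * 6) * (‖base N (zeta W L p) z‖ ^ (2 * (d + 1)))⁻¹ := by ring
      calc ∑ p : ι, κ p * ‖peak N q (zeta W L p) z‖
          ≤ ∑ p : ι, (c * (40 * T) * 6) * (‖base N (zeta W L p) z‖ ^ (2 * (d + 1)))⁻¹ :=
            Finset.sum_le_sum fun p _ => key p
        _ = (c * (40 * T) * 6) * ∑ p : ι, (‖base N (zeta W L p) z‖ ^ (2 * (d + 1)))⁻¹ := by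
            rw [Finset.mul_sum]
        _ ≤ (c * (40 * T) * 6) * C := mul_le_mul_of_nonneg_left hs' (by positivity)
        _ = 240 * (c * C) * T := by ring
        _ ≤ T := by rw [hcC]; linarith
  -- the candidates
  set G : (ι → Bool) → EuclideanSpace ℂ (Fin (d+1)) → ℂ :=
    fun ε z => ∑ p : ι, ((sg (ε p) * κ p : ℝ) : ℂ) * peak N q (zeta W L p) z with hG
  have hGnorm : ∀ ε z, ‖G ε z‖ ≤ ∑ p : ι, κ p * ‖peak N q (zeta W L p) z‖ := by
    intro ε z
    refine (norm_sum_le _ _).trans (Finset.sum_le_sum fun p _ => ?_)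
    rw [norm_mul, Complex.norm_real, Real.norm_eq_abs, abs_mul, abs_sg, one_mul,
      abs_of_nonneg (hκ0 p)]
  have hGdiff : ∀ ε, DifferentiableOn ℂ (G ε) (ball 0 (1 + 1 / (N : ℝ))) := by
    intro ε
    apply DifferentiableOn.fun_sum
    intro p _
    exact (differentiableOn_const _).mul (differentiableOn_peak hN1 q (norm_zeta W L p))
  have hGzero : ∀ ε, G ε 0 = 0 := by
    intro ε
    simp only [hG]
    apply Finset.sum_eq_zero
    intro p _
    simp [peak]
  have hmul0 : 0 < (1 - ρ ^ 2 / 8) := by nlinarith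
  set T' : ℝ := (1 - ρ ^ 2 / 8) ^ 2 * T with hT'
  have hT'0 : 0 < T' := by positivity
  -- pointwise inequality
  have hpt : ∀ w ∈ region d, ∑ ε : ι → Bool, min 1 (Real.sqrt ((h (nz w) + G ε (nz w)).re / T')) ≤
      (Fintype.card (ι → Bool) : ℝ) * min 1 (Real.sqrt ((h (nz w)).re / T)) := by
    intro w hw
    set z := nz w with hz
    have hzn : ‖z‖ = 1 := norm_nz (region_ne_zero hw)
    have hz1 : z ∈ closedBall (0 : EuclideanSpace ℂ (Fin (d+1))) (1 + 1 / (2 * (N : ℝ))) := by
      rw [mem_closedBall_zero_iff, hzn]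
      have : 0 < 1 / (2 * (N : ℝ)) := by positivity
      linarith
    have hz2 : z ∈ closedBall (0 : EuclideanSpace ℂ (Fin (d+1))) (1 + 1 / (N : ℝ)) := by
      rw [mem_closedBall_zero_iff, hzn]
      have : 0 < 1 / (N : ℝ) := by positivity
      linarith
    have hu : 0 < (h z).re := hpos z hz2
    by_cases huT : (h z).re ≤ T
    · obtain ⟨p₀, hp₀⟩ := hcov w hw
      have hclose : (N : ℝ) * ‖1 - ⟪zeta W L p₀, z⟫_ℂ‖ ≤ 1 / (10 * q) := hp₀
      have hclose' : (N : ℝ) * ‖1 - ⟪zeta W L p₀, z⟫_ℂ‖ ≤ 1 / 10 := hclose.trans hτ1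
      obtain ⟨hk1, hk2⟩ := harnack_close hN1 hd1 hc1' hpos' (norm_zeta W L p₀) hzn hclose'
      have hpk := re_peak_ge hN1 hq1 hclose
      have hκp : κ p₀ = c * (h (zeta W L p₀)).re := by
        simp only [hκ, coef]
        rw [if_pos (by linarith)]
      have ha : ∑ p : ι, |κ p * (peak N q (zeta W L p) z).re| ≤ (h z).re := by
        have h1 := (htot z hz1).1
        refine le_trans (Finset.sum_le_sum fun p _ => ?_) (h1.trans (by linarith))
        rw [abs_mul, abs_of_nonneg (hκ0 p)]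
        exact mul_le_mul_of_nonneg_left (Complex.abs_re_le_norm _) (hκ0 p)
      have hρ' : ρ * (h z).re ≤ |κ p₀ * (peak N q (zeta W L p₀) z).re| := by
        have h1 : c * ((h z).re / 40) * (1 / 2) ≤ κ p₀ * (peak N q (zeta W L p₀) z).re := by
          rw [hκp]
          apply mul_le_mul _ hpk (by norm_num) (mul_nonneg hc0.le (hux p₀))
          apply mul_le_mul_of_nonneg_left _ hc0.le
          linarith
        refine le_trans (le_of_eq ?_) (h1.trans (le_abs_self _))
        rw [hρ]; ring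
      have hsa := sign_avg (fun p : ι => κ p * (peak N q (zeta W L p) z).re) hu ha p₀ hρ0.le hρ'
      have hre : ∀ ε : ι → Bool, (h z + G ε z).re =
          (h z).re + ∑ p : ι, sg (ε p) * (κ p * (peak N q (zeta W L p) z).re) := by
        intro ε
        simp only [hG, Complex.add_re, Complex.re_sum, Complex.re_ofReal_mul]
        congr 1
        apply Finset.sum_congr rfl
        intro p _
        ring
      have hmin : min 1 (Real.sqrt ((h z).re / T)) = Real.sqrt ((h z).re / T) := by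
        apply min_eq_right
        exact Real.sqrt_le_one.2 ((div_le_one hT).2 huT)
      rw [hmin]
      have hsT' : Real.sqrt T' = (1 - ρ ^ 2 / 8) * Real.sqrt T := by
        rw [hT', Real.sqrt_mul (by positivity), Real.sqrt_sq hmul0.le]
      calc ∑ ε : ι → Bool, min 1 (Real.sqrt ((h z + G ε z).re / T'))
          ≤ ∑ ε : ι → Bool, Real.sqrt ((h z + G ε z).re / T') :=
            Finset.sum_le_sum fun ε _ => min_le_right _ _
        _ = (∑ ε : ι → Bool, Real.sqrt ((h z).re +
              ∑ p : ι, sg (ε p) * (κ p * (peak N q (zeta W L p) z).re))) / Real.sqrt T' := by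
            rw [Finset.sum_div]
            apply Finset.sum_congr rfl
            intro ε _
            rw [Real.sqrt_div' _ hT'0.le, hre ε]
        _ ≤ ((Fintype.card (ι → Bool) : ℝ) * (Real.sqrt (h z).re * (1 - ρ ^ 2 / 8))) /
              Real.sqrt T' := by
            apply div_le_div_of_nonneg_right hsa (Real.sqrt_nonneg _)
        _ = (Fintype.card (ι → Bool) : ℝ) * Real.sqrt ((h z).re / T) := by
            rw [hsT', Real.sqrt_div' _ hT.le]
            have hsT : 0 < Real.sqrt T := Real.sqrt_pos.2 hT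
            generalize (1 - ρ ^ 2 / 8) = m at hmul0
            have hm := hmul0.ne'
            field_simp
    · have hmin : min 1 (Real.sqrt ((h z).re / T)) = 1 := by
        apply min_eq_left
        rw [Real.one_le_sqrt]
        exact (one_le_div hT).2 (not_le.1 huT).le
      rw [hmin, mul_one]
      calc ∑ ε : ι → Bool, min 1 (Real.sqrt ((h z + G ε z).re / T'))
          ≤ ∑ _ε : ι → Bool, (1 : ℝ) := Finset.sum_le_sum fun ε _ => min_le_left _ _
        _ = (Fintype.card (ι → Bool) : ℝ) := by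
            simp
  -- integrate
  have hGcont : ∀ ε, ContinuousOn (fun z => h z + G ε z)
      (closedBall (0 : EuclideanSpace ℂ (Fin (d+1))) 1) := by
    intro ε
    exact (hd1.continuousOn.mono hsub1).add ((hGdiff ε).continuousOn.mono hsub1)
  have hhcont : ContinuousOn h (closedBall (0 : EuclideanSpace ℂ (Fin (d+1))) 1) :=
    hd1.continuousOn.mono hsub1
  have hint : ∑ ε : ι → Bool, J d (fun z => h z + G ε z) T' ≤
      ∑ _ε : ι → Bool, J d h T := by
    have e1 : ∑ ε : ι → Bool, J d (fun z => h z + G ε z) T' =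
        ∫ w in region d, ∑ ε : ι → Bool, min 1 (Real.sqrt ((h (nz w) + G ε (nz w)).re / T')) := by
      unfold J
      rw [integral_finsetSum]
      intro ε _
      exact J_integrable (hGcont ε) T'
    have e2 : ∑ _ε : ι → Bool, J d h T =
        ∫ w in region d, (Fintype.card (ι → Bool) : ℝ) * min 1 (Real.sqrt ((h (nz w)).re / T)) := by
      unfold J
      rw [integral_const_mul, Finset.sum_const, Finset.card_univ, nsmul_eq_mul]
    rw [e1, e2]
    apply setIntegral_mono_on _ _ (measurableSet_region d) hpt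
    · apply MeasureTheory.integrable_finsetSum
      intro ε _
      exact J_integrable (hGcont ε) T'
    · exact (J_integrable hhcont T).const_mul _
  obtain ⟨ε, -, hε⟩ := Finset.exists_le_of_sum_le (Finset.univ_nonempty) hint
  refine ⟨G ε, hGdiff ε, hGzero ε, ?_, hε⟩
  intro z hz
  obtain ⟨h1, h2⟩ := htot z hz
  exact ⟨(hGnorm ε z).trans h1, (hGnorm ε z).trans h2⟩

end Pool.Agent.MPdb50ff
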