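import Mathlib
import Pool.Agent.Lib.MP_db50ff_an.Step2

set_option autoImplicit false

namespace Pool.Agent.MPdb50ff

open MeasureTheory Metric Complex Real

open scoped InnerProductSpace ComplexConjugate

/-- The invariant of the iteration. -/
structure Inv (d : ℕ) (μ : ℝ) (k : ℕ) (h : EuclideanSpace ℂ (Fin (d+1)) → ℂ) : Prop where
  diff : DifferentiableOn ℂ h (ball 0 (1 + 1 / (2 : ℝ) ^ k))
  pos : ∀ z ∈ closedBall (0 : EuclideanSpace ℂ (Fin (d+1))) (1 + 1 / (2 * (2 : ℝ) ^ k)),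
    0 < (h z).re
  zero : h 0 = 1
  pot : J d h (16 * μ ^ k) ≤ J d (fun _ => 1) 16

theorem exists_seq (d : ℕ) : ∃ μ : ℝ, 0 < μ ∧ μ < 1 ∧
    ∃ H : ℕ → EuclideanSpace ℂ (Fin (d+1)) → ℂ,
      (∀ k, Inv d μ k (H k)) ∧ (H 0 = fun _ => 1) ∧
      (∀ k, ∀ z ∈ closedBall (0 : EuclideanSpace ℂ (Fin (d+1))) (1 + 1 / (4 * (2 : ℝ) ^ k)),
        ‖H (k + 1) z - H k z‖ ≤ 16 * μ ^ k) ∧
      (∀ k, DifferentiableOn ℂ (fun z => H (k + 1) z - H k z) (ball 0 (1 + 1 / (2 * (2 : ℝ) ^ k)))) := by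
  obtain ⟨ρ, hρ0, hρ1, hstep⟩ := step d
  set μ : ℝ := (1 - ρ ^ 2 / 8) ^ 2 with hμ
  have h1 : 0 < 1 - ρ ^ 2 / 8 := by nlinarith
  have h2 : 1 - ρ ^ 2 / 8 < 1 := by
    have : 0 < ρ ^ 2 := by positivity
    linarith
  have hμ0 : 0 < μ := by positivity
  have hμ1 : μ < 1 := by
    rw [hμ]; nlinarith
  refine ⟨μ, hμ0, hμ1, ?_⟩
  have hex : ∀ (k : ℕ) (h : {h : EuclideanSpace ℂ (Fin (d+1)) → ℂ // Inv d μ k h}),
      ∃ h' : {h' : EuclideanSpace ℂ (Fin (d+1)) → ℂ // Inv d μ (k + 1) h'},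
        (∀ z ∈ closedBall (0 : EuclideanSpace ℂ (Fin (d+1))) (1 + 1 / (4 * (2 : ℝ) ^ k)),
          ‖h'.1 z - h.1 z‖ ≤ 16 * μ ^ k) ∧
        DifferentiableOn ℂ (fun z => h'.1 z - h.1 z) (ball 0 (1 + 1 / (2 * (2 : ℝ) ^ k))) := by
    rintro k ⟨h, hI⟩
    have hD : 1 ≤ 2 ^ k := Nat.one_le_two_pow
    have hT : 0 < 16 * μ ^ k := by positivity
    have hcast : ((2 ^ k : ℕ) : ℝ) = (2 : ℝ) ^ k := by push_cast; rfl
    have hk0 : (0 : ℝ) < (2 : ℝ) ^ k := by positivity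
    obtain ⟨g, hg1, hg2, hg3, hg4⟩ := hstep (2 ^ k) hD h (16 * μ ^ k) hT
      (by rw [hcast]; exact hI.diff) (by rw [hcast]; exact hI.pos)
    rw [hcast] at hg1 hg3
    have hlt : 1 + 1 / (2 * (2 : ℝ) ^ k) < 1 + 1 / (2 : ℝ) ^ k := by
      have : 1 / (2 * (2 : ℝ) ^ k) < 1 / (2 : ℝ) ^ k := by
        apply one_div_lt_one_div_of_lt hk0; linarith
      linarith
    have hlt2 : 1 + 1 / (4 * (2 : ℝ) ^ k) < 1 + 1 / (2 * (2 : ℝ) ^ k) := by
      have : 1 / (4 * (2 : ℝ) ^ k) < 1 / (2 * (2 : ℝ) ^ k) := by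
        apply one_div_lt_one_div_of_lt (by positivity); linarith
      linarith
    refine ⟨⟨fun z => h z + g z, ⟨?_, ?_, ?_, ?_⟩⟩, ?_, ?_⟩
    · have e : 1 + 1 / (2 : ℝ) ^ (k + 1) = 1 + 1 / (2 * (2 : ℝ) ^ k) := by rw [pow_succ]; ring_nf
      rw [e]
      exact (hI.diff.mono (ball_subset_ball hlt.le)).add hg1
    · have e : 1 + 1 / (2 * (2 : ℝ) ^ (k + 1)) = 1 + 1 / (4 * (2 : ℝ) ^ k) := by
        rw [pow_succ]; ring_nf
      rw [e]
      intro z hz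
      obtain ⟨a1, -⟩ := hg3 z hz
      have a2 := hI.pos z (closedBall_subset_closedBall hlt2.le hz)
      have a3 : -(‖g z‖) ≤ (g z).re := (abs_le.1 (Complex.abs_re_le_norm (g z))).1
      rw [Complex.add_re]
      linarith
    · simp only [hI.zero, hg2, add_zero]
    · have e : 16 * μ ^ (k + 1) = (1 - ρ ^ 2 / 8) ^ 2 * (16 * μ ^ k) := by
        rw [pow_succ, ← hμ]; ring
      rw [e]
      exact hg4.trans hI.pot
    · intro z hz
      have : h z + g z - h z = g z := by ring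
      simp only [this]
      exact (hg3 z hz).2
    · refine hg1.congr ?_
      intro z _
      ring
  choose F hF1 hF2 using hex
  have h0 : Inv d μ 0 (fun _ => 1) := by
    refine ⟨differentiableOn_const _, ?_, rfl, ?_⟩
    · intro z _; simp
    · rw [pow_zero, mul_one]
  set H : ∀ k : ℕ, {h : EuclideanSpace ℂ (Fin (d+1)) → ℂ // Inv d μ k h} :=
    fun k => Nat.rec ⟨fun _ => 1, h0⟩ (fun k h => F k h) k with hH
  refine ⟨fun k => (H k).1, fun k => (H k).2, rfl, fun k => hF1 k (H k), fun k => hF2 k (H k)⟩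

end Pool.Agent.MPdb50ff
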