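import Mathlib
import Pool.Agent.Lib.MP_db50ff_an.Iter

set_option autoImplicit false

namespace Pool.Agent.MPdb50ff

open MeasureTheory Metric Complex Real Filter Topology

open scoped InnerProductSpace ComplexConjugate

/-- There is `α ∈ (0, 1/2]` with `2^α μ < 1`. -/
theorem exists_alpha {μ : ℝ} (hμ1 : μ < 1) : ∃ α : ℝ, 0 < α ∧ α ≤ 1 / 2 ∧ (2 : ℝ) ^ α * μ < 1 := by
  have h1 : Tendsto (fun α : ℝ => (2 : ℝ) ^ α * μ) (𝓝[>] 0) (𝓝 (1 * μ)) := by
    have h2 : Tendsto (fun α : ℝ => (2 : ℝ) ^ α) (𝓝[>] 0) (𝓝 1) := by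
      have h3 : ContinuousAt (fun α : ℝ => (2 : ℝ) ^ α) 0 :=
        Real.continuousAt_const_rpow (by norm_num)
      have h4 := h3.tendsto
      rw [Real.rpow_zero] at h4
      exact h4.mono_left nhdsWithin_le_nhds
    exact h2.mul_const μ
  rw [one_mul] at h1
  have h5 : ∀ᶠ α : ℝ in 𝓝[>] 0, (2 : ℝ) ^ α * μ < 1 := h1.eventually (gt_mem_nhds hμ1)
  have h6 : ∀ᶠ α : ℝ in 𝓝[>] 0, 0 < α := self_mem_nhdsWithin
  have h7 : ∀ᶠ α : ℝ in 𝓝[>] 0, α ≤ 1 / 2 := by
    have : ∀ᶠ α : ℝ in 𝓝 0, α ≤ 1 / 2 := Iic_mem_nhds (by norm_num)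
    exact this.filter_mono nhdsWithin_le_nhds
  obtain ⟨α, h8, h9, h10⟩ := (h5.and (h6.and h7)).exists
  exact ⟨α, h9, h10, h8⟩

/-- Scale invariant Hölder bound for one term. -/
theorem term_holder {E : Type*} [NormedAddCommGroup E] [NormedSpace ℂ E] {g : E → ℂ} {R T α : ℝ}
    (hR : 0 < R) (hα0 : 0 < α) (hα1 : α ≤ 1) (hd : DifferentiableOn ℂ g (ball 0 (1 + R)))
    (hb : ∀ z ∈ ball (0 : E) (1 + R), ‖g z‖ ≤ T) {z w : E} (hz : ‖z‖ ≤ 1) (hw : ‖w‖ ≤ 1) :
    ‖g z - g w‖ ≤ 2 * T * (‖z - w‖ / R) ^ α := by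
  have hzm : z ∈ ball (0 : E) (1 + R) := by rw [mem_ball_zero_iff]; linarith
  have hwm : w ∈ ball (0 : E) (1 + R) := by rw [mem_ball_zero_iff]; linarith
  have hT : 0 ≤ T := (norm_nonneg _).trans (hb z hzm)
  have h2T : ‖g z - g w‖ ≤ 2 * T := by
    calc ‖g z - g w‖ ≤ ‖g z‖ + ‖g w‖ := norm_sub_le _ _
      _ ≤ T + T := add_le_add (hb z hzm) (hb w hwm)
      _ = 2 * T := by ring
  have hx0 : 0 ≤ ‖z - w‖ / R := by positivity
  by_cases hlt : ‖z - w‖ < R
  · have hx1 : ‖z - w‖ / R ≤ 1 := (div_le_one hR).2 hlt.le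
    have hsub : ball w R ⊆ ball (0 : E) (1 + R) := by
      intro x hx
      rw [mem_ball, dist_eq_norm] at hx
      rw [mem_ball_zero_iff]
      have : x = (x - w) + w := by abel
      rw [this]
      exact (norm_add_le _ _).trans_lt (by linarith)
    have hmaps : Set.MapsTo g (ball w R) (closedBall (g w) (2 * T)) := by
      intro x hx
      rw [mem_closedBall, dist_eq_norm]
      calc ‖g x - g w‖ ≤ ‖g x‖ + ‖g w‖ := norm_sub_le _ _
        _ ≤ T + T := add_le_add (hb x (hsub hx)) (hb w hwm)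
        _ = 2 * T := by ring
    have h1 := Complex.dist_le_div_mul_dist_of_mapsTo_ball (hd.mono hsub) hmaps
      (z := z) (by rw [mem_ball, dist_eq_norm]; exact hlt)
    rw [dist_eq_norm, dist_eq_norm] at h1
    have h2 : ‖z - w‖ / R ≤ (‖z - w‖ / R) ^ α := by
      rcases hx0.eq_or_lt with h | h
      · rw [← h]; exact Real.rpow_nonneg le_rfl _
      · calc ‖z - w‖ / R = (‖z - w‖ / R) ^ (1 : ℝ) := (Real.rpow_one _).symm
          _ ≤ (‖z - w‖ / R) ^ α := Real.rpow_le_rpow_of_exponent_ge h hx1 hα1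
    calc ‖g z - g w‖ ≤ 2 * T / R * ‖z - w‖ := h1
      _ = 2 * T * (‖z - w‖ / R) := by ring
      _ ≤ 2 * T * (‖z - w‖ / R) ^ α := mul_le_mul_of_nonneg_left h2 (by positivity)
  · have hx1 : 1 ≤ ‖z - w‖ / R := (one_le_div hR).2 (not_lt.1 hlt)
    have h2 : 1 ≤ (‖z - w‖ / R) ^ α := Real.one_le_rpow hx1 hα0.le
    calc ‖g z - g w‖ ≤ 2 * T := h2T
      _ = 2 * T * 1 := by ring
      _ ≤ 2 * T * (‖z - w‖ / R) ^ α := mul_le_mul_of_nonneg_left h2 (by positivity)

/-- The limit function. -/
theorem exists_limit (d : ℕ) : ∃ α : ℝ, 0 < α ∧ α ≤ 1 / 2 ∧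
    ∃ h : EuclideanSpace ℂ (Fin (d+1)) → ℂ,
      ContinuousOn h (closedBall 0 1) ∧ DifferentiableOn ℂ h (ball 0 1) ∧ h 0 = 1 ∧
      (∀ z ∈ closedBall (0 : EuclideanSpace ℂ (Fin (d+1))) 1, 0 ≤ (h z).re) ∧
      (∃ C : ℝ, ∀ z ∈ closedBall (0 : EuclideanSpace ℂ (Fin (d+1))) 1,
        ∀ w ∈ closedBall (0 : EuclideanSpace ℂ (Fin (d+1))) 1,
          ‖h z - h w‖ ≤ C * ‖z - w‖ ^ α) ∧
      0 < volume {w : Fin (d+1) → ℂ | w ∈ region d ∧ (h (nz w)).re = 0} := by
  obtain ⟨μ, hμ0, hμ1, H, hInv, hH0, hHb, hHd⟩ := exists_seq d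
  obtain ⟨α, hα0, hα1, hαμ⟩ := exists_alpha hμ1
  set g : ℕ → EuclideanSpace ℂ (Fin (d+1)) → ℂ := fun k z => H (k + 1) z - H k z with hg
  have h4k : ∀ k : ℕ, (0 : ℝ) < 1 / (4 * (2 : ℝ) ^ k) := fun k => by positivity
  have hb1 : ∀ k, ∀ z ∈ closedBall (0 : EuclideanSpace ℂ (Fin (d+1))) 1, ‖g k z‖ ≤ 16 * μ ^ k := by
    intro k z hz
    apply hHb k z
    rw [mem_closedBall_zero_iff] at hz ⊢
    linarith [h4k k]
  have hsum16 : Summable (fun k : ℕ => 16 * μ ^ k) :=
    (summable_geometric_of_lt_one hμ0.le hμ1).mul_left 16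
  have hs : ∀ z ∈ closedBall (0 : EuclideanSpace ℂ (Fin (d+1))) 1, Summable (fun k => g k z) :=
    fun z hz => Summable.of_norm_bounded hsum16 (fun k => hb1 k z hz)
  set h : EuclideanSpace ℂ (Fin (d+1)) → ℂ := fun z => 1 + ∑' k, g k z with hh
  have htend : ∀ z ∈ closedBall (0 : EuclideanSpace ℂ (Fin (d+1))) 1,
      Tendsto (fun k => H k z) atTop (𝓝 (h z)) := by
    intro z hz
    have h1 := (hs z hz).hasSum.tendsto_sum_nat
    have h2 : ∀ k, ∑ i ∈ Finset.range k, g i z = H k z - 1 := by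
      intro k
      simp only [hg]
      rw [Finset.sum_range_sub (fun k => H k z), hH0]
    simp only [h2] at h1
    have h3 := h1.const_add 1
    simpa [hh] using h3
  have hpos : ∀ z ∈ closedBall (0 : EuclideanSpace ℂ (Fin (d+1))) 1, 0 ≤ (h z).re := by
    intro z hz
    have h1 : Tendsto (fun k => (H k z).re) atTop (𝓝 (h z).re) :=
      (Complex.continuous_re.tendsto _).comp (htend z hz)
    refine ge_of_tendsto' h1 fun k => ?_
    refine ((hInv k).pos z ?_).le
    rw [mem_closedBall_zero_iff] at hz ⊢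
    have : (0 : ℝ) < 1 / (2 * (2 : ℝ) ^ k) := by positivity
    linarith
  -- Hölder
  set r : ℝ := (2 : ℝ) ^ α * μ with hr
  have hr0 : 0 < r := by positivity
  have hholder : ∀ z ∈ closedBall (0 : EuclideanSpace ℂ (Fin (d+1))) 1,
      ∀ w ∈ closedBall (0 : EuclideanSpace ℂ (Fin (d+1))) 1,
      ‖h z - h w‖ ≤ (32 * (4 : ℝ) ^ α * (1 - r)⁻¹) * ‖z - w‖ ^ α := by
    intro z hz w hw
    have hz' := mem_closedBall_zero_iff.1 hz
    have hw' := mem_closedBall_zero_iff.1 hw
    have hterm : ∀ k, ‖g k z - g k w‖ ≤ (32 * (4 : ℝ) ^ α * ‖z - w‖ ^ α) * r ^ k := by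
      intro k
      have h1 := term_holder (g := g k) (T := 16 * μ ^ k) (h4k k) hα0 (by linarith)
        ((hHd k).mono (ball_subset_ball (by
          have : 1 / (4 * (2 : ℝ) ^ k) ≤ 1 / (2 * (2 : ℝ) ^ k) := by
            apply one_div_le_one_div_of_le (by positivity)
            have : (0 : ℝ) < (2 : ℝ) ^ k := by positivity
            linarith
          linarith))) (fun z hz => hHb k z (ball_subset_closedBall hz)) hz' hw'
      refine h1.trans (le_of_eq ?_)
      have e1 : ‖z - w‖ / (1 / (4 * (2 : ℝ) ^ k)) = ‖z - w‖ * (4 * (2 : ℝ) ^ k) := by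
        field_simp
      rw [e1, Real.mul_rpow (norm_nonneg _) (by positivity),
        Real.mul_rpow (by norm_num) (by positivity)]
      have e2 : ((2 : ℝ) ^ k) ^ α = ((2 : ℝ) ^ α) ^ k := by
        rw [← Real.rpow_natCast, ← Real.rpow_mul (by norm_num), ← Real.rpow_natCast,
          ← Real.rpow_mul (by norm_num), mul_comm]
      rw [e2, hr, mul_pow]
      ring
    have hsr : Summable (fun k : ℕ => (32 * (4 : ℝ) ^ α * ‖z - w‖ ^ α) * r ^ k) :=
      (summable_geometric_of_lt_one hr0.le hαμ).mul_left _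
    have e1 : h z - h w = ∑' k, (g k z - g k w) := by
      rw [(hs z hz).tsum_sub (hs w hw)]
      simp only [hh]; ring
    rw [e1]
    have h2 := tsum_of_norm_bounded (hsr.hasSum) hterm
    refine h2.trans (le_of_eq ?_)
    rw [tsum_mul_left, tsum_geometric_of_lt_one hr0.le hαμ]
    ring
  have hcont : ContinuousOn h (closedBall 0 1) := by
    intro z hz
    rw [ContinuousWithinAt, tendsto_iff_norm_sub_tendsto_zero]
    have h1 : Tendsto (fun w : EuclideanSpace ℂ (Fin (d+1)) =>
        (32 * (4 : ℝ) ^ α * (1 - r)⁻¹) * ‖w - z‖ ^ α) (𝓝[closedBall 0 1] z) (𝓝 0) := by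
      have h2 : Continuous fun w : EuclideanSpace ℂ (Fin (d+1)) =>
          (32 * (4 : ℝ) ^ α * (1 - r)⁻¹) * ‖w - z‖ ^ α := by
        apply continuous_const.mul
        exact (Real.continuous_rpow_const hα0.le).comp
          (continuous_norm.comp (continuous_id.sub continuous_const))
      have h3 := h2.tendsto z
      simp only [sub_self, norm_zero, Real.zero_rpow hα0.ne', mul_zero] at h3
      exact h3.mono_left nhdsWithin_le_nhds
    refine squeeze_zero' (Eventually.of_forall fun w => norm_nonneg _) ?_ h1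
    filter_upwards [self_mem_nhdsWithin] with w hw
    exact hholder w hw z hz
  have hdiff : DifferentiableOn ℂ h (ball 0 1) := by
    intro z hz
    apply DifferentiableAt.differentiableWithinAt
    rw [mem_ball_zero_iff] at hz
    set s : ℝ := (1 + ‖z‖) / 2 with hs'
    have hs1 : s < 1 := by rw [hs']; linarith
    have hs0 : 0 < s := by rw [hs']; positivity
    have hzs : z ∈ ball (0 : EuclideanSpace ℂ (Fin (d+1))) s := by
      rw [mem_ball_zero_iff, hs']; linarith
    have hgd : ∀ k, ∀ x ∈ ball (0 : EuclideanSpace ℂ (Fin (d+1))) s, DifferentiableAt ℂ (g k) x := by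
      intro k x hx
      have h2k : (0 : ℝ) < 1 / (2 * (2 : ℝ) ^ k) := by positivity
      rw [mem_ball_zero_iff] at hx
      apply (hHd k).differentiableAt
      apply isOpen_ball.mem_nhds
      rw [mem_ball_zero_iff]; linarith
    have hmain := hasFDerivAt_tsum_of_isPreconnected (𝕜 := ℂ) (f := g)
      (f' := fun k x => fderiv ℂ (g k) x) (u := fun k => 2 * (16 * μ ^ k) / (1 - s))
      (s := ball (0 : EuclideanSpace ℂ (Fin (d+1))) s) (x₀ := z) (x := z)
      ((hsum16.mul_left 2).div_const _) isOpen_ball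
      ((convex_ball (0 : EuclideanSpace ℂ (Fin (d+1))) s).isPreconnected)
      (fun k x hx => (hgd k x hx).hasFDerivAt) ?_ hzs (hs z (by
        rw [mem_closedBall_zero_iff]; exact hz.le)) hzs
    · exact (differentiableAt_const _).add hmain.differentiableAt
    · intro k x hx
      rw [mem_ball_zero_iff] at hx
      have hsub : ball x (1 - s) ⊆ ball (0 : EuclideanSpace ℂ (Fin (d+1))) 1 := by
        intro y hy
        rw [mem_ball, dist_eq_norm] at hy
        rw [mem_ball_zero_iff]
        have : y = (y - x) + x := by abel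
        rw [this]
        exact (norm_add_le _ _).trans_lt (by linarith)
      have h2k : (0 : ℝ) < 1 / (2 * (2 : ℝ) ^ k) := by positivity
      apply Complex.norm_fderiv_le_div_of_mapsTo_ball _ _ (by linarith)
      · exact (hHd k).mono (hsub.trans (ball_subset_ball (by linarith)))
      · intro y hy
        rw [mem_closedBall, dist_eq_norm]
        have hy1 := hb1 k y (ball_subset_closedBall (hsub hy))
        have hx1 := hb1 k x (by rw [mem_closedBall_zero_iff]; linarith)
        calc ‖g k y - g k x‖ ≤ ‖g k y‖ + ‖g k x‖ := norm_sub_le _ _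
          _ ≤ 16 * μ ^ k + 16 * μ ^ k := add_le_add hy1 hx1
          _ = 2 * (16 * μ ^ k) := by ring
  refine ⟨α, hα0, hα1, h, hcont, hdiff, ?_, hpos, ⟨_, hholder⟩, ?_⟩
  · simp only [hh, hg, (hInv _).zero, sub_self, tsum_zero, add_zero]
  · -- positive measure
    by_contra hcon
    have hzero : volume {w : Fin (d+1) → ℂ | w ∈ region d ∧ (h (nz w)).re = 0} = 0 := by
      simpa using hcon
    have hae : ∀ᵐ w ∂(volume.restrict (region d)), 0 < (h (nz w)).re := by
      rw [ae_restrict_iff' (measurableSet_region d)]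
      rw [ae_iff]
      refine measure_mono_null ?_ hzero
      intro w hw
      simp only [Set.mem_ofPred_eq, Classical.not_imp, not_lt] at hw
      refine ⟨hw.1, le_antisymm hw.2 (hpos _ ?_)⟩
      rw [mem_closedBall_zero_iff, norm_nz (region_ne_zero hw.1)]
    have hmemr : ∀ᵐ w ∂(volume.restrict (region d)), w ∈ region d :=
      ae_restrict_mem (measurableSet_region d)
    have hfin : IsFiniteMeasure ((volume : Measure (Fin (d+1) → ℂ)).restrict (region d)) :=
      ⟨by rw [Measure.restrict_apply_univ]; exact volume_region_lt_top d⟩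
    have hlim : Tendsto (fun k => J d (H k) (16 * μ ^ k)) atTop
        (𝓝 (∫ _w in region d, (1 : ℝ))) := by
      unfold J
      apply tendsto_integral_of_dominated_convergence (fun _ => (1 : ℝ))
      · intro k
        refine (J_integrable ?_ _).aestronglyMeasurable
        refine (hInv k).diff.continuousOn.mono (closedBall_subset_ball ?_)
        have : (0 : ℝ) < 1 / (2 : ℝ) ^ k := by positivity
        linarith
      · exact integrable_const _
      · intro k
        refine Eventually.of_forall fun w => ?_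
        rw [Real.norm_eq_abs, abs_of_nonneg (le_min zero_le_one (Real.sqrt_nonneg _))]
        exact min_le_left _ _
      · filter_upwards [hae, hmemr] with w hw hwr
        have hzm : nz w ∈ closedBall (0 : EuclideanSpace ℂ (Fin (d+1))) 1 := by
          rw [mem_closedBall_zero_iff, norm_nz (region_ne_zero hwr)]
        have h1 : Tendsto (fun k => (H k (nz w)).re) atTop (𝓝 (h (nz w)).re) :=
          (Complex.continuous_re.tendsto _).comp (htend _ hzm)
        have h2 : Tendsto (fun k : ℕ => 16 * μ ^ k) atTop (𝓝 0) := by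
          have := (tendsto_pow_atTop_nhds_zero_of_lt_one hμ0.le hμ1).const_mul 16
          simpa using this
        have h3 : ∀ᶠ k in atTop, (h (nz w)).re / 2 < (H k (nz w)).re :=
          h1.eventually (lt_mem_nhds (by linarith))
        have h4 : ∀ᶠ k : ℕ in atTop, 16 * μ ^ k < (h (nz w)).re / 2 :=
          h2.eventually (gt_mem_nhds (by linarith))
        refine tendsto_const_nhds.congr' ?_
        filter_upwards [h3, h4] with k hk3 hk4
        symm
        apply min_eq_left
        rw [Real.one_le_sqrt]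
        have h5 : (0 : ℝ) < 16 * μ ^ k := by positivity
        exact (one_le_div h5).2 (by linarith)
    have hle : (∫ _w in region d, (1 : ℝ)) ≤ J d (fun _ => 1) 16 :=
      le_of_tendsto' hlim fun k => (hInv k).pot
    have hJ : J d (fun _ => 1) 16 = (∫ _w in region d, (1 : ℝ)) / 4 := by
      unfold J
      have : min 1 (Real.sqrt ((1 : ℂ).re / 16)) = 1 / 4 := by
        rw [Complex.one_re]
        have h1 : Real.sqrt (1 / 16) = 1 / 4 := by
          rw [show (1 : ℝ) / 16 = (1 / 4) ^ 2 by norm_num, Real.sqrt_sq (by norm_num)]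
        rw [h1]
        norm_num
      simp only [this]
      rw [setIntegral_const, setIntegral_const]
      simp; ring
    have hvpos : 0 < ∫ _w in region d, (1 : ℝ) := by
      rw [setIntegral_const, smul_eq_mul, mul_one]
      unfold Measure.real
      exact ENNReal.toReal_pos (region_measure_pos d).ne' (volume_region_lt_top d).ne
    rw [hJ] at hle
    linarith

end Pool.Agent.MPdb50ff
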