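import Mathlib
import Pool.Agent.Lib.MP_db50ff_an.Defs
import Pool.Agent.Lib.MP_db50ff_an.A1

set_option autoImplicit false

/-!
Second moments on the sphere; unitarily invariant measures in polar coordinates.
-/

namespace Pool.Agent.MPdb50ff

open MeasureTheory Metric Set

open scoped InnerProductSpace Pointwise

theorem norm_sph {n : ℕ} (ζ : sphere (0 : Cn n) 1) : ‖(ζ : Cn n)‖ = 1 := by simp

theorem inner_sq_integrable {n : ℕ} [NeZero n] (m : Cn n) :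
    Integrable (fun ζ : sphere (0 : Cn n) 1 => ‖⟪m, (ζ : Cn n)⟫_ℂ‖ ^ 2) (sigma n) := by
  have hc : Continuous (fun ζ : sphere (0 : Cn n) 1 => ‖⟪m, (ζ : Cn n)⟫_ℂ‖ ^ 2) := by fun_prop
  exact hc.integrable_of_hasCompactSupport (HasCompactSupport.of_compactSpace _)

theorem inner_sq_unit {n : ℕ} [NeZero n] {m : Cn n} (hm : ‖m‖ = 1) :
    ∫ ζ, ‖⟪m, (ζ : Cn n)⟫_ℂ‖ ^ 2 ∂(sigma n) = 1 / n := by
  have key : ∀ m' : Cn n, ‖m'‖ = 1 → ∫ ζ, ‖⟪m', (ζ : Cn n)⟫_ℂ‖ ^ 2 ∂(sigma n) =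
      ∫ ζ, ‖⟪m, (ζ : Cn n)⟫_ℂ‖ ^ 2 ∂(sigma n) := by
    intro m' hm'
    obtain ⟨U, hU⟩ := exists_unitary hm hm'
    rw [← sigma_integral_map U]
    congr 1
    ext ζ
    rw [coe_sphMap, ← hU, U.inner_map_map]
  set b := EuclideanSpace.basisFun (Fin n) ℂ with hb
  have hsum : ∑ i, ∫ ζ, ‖⟪b i, (ζ : Cn n)⟫_ℂ‖ ^ 2 ∂(sigma n) = 1 := by
    rw [← integral_finsetSum]
    · have : ∀ ζ : sphere (0 : Cn n) 1, ∑ i, ‖⟪b i, (ζ : Cn n)⟫_ℂ‖ ^ 2 = 1 := by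
        intro ζ
        rw [b.sum_sq_norm_inner_right, norm_sph, one_pow]
      simp [this]
    · intro i _
      exact inner_sq_integrable _
  have h2 : ∀ i, ∫ ζ, ‖⟪b i, (ζ : Cn n)⟫_ℂ‖ ^ 2 ∂(sigma n) =
      ∫ ζ, ‖⟪m, (ζ : Cn n)⟫_ℂ‖ ^ 2 ∂(sigma n) := fun i => key _ (b.orthonormal.1 i)
  simp_rw [h2] at hsum
  rw [Finset.sum_const, Finset.card_univ, Fintype.card_fin, nsmul_eq_mul] at hsum
  have hn : (n : ℝ) ≠ 0 := by exact_mod_cast NeZero.ne n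
  field_simp
  linarith

theorem inner_sq {n : ℕ} [NeZero n] (m : Cn n) :
    ∫ ζ, ‖⟪m, (ζ : Cn n)⟫_ℂ‖ ^ 2 ∂(sigma n) = ‖m‖ ^ 2 / n := by
  by_cases hm : m = 0
  · simp [hm]
  · have hm' : 0 < ‖m‖ := norm_pos_iff.2 hm
    have h1 : ‖((‖m‖ : ℂ)⁻¹ • m)‖ = 1 := by
      rw [norm_smul, norm_inv, Complex.norm_real, norm_norm, inv_mul_cancel₀ hm'.ne']
    have h2 := inner_sq_unit h1
    have h3 : ∀ ζ : sphere (0 : Cn n) 1, ‖⟪m, (ζ : Cn n)⟫_ℂ‖ ^ 2 =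
        ‖m‖ ^ 2 * ‖⟪((‖m‖ : ℂ)⁻¹ • m), (ζ : Cn n)⟫_ℂ‖ ^ 2 := by
      intro ζ
      rw [inner_smul_left, norm_mul, RCLike.norm_conj, norm_inv, Complex.norm_real, norm_norm]
      field_simp
    simp_rw [h3]
    rw [integral_const_mul, h2]
    ring

theorem inner_pow_zero {n : ℕ} [NeZero n] (m : Cn n) {k : ℕ} (hk : k ≠ 0) :
    ∫ ζ, ⟪m, (ζ : Cn n)⟫_ℂ ^ k ∂(sigma n) = 0 := by
  have h1 := mean_value (n := n) (F := fun w => ⟪m, w⟫_ℂ ^ k) (r := 1 / 2) (by norm_num) (by norm_num)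
    (by
      apply DifferentiableOn.pow
      exact (innerSL ℂ m).differentiable.differentiableOn)
  simp only [inner_zero_right] at h1
  rw [zero_pow hk] at h1
  have h2 : ∀ ζ : sphere (0 : Cn n) 1, ⟪m, ((1 / 2 : ℝ) • (ζ : Cn n))⟫_ℂ ^ k =
      ((1 / 2 : ℂ) ^ k) * ⟪m, (ζ : Cn n)⟫_ℂ ^ k := by
    intro ζ
    rw [← Complex.coe_smul, inner_smul_right, mul_pow]
    norm_num
  simp_rw [h2] at h1
  rw [integral_const_mul] at h1
  have h3 : ((1 / 2 : ℂ) ^ k) ≠ 0 := pow_ne_zero _ (by norm_num)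
  exact (mul_eq_zero.1 h1).resolve_left h3

/-- second moment of the real part of a linear form -/
theorem re_inner_sq {n : ℕ} [NeZero n] (m : Cn n) :
    ∫ ζ, (2 * (⟪m, (ζ : Cn n)⟫_ℂ).re) ^ 2 ∂(sigma n) = 2 * ‖m‖ ^ 2 / n := by
  have h1 : ∀ ζ : sphere (0 : Cn n) 1, (2 * (⟪m, (ζ : Cn n)⟫_ℂ).re) ^ 2 =
      2 * ‖⟪m, (ζ : Cn n)⟫_ℂ‖ ^ 2 + 2 * (⟪m, (ζ : Cn n)⟫_ℂ ^ 2).re := by
    intro ζ
    rw [← Complex.normSq_eq_norm_sq, Complex.normSq_apply, sq (⟪m, (ζ : Cn n)⟫_ℂ), Complex.mul_re]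
    ring
  simp_rw [h1]
  have hi2 : Integrable (fun ζ : sphere (0 : Cn n) 1 => (⟪m, (ζ : Cn n)⟫_ℂ) ^ 2) (sigma n) := by
    have hc : Continuous (fun ζ : sphere (0 : Cn n) 1 => (⟪m, (ζ : Cn n)⟫_ℂ) ^ 2) := by fun_prop
    exact hc.integrable_of_hasCompactSupport (HasCompactSupport.of_compactSpace _)
  have hi3 : Integrable (fun ζ : sphere (0 : Cn n) 1 => 2 * ((⟪m, (ζ : Cn n)⟫_ℂ) ^ 2).re) (sigma n) :=
    hi2.re.const_mul 2
  rw [integral_add ((inner_sq_integrable m).const_mul 2) hi3,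
    integral_const_mul, integral_const_mul, inner_sq]
  have h2 : ∫ ζ : sphere (0 : Cn n) 1, (⟪m, (ζ : Cn n)⟫_ℂ ^ 2).re ∂(sigma n) = 0 := by
    have := integral_re hi2
    simp only [RCLike.re_to_complex] at this
    rw [this, inner_pow_zero m two_ne_zero]
    simp
  rw [h2]
  ring

/-! ### invariant measures -/

/-- averaged kernel -/
noncomputable def ker (n : ℕ) (δ : ℝ) (z : Cn n) (ζ : sphere (0 : Cn n) 1) : ℝ :=
  if ‖z - ‖z‖ • (ζ : Cn n)‖ ≤ δ * ‖z‖ then 1 else 0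

theorem ker_measurable (n : ℕ) (δ : ℝ) :
    Measurable (fun p : Cn n × sphere (0 : Cn n) 1 => ker n δ p.1 p.2) := by
  unfold ker
  apply Measurable.ite
  · apply measurableSet_le
    · fun_prop
    · fun_prop
  · exact measurable_const
  · exact measurable_const

theorem ker_map (n : ℕ) (δ : ℝ) (U : Cn n ≃ₗᵢ[ℂ] Cn n) (z : Cn n) (ζ : sphere (0 : Cn n) 1) :
    ker n δ (U z) (sphMap U ζ) = ker n δ z ζ := by
  unfold ker
  have h1 : U z - ‖U z‖ • ((sphMap U ζ : sphere (0 : Cn n) 1) : Cn n) = U (z - ‖z‖ • (ζ : Cn n)) := by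
    rw [map_sub, coe_sphMap, U.norm_map]
    congr 1
    exact ((toRealIso U).map_smul ‖z‖ (ζ : Cn n)).symm
  rw [h1, U.norm_map, U.norm_map]

theorem ker_nonneg (n : ℕ) (δ : ℝ) (z : Cn n) (ζ : sphere (0 : Cn n) 1) : 0 ≤ ker n δ z ζ := by
  unfold ker; split_ifs <;> norm_num

theorem ker_le_one (n : ℕ) (δ : ℝ) (z : Cn n) (ζ : sphere (0 : Cn n) 1) : ker n δ z ζ ≤ 1 := by
  unfold ker; split_ifs <;> norm_num

/-- total mass of the kernel -/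
noncomputable def kerC (n : ℕ) (δ : ℝ) (z : Cn n) : ℝ := ∫ ζ, ker n δ z ζ ∂(sigma n)

theorem kerC_map (n : ℕ) (δ : ℝ) (U : Cn n ≃ₗᵢ[ℂ] Cn n) (z : Cn n) :
    kerC n δ (U z) = kerC n δ z := by
  unfold kerC
  rw [← sigma_integral_map U]
  simp_rw [ker_map]

instance sigma_openPos {n : ℕ} [NeZero n] : (sigma n).IsOpenPosMeasure := by
  constructor
  intro U hU hne
  unfold sigma
  rw [Measure.smul_apply, smul_eq_mul]
  apply mul_ne_zero
  · exact ENNReal.inv_ne_zero.2 (measure_ne_top _ _)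
  · exact hU.measure_ne_zero _ hne

theorem ker_smul (n : ℕ) (δ : ℝ) {t : ℝ} (ht : 0 < t) (z : Cn n) (ζ : sphere (0 : Cn n) 1) :
    ker n δ (t • z) ζ = ker n δ z ζ := by
  unfold ker
  have h1 : t • z - ‖t • z‖ • (ζ : Cn n) = t • (z - ‖z‖ • (ζ : Cn n)) := by
    rw [norm_smul, Real.norm_of_nonneg ht.le, smul_sub, smul_smul]
  rw [h1, norm_smul, norm_smul, Real.norm_of_nonneg ht.le]
  have h2 : t * ‖z - ‖z‖ • (ζ : Cn n)‖ ≤ δ * (t * ‖z‖) ↔ ‖z - ‖z‖ • (ζ : Cn n)‖ ≤ δ * ‖z‖ := by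
    constructor
    · intro h
      have : t * ‖z - ‖z‖ • (ζ : Cn n)‖ ≤ t * (δ * ‖z‖) := by linarith
      exact le_of_mul_le_mul_left this ht
    · intro h
      have := mul_le_mul_of_nonneg_left h ht.le
      linarith
  simp only [h2]

theorem ker_integrable (n : ℕ) [NeZero n] (δ : ℝ) (z : Cn n) :
    Integrable (fun ζ => ker n δ z ζ) (sigma n) := by
  refine Integrable.of_bound ?_ 1 (Filter.Eventually.of_forall fun ζ => ?_)
  · exact ((ker_measurable n δ).comp (measurable_const.prodMk measurable_id)).aestronglyMeasurable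
  · rw [Real.norm_of_nonneg (ker_nonneg _ _ _ _)]
    exact ker_le_one _ _ _ _

theorem kerC_unit_pos {n : ℕ} [NeZero n] {δ : ℝ} (hδ : 0 < δ) {z : Cn n} (hz : ‖z‖ = 1) :
    0 < kerC n δ z := by
  unfold kerC
  rw [integral_pos_iff_support_of_nonneg (fun ζ => ker_nonneg _ _ _ _) (ker_integrable n δ z)]
  have hsub : {ζ : sphere (0 : Cn n) 1 | ‖z - (ζ : Cn n)‖ < δ} ⊆ Function.support (fun ζ => ker n δ z ζ) := by
    intro ζ hζ
    have hζ' : ‖z - (ζ : Cn n)‖ < δ := hζ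
    rw [Function.mem_support]
    unfold ker
    rw [if_pos]
    · norm_num
    · rw [hz, one_smul, mul_one]
      exact hζ'.le
  refine lt_of_lt_of_le ?_ (measure_mono hsub)
  apply IsOpen.measure_pos
  · apply isOpen_lt <;> fun_prop
  · exact ⟨⟨z, by simpa using hz⟩, by simpa using hδ⟩

theorem kerC_lower {n : ℕ} [NeZero n] {δ : ℝ} (hδ : 0 < δ) :
    ∃ c : ℝ, 0 < c ∧ ∀ z : Cn n, c ≤ kerC n δ z := by
  obtain ⟨e, he⟩ : ∃ e : Cn n, ‖e‖ = 1 := ⟨EuclideanSpace.single 0 1, by simp⟩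
  refine ⟨min 1 (kerC n δ e), lt_min one_pos (kerC_unit_pos hδ he), fun z => ?_⟩
  by_cases hz : z = 0
  · subst hz
    have : ∀ ζ, ker n δ (0 : Cn n) ζ = 1 := by
      intro ζ
      unfold ker
      simp
    have h2 : kerC n δ (0 : Cn n) = 1 := by
      unfold kerC
      simp [this]
    rw [h2]
    exact min_le_left _ _
  · have hz' : 0 < ‖z‖ := norm_pos_iff.2 hz
    have h1 : ‖(‖z‖⁻¹ • z)‖ = 1 := by
      rw [norm_smul, norm_inv, norm_norm, inv_mul_cancel₀ hz'.ne']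
    obtain ⟨U, hU⟩ := exists_unitary he h1
    have h2 : kerC n δ z = kerC n δ e := by
      rw [← kerC_map n δ U e, hU]
      unfold kerC
      simp_rw [ker_smul n δ (inv_pos.2 hz') z]
    rw [h2]
    exact min_le_right _ _

theorem kerC_measurable (n : ℕ) [NeZero n] (δ : ℝ) : Measurable (kerC n δ) := by
  have h : StronglyMeasurable (fun p : Cn n × sphere (0 : Cn n) 1 => ker n δ p.1 p.2) :=
    (ker_measurable n δ).stronglyMeasurable
  exact h.integral_prod_right.measurable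

end Pool.Agent.MPdb50ff
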