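import Mathlib
import Pool.Agent.Lib.MP_db50ff_an.Defs
import Pool.Agent.Lib.MP_db50ff_an.A1
import Pool.Agent.Lib.MP_db50ff_an.A2

set_option autoImplicit false

/-!
A unitarily invariant finite measure on `ℂ^n` is determined by its radial part.
-/

namespace Pool.Agent.MPdb50ff

open MeasureTheory Metric Set Filter Topology

open scoped InnerProductSpace Pointwise BoundedContinuousFunction

/-- the random vector `‖z‖ • ζ` -/
noncomputable def polarMap (n : ℕ) (p : Cn n × sphere (0 : Cn n) 1) : Cn n := ‖p.1‖ • (p.2 : Cn n)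

theorem polarMap_continuous (n : ℕ) : Continuous (polarMap n) := by
  unfold polarMap; fun_prop

theorem polar_integral {n : ℕ} [NeZero n] (μ : Measure (Cn n)) [IsFiniteMeasure μ]
    (hμ : ∀ U : Cn n ≃ₗᵢ[ℂ] Cn n, Measure.map (fun z => U z) μ = μ) (u : Cn n →ᵇ ℝ) {δ : ℝ} (hδ : 0 < δ) :
    ∫ z, ((kerC n δ z)⁻¹ * ∫ ζ, u (polarMap n (z, ζ)) * ker n δ z ζ ∂(sigma n)) ∂μ =
      ∫ p, u (polarMap n p) ∂(μ.prod (sigma n)) := by
  obtain ⟨c, hc0, hc⟩ := kerC_lower (n := n) hδ
  have hCpos : ∀ z, 0 < kerC n δ z := fun z => hc0.trans_le (hc z)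
  have hCinv : ∀ z, |(kerC n δ z)⁻¹| ≤ c⁻¹ := by
    intro z
    rw [abs_of_pos (inv_pos.2 (hCpos z))]
    exact inv_anti₀ hc0 (hc z)
  have humeas : Measurable (fun p : Cn n × sphere (0 : Cn n) 1 => u (polarMap n p)) :=
    (u.continuous.comp (polarMap_continuous n)).measurable
  -- the three-variable function
  have hJ : ∀ ζ ζ' ζ'' : sphere (0 : Cn n) 1,
      ∫ z, (kerC n δ z)⁻¹ * (u (polarMap n (z, ζ)) * ker n δ z ζ') ∂μ =
      ∫ z, (kerC n δ z)⁻¹ * (u (polarMap n (z, ζ)) * ker n δ z ζ'') ∂μ := by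
    intro ζ ζ' ζ''
    obtain ⟨U, hU⟩ := exists_unitary (norm_sph ζ') (norm_sph ζ'')
    have hU' : sphMap U ζ' = ζ'' := by ext1; exact hU
    conv_rhs => rw [← hμ U]
    have hemb : MeasurableEmbedding (fun z => U z) := U.toHomeomorph.measurableEmbedding
    rw [hemb.integral_map]
    congr 1
    ext z
    rw [kerC_map, ← hU', ker_map]
    congr 3
    unfold polarMap
    simp only [U.norm_map]
  have hint2 : Integrable (fun p : Cn n × sphere (0 : Cn n) 1 =>
      (kerC n δ p.1)⁻¹ * (u (polarMap n (p.1, p.2)) * ker n δ p.1 p.2)) (μ.prod (sigma n)) := by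
    refine Integrable.of_bound (C := c⁻¹ * (‖u‖ * 1)) ?_ (Eventually.of_forall fun p => ?_)
    · exact ((((kerC_measurable n δ).comp measurable_fst).inv).mul
        (humeas.mul (ker_measurable n δ))).aestronglyMeasurable
    · rw [norm_mul, norm_mul]
      have h1 := hCinv p.1
      have h2 := u.norm_coe_le_norm (polarMap n (p.1, p.2))
      have h3 : ‖ker n δ p.1 p.2‖ ≤ 1 := by
        rw [Real.norm_of_nonneg (ker_nonneg _ _ _ _)]; exact ker_le_one _ _ _ _
      gcongr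
      exact h1
  have hint2' : ∀ ζ : sphere (0 : Cn n) 1, Integrable (Function.uncurry fun (z : Cn n) (ζ' : sphere (0 : Cn n) 1) =>
      (kerC n δ z)⁻¹ * (u (polarMap n (z, ζ)) * ker n δ z ζ')) (μ.prod (sigma n)) := by
    intro ζ
    refine Integrable.of_bound (C := c⁻¹ * (‖u‖ * 1)) ?_ (Eventually.of_forall fun p => ?_)
    · exact ((((kerC_measurable n δ).comp measurable_fst).inv).mul
        ((humeas.comp (measurable_fst.prodMk measurable_const)).mul (ker_measurable n δ))).aestronglyMeasurable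
    · show ‖(kerC n δ p.1)⁻¹ * (u (polarMap n (p.1, ζ)) * ker n δ p.1 p.2)‖ ≤ _
      rw [norm_mul, norm_mul]
      have h1 := hCinv p.1
      have h2 := u.norm_coe_le_norm (polarMap n (p.1, ζ))
      have h3 : ‖ker n δ p.1 p.2‖ ≤ 1 := by
        rw [Real.norm_of_nonneg (ker_nonneg _ _ _ _)]; exact ker_le_one _ _ _ _
      gcongr
      exact h1
  have hint3 : Integrable (fun p : Cn n × sphere (0 : Cn n) 1 => u (polarMap n p)) (μ.prod (sigma n)) := by
    refine Integrable.of_bound (C := ‖u‖) humeas.aestronglyMeasurable (Eventually.of_forall fun p => ?_)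
    exact u.norm_coe_le_norm _
  calc ∫ z, ((kerC n δ z)⁻¹ * ∫ ζ, u (polarMap n (z, ζ)) * ker n δ z ζ ∂(sigma n)) ∂μ
      = ∫ z, ∫ ζ, (kerC n δ z)⁻¹ * (u (polarMap n (z, ζ)) * ker n δ z ζ) ∂(sigma n) ∂μ := by
        simp_rw [integral_const_mul]
    _ = ∫ ζ, ∫ z, (kerC n δ z)⁻¹ * (u (polarMap n (z, ζ)) * ker n δ z ζ) ∂μ ∂(sigma n) := by
        exact integral_integral_swap hint2
    _ = ∫ ζ, ∫ ζ', ∫ z, (kerC n δ z)⁻¹ * (u (polarMap n (z, ζ)) * ker n δ z ζ') ∂μ ∂(sigma n) ∂(sigma n) := by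
        congr 1
        ext ζ
        rw [integral_congr_ae (g := fun _ => ∫ z, (kerC n δ z)⁻¹ * (u (polarMap n (z, ζ)) * ker n δ z ζ) ∂μ)
          (Eventually.of_forall fun ζ' => hJ ζ ζ' ζ)]
        simp
    _ = ∫ ζ, ∫ z, ∫ ζ', (kerC n δ z)⁻¹ * (u (polarMap n (z, ζ)) * ker n δ z ζ') ∂(sigma n) ∂μ ∂(sigma n) := by
        congr 1
        ext ζ
        exact (integral_integral_swap (hint2' ζ)).symm
    _ = ∫ ζ, ∫ z, u (polarMap n (z, ζ)) ∂μ ∂(sigma n) := by
        congr 1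
        ext ζ
        congr 1
        ext z
        rw [integral_const_mul, integral_const_mul]
        have : ∫ ζ', ker n δ z ζ' ∂(sigma n) = kerC n δ z := rfl
        rw [this]
        field_simp [(hCpos z).ne']
    _ = ∫ p, u (polarMap n p) ∂(μ.prod (sigma n)) := by
        rw [integral_prod_symm _ hint3]

theorem polar_tendsto {n : ℕ} [NeZero n] (μ : Measure (Cn n)) [IsFiniteMeasure μ] (u : Cn n →ᵇ ℝ) :
    Tendsto (fun k : ℕ => ∫ z, ((kerC n (1 / ((k : ℝ) + 1)) z)⁻¹ *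
      ∫ ζ, u (polarMap n (z, ζ)) * ker n (1 / ((k : ℝ) + 1)) z ζ ∂(sigma n)) ∂μ) atTop
      (𝓝 (∫ z, u z ∂μ)) := by
  have hδ : ∀ k : ℕ, (0 : ℝ) < 1 / ((k : ℝ) + 1) := fun k => by positivity
  have hCpos : ∀ (k : ℕ) z, 0 < kerC n (1 / ((k : ℝ) + 1)) z := by
    intro k z
    obtain ⟨c, hc0, hc⟩ := kerC_lower (n := n) (hδ k)
    exact hc0.trans_le (hc z)
  have humeas : Measurable (fun p : Cn n × sphere (0 : Cn n) 1 => u (polarMap n p)) :=
    (u.continuous.comp (polarMap_continuous n)).measurable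
  have hint : ∀ (k : ℕ) z, Integrable (fun ζ => u (polarMap n (z, ζ)) * ker n (1 / ((k : ℝ) + 1)) z ζ)
      (sigma n) := by
    intro k z
    refine Integrable.of_bound (C := ‖u‖ * 1) ?_ (Eventually.of_forall fun ζ => ?_)
    · exact ((humeas.comp (measurable_const.prodMk measurable_id)).mul
        ((ker_measurable n _).comp (measurable_const.prodMk measurable_id))).aestronglyMeasurable
    · rw [norm_mul]
      have h2 := u.norm_coe_le_norm (polarMap n (z, ζ))
      have h3 : ‖ker n (1 / ((k : ℝ) + 1)) z ζ‖ ≤ 1 := by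
        rw [Real.norm_of_nonneg (ker_nonneg _ _ _ _)]; exact ker_le_one _ _ _ _
      gcongr
  -- key estimate
  have key : ∀ (k : ℕ) (z : Cn n) (η : ℝ), (∀ w : Cn n, ‖z - w‖ ≤ (1 / ((k : ℝ) + 1)) * ‖z‖ →
      |u w - u z| ≤ η) → |(kerC n (1 / ((k : ℝ) + 1)) z)⁻¹ *
      ∫ ζ, u (polarMap n (z, ζ)) * ker n (1 / ((k : ℝ) + 1)) z ζ ∂(sigma n) - u z| ≤ η := by
    intro k z η hη
    have h1 : (kerC n (1 / ((k : ℝ) + 1)) z)⁻¹ *
        ∫ ζ, u (polarMap n (z, ζ)) * ker n (1 / ((k : ℝ) + 1)) z ζ ∂(sigma n) - u z =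
        (kerC n (1 / ((k : ℝ) + 1)) z)⁻¹ *
        ∫ ζ, (u (polarMap n (z, ζ)) - u z) * ker n (1 / ((k : ℝ) + 1)) z ζ ∂(sigma n) := by
      have h2 : ∀ ζ, (u (polarMap n (z, ζ)) - u z) * ker n (1 / ((k : ℝ) + 1)) z ζ =
          u (polarMap n (z, ζ)) * ker n (1 / ((k : ℝ) + 1)) z ζ - u z * ker n (1 / ((k : ℝ) + 1)) z ζ := by
        intro ζ; ring
      simp_rw [h2]
      rw [integral_sub (hint k z) ((ker_integrable n _ z).const_mul _), integral_const_mul]
      have h3 : ∫ ζ, ker n (1 / ((k : ℝ) + 1)) z ζ ∂(sigma n) = kerC n (1 / ((k : ℝ) + 1)) z := rfl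
      rw [h3]
      have h5 := (hCpos k z).ne'
      rw [mul_sub, ← mul_assoc, mul_comm _ (u z), mul_assoc, inv_mul_cancel₀ h5, mul_one]
    rw [h1, abs_mul, abs_of_pos (inv_pos.2 (hCpos k z))]
    have h4 : |∫ ζ, (u (polarMap n (z, ζ)) - u z) * ker n (1 / ((k : ℝ) + 1)) z ζ ∂(sigma n)| ≤
        ∫ ζ, η * ker n (1 / ((k : ℝ) + 1)) z ζ ∂(sigma n) := by
      rw [← Real.norm_eq_abs]
      apply norm_integral_le_of_norm_le ((ker_integrable n _ z).const_mul _)
      refine Eventually.of_forall fun ζ => ?_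
      rw [norm_mul, Real.norm_eq_abs, Real.norm_of_nonneg (ker_nonneg _ _ _ _)]
      unfold ker
      split_ifs with h
      · rw [mul_one, mul_one]
        exact hη _ h
      · simp
    rw [integral_const_mul] at h4
    have h3 : ∫ ζ, ker n (1 / ((k : ℝ) + 1)) z ζ ∂(sigma n) = kerC n (1 / ((k : ℝ) + 1)) z := rfl
    rw [h3] at h4
    calc _ ≤ (kerC n (1 / ((k : ℝ) + 1)) z)⁻¹ * (η * kerC n (1 / ((k : ℝ) + 1)) z) :=
          mul_le_mul_of_nonneg_left h4 (inv_pos.2 (hCpos k z)).le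
      _ = η := by
          have h5 := (hCpos k z).ne'
          rw [mul_comm η, ← mul_assoc, inv_mul_cancel₀ h5, one_mul]
  apply tendsto_integral_of_dominated_convergence (fun _ => 3 * ‖u‖)
  · intro k
    have hm : StronglyMeasurable (fun p : Cn n × sphere (0 : Cn n) 1 =>
        u (polarMap n (p.1, p.2)) * ker n (1 / ((k : ℝ) + 1)) p.1 p.2) :=
      (humeas.mul (ker_measurable n _)).stronglyMeasurable
    exact ((kerC_measurable n _).inv.mul hm.integral_prod_right.measurable).aestronglyMeasurable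
  · exact integrable_const _
  · intro k
    refine Eventually.of_forall fun z => ?_
    have h1 := key k z (2 * ‖u‖) (by
      intro w _
      have h1 := u.norm_coe_le_norm w
      have h2 := u.norm_coe_le_norm z
      rw [Real.norm_eq_abs] at h1 h2
      calc |u w - u z| ≤ |u w| + |u z| := abs_sub _ _
        _ ≤ _ := by linarith)
    have h2 := u.norm_coe_le_norm z
    rw [Real.norm_eq_abs] at h2 ⊢
    have h3 := abs_sub_abs_le_abs_sub ((kerC n (1 / ((k : ℝ) + 1)) z)⁻¹ *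
      ∫ ζ, u (polarMap n (z, ζ)) * ker n (1 / ((k : ℝ) + 1)) z ζ ∂(sigma n)) (u z)
    linarith
  · refine Eventually.of_forall fun z => ?_
    rw [Metric.tendsto_atTop]
    intro ε hε
    obtain ⟨d, hd, hcont⟩ := Metric.continuous_iff.1 u.continuous z (ε / 2) (half_pos hε)
    obtain ⟨N, hN⟩ := exists_nat_gt ((‖z‖ + 1) / d)
    refine ⟨N, fun k hk => ?_⟩
    rw [Real.dist_eq]
    refine lt_of_le_of_lt (key k z (ε / 2) ?_) (half_lt_self hε)
    intro w hw
    have hk' : (‖z‖ + 1) / d < (k : ℝ) + 1 := by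
      have : (N : ℝ) ≤ k := by exact_mod_cast hk
      linarith
    have h1 : dist w z < d := by
      rw [dist_comm, dist_eq_norm]
      refine lt_of_le_of_lt hw ?_
      rw [div_mul_eq_mul_div, one_mul, div_lt_iff₀ (by positivity)]
      rw [div_lt_iff₀ hd] at hk'
      linarith
    have h2 := hcont w h1
    rw [Real.dist_eq] at h2
    exact h2.le

/-- A unitarily invariant finite measure is the law of `‖z‖ • ζ`, with `ζ` independent and
uniformly distributed on the sphere. -/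
theorem polar {n : ℕ} [NeZero n] (μ : Measure (Cn n)) [IsFiniteMeasure μ]
    (hμ : ∀ U : Cn n ≃ₗᵢ[ℂ] Cn n, Measure.map (fun z => U z) μ = μ) :
    Measure.map (polarMap n) (μ.prod (sigma n)) = μ := by
  have hm : Measurable (polarMap n) := (polarMap_continuous n).measurable
  have : IsFiniteMeasure (Measure.map (polarMap n) (μ.prod (sigma n))) := by infer_instance
  apply ext_of_forall_integral_eq_of_IsFiniteMeasure
  intro u
  rw [integral_map hm.aemeasurable u.continuous.aestronglyMeasurable]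
  have h1 := polar_tendsto μ u
  have h2 : ∀ k : ℕ, ∫ z, ((kerC n (1 / ((k : ℝ) + 1)) z)⁻¹ *
      ∫ ζ, u (polarMap n (z, ζ)) * ker n (1 / ((k : ℝ) + 1)) z ζ ∂(sigma n)) ∂μ =
      ∫ p, u (polarMap n p) ∂(μ.prod (sigma n)) := fun k =>
    polar_integral μ hμ u (by positivity)
  simp_rw [h2] at h1
  exact tendsto_nhds_unique tendsto_const_nhds h1

end Pool.Agent.MPdb50ff
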