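import Mathlib
import Pool.Agent.Lib.MP_db50ff_an.Defs
import Pool.Agent.Lib.MP_db50ff_an.A1
import Pool.Agent.Lib.MP_db50ff_an.A2

set_option autoImplicit false

/-!
The automorphism `w ↦ phi z w` of the unit ball of `ℂ^n` taking `0` to `z`.
-/

namespace Pool.Agent.MPdb50ff

open MeasureTheory Metric Set Filter Topology

open scoped InnerProductSpace ComplexConjugate

/-- `√(1 - ‖z‖²)` -/
noncomputable def sz {n : ℕ} (z : Cn n) : ℝ := Real.sqrt (1 - ‖z‖ ^ 2)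

/-- numerator of the automorphism -/
noncomputable def phiN {n : ℕ} (z w : Cn n) : Cn n :=
  (1 + ⟪z, w⟫_ℂ / (1 + (sz z : ℂ))) • z + (sz z : ℂ) • w

/-- automorphism of the ball with `phi z 0 = z` -/
noncomputable def phi {n : ℕ} (z w : Cn n) : Cn n := (1 + ⟪z, w⟫_ℂ)⁻¹ • phiN z w

theorem sz_nonneg {n : ℕ} (z : Cn n) : 0 ≤ sz z := Real.sqrt_nonneg _

theorem sz_sq {n : ℕ} {z : Cn n} (hz : ‖z‖ < 1) : sz z ^ 2 = 1 - ‖z‖ ^ 2 := by
  unfold sz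
  rw [Real.sq_sqrt]
  nlinarith [norm_nonneg z]

theorem phi_zero {n : ℕ} (z : Cn n) : phi z 0 = z := by
  simp [phi, phiN]

theorem one_add_inner_ne {n : ℕ} {z w : Cn n} (hz : ‖z‖ < 1) (hw : ‖w‖ < 1) :
    1 + ⟪z, w⟫_ℂ ≠ 0 := by
  intro h
  have h1 : ⟪z, w⟫_ℂ = -1 := by linear_combination h
  have h2 := norm_inner_le_norm (𝕜 := ℂ) z w
  rw [h1, norm_neg, norm_one] at h2
  nlinarith [norm_nonneg z, norm_nonneg w]

theorem phiN_norm {n : ℕ} {z w : Cn n} (hz : ‖z‖ < 1) :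
    ‖1 + ⟪z, w⟫_ℂ‖ ^ 2 - ‖phiN z w‖ ^ 2 = (1 - ‖z‖ ^ 2) * (1 - ‖w‖ ^ 2) := by
  set s : ℝ := sz z with hs
  set q : ℂ := ⟪z, w⟫_ℂ with hq
  have hs0 : 0 ≤ s := sz_nonneg z
  have hs2 : ‖z‖ ^ 2 = 1 - s ^ 2 := by rw [hs, sz_sq hz]; ring
  have h1s : (1 + (s : ℂ)) ≠ 0 := by
    have : ((1 + s : ℝ) : ℂ) ≠ 0 := by exact_mod_cast (by positivity : (1 + s : ℝ) ≠ 0)
    simpa using this
  have hN : ‖phiN z w‖ ^ 2 = ‖1 + q / (1 + (s : ℂ))‖ ^ 2 * ‖z‖ ^ 2 +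
      2 * (conj (1 + q / (1 + (s : ℂ))) * ((s : ℂ) * q)).re + s ^ 2 * ‖w‖ ^ 2 := by
    unfold phiN
    rw [@norm_add_sq ℂ, norm_smul, norm_smul, inner_smul_left, inner_smul_right, mul_pow, mul_pow,
      Complex.norm_real, Real.norm_of_nonneg (sz_nonneg z)]
    rfl
  rw [hN, hs2]
  have e1 : ‖1 + q‖ ^ 2 = (1 + q.re) ^ 2 + q.im ^ 2 := by
    rw [← Complex.normSq_eq_norm_sq, Complex.normSq_apply]; simp; ring
  have hs1 : (1 + s) ≠ 0 := by positivity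
  obtain ⟨t, ht⟩ : ∃ t : ℝ, t = (1 + s)⁻¹ := ⟨_, rfl⟩
  have hts : t * (1 + s) = 1 := by rw [ht]; exact inv_mul_cancel₀ hs1
  have hdiv : q / (1 + (s : ℂ)) = (t : ℂ) * q := by
    rw [ht]; push_cast; field_simp
  have e2 : ‖1 + q / (1 + (s : ℂ))‖ ^ 2 = (1 + t * q.re) ^ 2 + (t * q.im) ^ 2 := by
    rw [hdiv, ← Complex.normSq_eq_norm_sq, Complex.normSq_apply]; simp; ring
  have e3 : (conj (1 + q / (1 + (s : ℂ))) * ((s : ℂ) * q)).re =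
      s * ((1 + t * q.re) * q.re + t * q.im * q.im) := by
    rw [hdiv]; simp; ring
  rw [e1, e2, e3]
  linear_combination (-(2 * q.re * (1 - s) + (q.re ^ 2 + q.im ^ 2) * (1 + t * (1 - s)))) * hts

theorem phi_norm {n : ℕ} {z w : Cn n} (hz : ‖z‖ < 1) (hw : ‖w‖ < 1) :
    1 - ‖phi z w‖ ^ 2 = (1 - ‖z‖ ^ 2) * (1 - ‖w‖ ^ 2) / ‖1 + ⟪z, w⟫_ℂ‖ ^ 2 := by
  have h0 : ‖1 + ⟪z, w⟫_ℂ‖ ≠ 0 := norm_ne_zero_iff.2 (one_add_inner_ne hz hw)
  have h1 := phiN_norm (w := w) hz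
  unfold phi
  rw [norm_smul, norm_inv, mul_pow, ← h1]
  field_simp

theorem phi_lt_one {n : ℕ} {z w : Cn n} (hz : ‖z‖ < 1) (hw : ‖w‖ < 1) : ‖phi z w‖ < 1 := by
  have h1 := phi_norm hz hw
  have h0 : ‖1 + ⟪z, w⟫_ℂ‖ ≠ 0 := norm_ne_zero_iff.2 (one_add_inner_ne hz hw)
  have h2 : 0 < (1 - ‖z‖ ^ 2) * (1 - ‖w‖ ^ 2) / ‖1 + ⟪z, w⟫_ℂ‖ ^ 2 := by
    have a1 : 0 < 1 - ‖z‖ ^ 2 := by nlinarith [norm_nonneg z]
    have a2 : 0 < 1 - ‖w‖ ^ 2 := by nlinarith [norm_nonneg w]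
    positivity
  rw [← h1] at h2
  nlinarith [norm_nonneg (phi z w)]

theorem sz_map {n : ℕ} (U : Cn n ≃ₗᵢ[ℂ] Cn n) (z : Cn n) : sz (U z) = sz z := by
  unfold sz; rw [U.norm_map]

theorem phi_map {n : ℕ} (U : Cn n ≃ₗᵢ[ℂ] Cn n) (z w : Cn n) : phi (U z) (U w) = U (phi z w) := by
  unfold phi phiN
  rw [U.inner_map_map, sz_map, map_smul, map_add, map_smul, map_smul]

theorem phi_differentiableOn {n : ℕ} {z : Cn n} (hz : ‖z‖ < 1) :
    DifferentiableOn ℂ (fun w => phi z w) (ball 0 1) := by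
  have hin : Differentiable ℂ (fun w : Cn n => ⟪z, w⟫_ℂ) := (innerSL ℂ z).differentiable
  unfold phi phiN
  apply DifferentiableOn.fun_smul
  · apply DifferentiableOn.inv
    · exact (hin.const_add 1).differentiableOn
    · intro w hw
      rw [mem_ball_zero_iff] at hw
      exact one_add_inner_ne hz hw
  · apply Differentiable.differentiableOn
    have h1 : Differentiable ℂ (fun w : Cn n => (1 + ⟪z, w⟫_ℂ / (1 + (sz z : ℂ))) • z) := by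
      apply Differentiable.smul_const
      have := hin.mul_const ((1 + (sz z : ℂ))⁻¹)
      simpa only [div_eq_mul_inv] using this.const_add 1
    have h2 : Differentiable ℂ (fun w : Cn n => (sz z : ℂ) • w) := by fun_prop
    exact h1.add h2

theorem phi_measurable {n : ℕ} : Measurable (fun p : Cn n × Cn n => phi p.1 p.2) := by
  unfold phi phiN sz
  fun_prop

end Pool.Agent.MPdb50ff
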