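import Mathlib
import Pool.Agent.Lib.MP_db50ff_an.Defs
import Pool.Agent.Lib.MP_db50ff_an.A1
import Pool.Agent.Lib.MP_db50ff_an.A2
import Pool.Agent.Lib.MP_db50ff_an.A4

set_option autoImplicit false

/-!
Expansion of `V = -n log(1-|f|^2) + log(1-|z|^2)` along the automorphism `phi z`.
-/

namespace Pool.Agent.MPdb50ff

open MeasureTheory Metric Set Filter Topology

open scoped InnerProductSpace ComplexConjugate

/-- the function `V = log ((1-|z|^2) / (1-|f|^2)^n)` -/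
noncomputable def VV (n : ℕ) (f : Cn n → ℂ) (z : Cn n) : ℝ :=
  -(n : ℝ) * Real.log (1 - ‖f z‖ ^ 2) + Real.log (1 - ‖z‖ ^ 2)

/-- Schwarz lemma to second order. -/
theorem schwarz_second {n : ℕ} {g : Cn n → ℂ} (hg : DifferentiableOn ℂ g (ball 0 1))
    (hb : ∀ w ∈ ball (0 : Cn n) 1, ‖g w‖ ≤ 1) (h0 : g 0 = 0) :
    ∃ b : Cn n, ‖b‖ ≤ 1 ∧ ∀ w ∈ ball (0 : Cn n) 1, ‖g w - ⟪b, w⟫_ℂ‖ ≤ 2 * ‖w‖ ^ 2 := by
  set ℓ := fderiv ℂ g 0 with hℓ
  have hmaps : MapsTo g (ball 0 1) (closedBall (g 0) 1) := by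
    intro w hw
    rw [h0, mem_closedBall_zero_iff]
    exact hb w hw
  have hℓ1 : ‖ℓ‖ ≤ 1 := Complex.norm_fderiv_le_one_of_mapsTo_ball hg hmaps one_pos
  refine ⟨(InnerProductSpace.toDual ℂ (Cn n)).symm ℓ, by simpa using hℓ1, ?_⟩
  intro w hw
  rw [InnerProductSpace.toDual_symm_apply]
  have hh : DifferentiableOn ℂ (fun w => g w - ℓ w) (ball 0 1) :=
    hg.sub ℓ.differentiable.differentiableOn
  have hmaps2 : MapsTo (fun w => g w - ℓ w) (ball 0 1) (closedBall (g 0 - ℓ 0) 2) := by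
    intro w hw
    rw [h0, map_zero, sub_zero, mem_closedBall_zero_iff]
    have h1 := hb w hw
    have h2 : ‖ℓ w‖ ≤ 1 := by
      rw [mem_ball_zero_iff] at hw
      calc ‖ℓ w‖ ≤ ‖ℓ‖ * ‖w‖ := ℓ.le_opNorm w
        _ ≤ 1 * 1 := by gcongr
        _ = 1 := one_mul 1
    calc ‖g w - ℓ w‖ ≤ ‖g w‖ + ‖ℓ w‖ := norm_sub_le _ _
      _ ≤ 2 := by linarith
  have hdiff : HasFDerivAt g ℓ 0 :=
    ((hg 0 (by simp)).differentiableAt (ball_mem_nhds _ one_pos)).hasFDerivAt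
  have hlit : (fun w => (g w - ℓ w) - (g 0 - ℓ 0)) =o[𝓝 0] (fun w : Cn n => ‖w - 0‖ ^ 1) := by
    have h1 := hdiff.isLittleO
    simp only [sub_zero] at h1
    have h2 : (fun w => (g w - ℓ w) - (g 0 - ℓ 0)) = (fun w => g w - g 0 - ℓ w) := by
      ext w; rw [map_zero]; ring
    rw [h2]
    simp only [sub_zero, pow_one]
    exact h1.norm_right
  have := Complex.dist_le_mul_div_pow_of_mapsTo_ball_of_isLittleO (n := 1) hh hmaps2 hlit hw
  rw [dist_eq_norm, dist_eq_norm] at this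
  simpa [h0] using this

/-- the function `f ∘ phi z`, renormalised to vanish at `0` -/
noncomputable def gg {n : ℕ} (f : Cn n → ℂ) (z w : Cn n) : ℂ :=
  (f (phi z w) - f z) / (1 - conj (f z) * f (phi z w))

theorem moebius_ne {c F : ℂ} (hc : ‖c‖ < 1) (hF : ‖F‖ < 1) : 1 - conj c * F ≠ 0 := by
  intro h
  have h1 : conj c * F = 1 := by linear_combination -h
  have h2 : ‖c‖ * ‖F‖ = 1 := by
    rw [← RCLike.norm_conj c, ← norm_mul, h1, norm_one]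
  nlinarith [norm_nonneg c, norm_nonneg F]

theorem moebius_norm {c F : ℂ} :
    ‖1 - conj c * F‖ ^ 2 - ‖F - c‖ ^ 2 = (1 - ‖c‖ ^ 2) * (1 - ‖F‖ ^ 2) := by
  simp only [← Complex.normSq_eq_norm_sq, Complex.normSq_apply]
  simp
  ring

theorem gg_norm {n : ℕ} {f : Cn n → ℂ} (hfb : ∀ z ∈ ball (0 : Cn n) 1, ‖f z‖ < 1) {z w : Cn n}
    (hz : ‖z‖ < 1) (hw : ‖w‖ < 1) :
    1 - ‖gg f z w‖ ^ 2 = (1 - ‖f z‖ ^ 2) * (1 - ‖f (phi z w)‖ ^ 2) /
      ‖1 - conj (f z) * f (phi z w)‖ ^ 2 := by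
  have hc := hfb z (by simpa using hz)
  have hF := hfb (phi z w) (by simpa using phi_lt_one hz hw)
  have h0 : ‖1 - conj (f z) * f (phi z w)‖ ≠ 0 := norm_ne_zero_iff.2 (moebius_ne hc hF)
  unfold gg
  rw [norm_div, div_pow, ← moebius_norm, sub_div, div_self (pow_ne_zero 2 h0)]

theorem gg_lt_one {n : ℕ} {f : Cn n → ℂ} (hfb : ∀ z ∈ ball (0 : Cn n) 1, ‖f z‖ < 1) {z w : Cn n}
    (hz : ‖z‖ < 1) (hw : ‖w‖ < 1) : ‖gg f z w‖ < 1 := by
  have h1 := gg_norm hfb hz hw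
  have hc := hfb z (by simpa using hz)
  have hF := hfb (phi z w) (by simpa using phi_lt_one hz hw)
  have h0 : ‖1 - conj (f z) * f (phi z w)‖ ≠ 0 := norm_ne_zero_iff.2 (moebius_ne hc hF)
  have h2 : 0 < (1 - ‖f z‖ ^ 2) * (1 - ‖f (phi z w)‖ ^ 2) /
      ‖1 - conj (f z) * f (phi z w)‖ ^ 2 := by
    have a1 : 0 < 1 - ‖f z‖ ^ 2 := by nlinarith [norm_nonneg (f z)]
    have a2 : 0 < 1 - ‖f (phi z w)‖ ^ 2 := by nlinarith [norm_nonneg (f (phi z w))]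
    positivity
  rw [← h1] at h2
  nlinarith [norm_nonneg (gg f z w)]

theorem gg_zero {n : ℕ} (f : Cn n → ℂ) (z : Cn n) : gg f z 0 = 0 := by
  unfold gg; rw [phi_zero]; simp

theorem phi_mapsTo {n : ℕ} {z : Cn n} (hz : ‖z‖ < 1) :
    MapsTo (fun w => phi z w) (ball 0 1) (ball 0 1) := by
  intro w hw
  rw [mem_ball_zero_iff] at hw ⊢
  exact phi_lt_one hz hw

theorem gg_differentiableOn {n : ℕ} {f : Cn n → ℂ} (hf : DifferentiableOn ℂ f (ball 0 1))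
    (hfb : ∀ z ∈ ball (0 : Cn n) 1, ‖f z‖ < 1) {z : Cn n} (hz : ‖z‖ < 1) :
    DifferentiableOn ℂ (gg f z) (ball 0 1) := by
  have h1 : DifferentiableOn ℂ (fun w => f (phi z w)) (ball 0 1) :=
    hf.comp (phi_differentiableOn hz) (phi_mapsTo hz)
  have h2 : DifferentiableOn ℂ (fun w => (1 - conj (f z) * f (phi z w))⁻¹) (ball 0 1) := by
    apply DifferentiableOn.inv
    · exact (h1.const_mul _).const_sub _
    · intro w hw
      exact moebius_ne (hfb z (by simpa using hz)) (hfb _ (phi_mapsTo hz hw))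
  have h3 : gg f z = fun w => (f (phi z w) - f z) * (1 - conj (f z) * f (phi z w))⁻¹ := by
    ext w; unfold gg; rw [div_eq_mul_inv]
  rw [h3]
  exact (h1.sub_const _).mul h2

theorem gg_inv {n : ℕ} {f : Cn n → ℂ} (hfb : ∀ z ∈ ball (0 : Cn n) 1, ‖f z‖ < 1) {z w : Cn n}
    (hz : ‖z‖ < 1) (hw : ‖w‖ < 1) :
    1 - ‖f (phi z w)‖ ^ 2 = (1 - ‖f z‖ ^ 2) * (1 - ‖gg f z w‖ ^ 2) /
      ‖1 + conj (f z) * gg f z w‖ ^ 2 := by
  have hc := hfb z (by simpa using hz)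
  have hF := hfb (phi z w) (by simpa using phi_lt_one hz hw)
  have hg := gg_lt_one hfb hz hw
  have hne : 1 - conj (f z) * f (phi z w) ≠ 0 := moebius_ne hc hF
  have hne2 : 1 - conj (-(f z)) * gg f z w ≠ 0 := moebius_ne (by rwa [norm_neg]) hg
  have hne3 : 1 + conj (f z) * gg f z w ≠ 0 := by
    simpa using hne2
  have e1 : gg f z w * (1 - conj (f z) * f (phi z w)) = f (phi z w) - f z := by
    unfold gg; exact div_mul_cancel₀ _ hne
  have e2 : f (phi z w) * (1 + conj (f z) * gg f z w) = gg f z w - (-(f z)) := by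
    linear_combination (-1 : ℂ) * e1
  have e3 : ‖f (phi z w)‖ ^ 2 * ‖1 + conj (f z) * gg f z w‖ ^ 2 = ‖gg f z w - (-(f z))‖ ^ 2 := by
    rw [← mul_pow, ← norm_mul, e2]
  have e4 := moebius_norm (c := -(f z)) (F := gg f z w)
  have e5 : 1 - conj (-(f z)) * gg f z w = 1 + conj (f z) * gg f z w := by
    simp
  rw [e5, norm_neg, ← e3] at e4
  have h0 : ‖1 + conj (f z) * gg f z w‖ ≠ 0 := norm_ne_zero_iff.2 hne3
  field_simp
  linarith

/-- exact formula for the increment of `V` -/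
theorem VV_step {n : ℕ} {f : Cn n → ℂ} (hfb : ∀ z ∈ ball (0 : Cn n) 1, ‖f z‖ < 1) {z w : Cn n}
    (hz : ‖z‖ < 1) (hw : ‖w‖ < 1) :
    VV n f (phi z w) - VV n f z = -(n : ℝ) * Real.log (1 - ‖gg f z w‖ ^ 2) +
      Real.log (1 - ‖w‖ ^ 2) + 2 * n * Real.log ‖1 + conj (f z) * gg f z w‖ -
      2 * Real.log ‖1 + ⟪z, w⟫_ℂ‖ := by
  have hc := hfb z (by simpa using hz)
  have hF := hfb (phi z w) (by simpa using phi_lt_one hz hw)
  have hg := gg_lt_one hfb hz hw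
  have hne2 : 1 - conj (-(f z)) * gg f z w ≠ 0 := moebius_ne (by rwa [norm_neg]) hg
  have hne3 : 1 + conj (f z) * gg f z w ≠ 0 := by
    simpa using hne2
  have hne4 := one_add_inner_ne hz hw
  have a1 : 0 < 1 - ‖f z‖ ^ 2 := by nlinarith [norm_nonneg (f z)]
  have a2 : 0 < 1 - ‖gg f z w‖ ^ 2 := by nlinarith [norm_nonneg (gg f z w)]
  have a3 : 0 < ‖1 + conj (f z) * gg f z w‖ := norm_pos_iff.2 hne3
  have a4 : 0 < 1 - ‖z‖ ^ 2 := by nlinarith [norm_nonneg z]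
  have a5 : 0 < 1 - ‖w‖ ^ 2 := by nlinarith [norm_nonneg w]
  have a6 : 0 < ‖1 + ⟪z, w⟫_ℂ‖ := norm_pos_iff.2 hne4
  unfold VV
  rw [gg_inv hfb hz hw, phi_norm hz hw, Real.log_div (by positivity) (by positivity),
    Real.log_div (by positivity) (by positivity), Real.log_mul a1.ne' a2.ne',
    Real.log_mul a4.ne' a5.ne', Real.log_pow, Real.log_pow]
  push_cast
  ring

end Pool.Agent.MPdb50ff
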