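import Mathlib
import Pool.Agent.Lib.MP_db50ff_an.Defs
import Pool.Agent.Lib.MP_db50ff_an.A1
import Pool.Agent.Lib.MP_db50ff_an.A2
import Pool.Agent.Lib.MP_db50ff_an.A4
import Pool.Agent.Lib.MP_db50ff_an.A5

set_option autoImplicit false

/-!
First and second moments of the increment of `V` over the sphere of radius `r`.
-/

namespace Pool.Agent.MPdb50ff

open MeasureTheory Metric Set Filter Topology

open scoped InnerProductSpace ComplexConjugate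

theorem log_norm_bound {p : ℂ} (hp : ‖p‖ ≤ 1 / 2) :
    |Real.log ‖1 + p‖ - p.re| ≤ ‖p‖ ^ 2 := by
  have h1 := Complex.norm_log_one_add_sub_self_le (z := p) (by linarith)
  have h2 : |Real.log ‖1 + p‖ - p.re| ≤ ‖Complex.log (1 + p) - p‖ := by
    have := Complex.abs_re_le_norm (Complex.log (1 + p) - p)
    rwa [Complex.sub_re, Complex.log_re] at this
  refine h2.trans (h1.trans ?_)
  have h3 : (1 - ‖p‖)⁻¹ ≤ 2 := by
    rw [inv_le_comm₀ (by linarith) (by norm_num)]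
    linarith
  have h4 := norm_nonneg p
  calc ‖p‖ ^ 2 * (1 - ‖p‖)⁻¹ / 2 ≤ ‖p‖ ^ 2 * 2 / 2 := by gcongr
    _ = ‖p‖ ^ 2 := by ring

theorem neg_log_upper {x : ℝ} (hx0 : 0 ≤ x) (hx : x ≤ 1 / 2) : -Real.log (1 - x) ≤ x + 2 * x ^ 2 := by
  have h1 : -Real.log (1 - x) = Real.log (1 - x)⁻¹ := by rw [Real.log_inv]
  rw [h1]
  have h2 := Real.log_le_sub_one_of_pos (x := (1 - x)⁻¹) (by apply inv_pos.2; linarith)
  refine h2.trans ?_
  have h3 : 0 < 1 - x := by linarith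
  have h4 : (1 - x)⁻¹ - 1 = x / (1 - x) := by field_simp; ring
  rw [h4, div_le_iff₀ h3]
  nlinarith [mul_nonneg hx0 hx0, mul_nonneg (mul_nonneg hx0 hx0) hx0]

theorem neg_log_lower {x : ℝ} (hx : x < 1) : x ≤ -Real.log (1 - x) := by
  have h2 := Real.log_le_sub_one_of_pos (x := 1 - x) (by linarith)
  linarith

theorem integrable_of_contOn {n : ℕ} [NeZero n] {E : Type*} [NormedAddCommGroup E]
    {F : Cn n → E} {r : ℝ} (hr0 : 0 ≤ r) (hr1 : r < 1)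
    (hF : ContinuousOn F (ball 0 1)) :
    Integrable (fun ζ : sphere (0 : Cn n) 1 => F (r • (ζ : Cn n))) (sigma n) :=
  integrable_sphere hr0 hr1 hF

theorem re_pos_of_norm_lt {p : ℂ} (hp : ‖p‖ < 1) : 0 < (1 + p).re := by
  have := Complex.abs_re_le_norm p
  have h2 := abs_lt.1 (this.trans_lt hp)
  rw [Complex.add_re, Complex.one_re]
  linarith [h2.1]

theorem log_mean {n : ℕ} [NeZero n] {p : Cn n → ℂ} (hp : DifferentiableOn ℂ p (ball 0 1))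
    (hp1 : ∀ w ∈ ball (0 : Cn n) 1, ‖p w‖ < 1) (h0 : p 0 = 0) {r : ℝ} (hr0 : 0 ≤ r) (hr1 : r < 1) :
    ∫ ζ, Real.log ‖1 + p (r • (ζ : Cn n))‖ ∂(sigma n) = 0 := by
  have hF : DifferentiableOn ℂ (fun w => Complex.log (1 + p w)) (ball 0 1) := by
    apply DifferentiableOn.clog
    · exact hp.const_add 1
    · intro w hw
      left
      exact re_pos_of_norm_lt (hp1 w hw)
  have h1 := mean_value hr0 hr1 hF
  rw [h0, add_zero, Complex.log_one] at h1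
  have hi := integrable_sphere hr0 hr1 hF.continuousOn
  have h2 := integral_re hi
  rw [h1] at h2
  simpa [Complex.log_re] using h2

theorem log_integrable {n : ℕ} [NeZero n] {p : Cn n → ℂ} (hp : DifferentiableOn ℂ p (ball 0 1))
    (hp1 : ∀ w ∈ ball (0 : Cn n) 1, ‖p w‖ < 1) {r : ℝ} (hr0 : 0 ≤ r) (hr1 : r < 1) :
    Integrable (fun ζ : sphere (0 : Cn n) 1 => Real.log ‖1 + p (r • (ζ : Cn n))‖) (sigma n) := by
  apply integrable_sphere (F := fun w => Real.log ‖1 + p w‖) hr0 hr1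
  apply ContinuousOn.log
  · exact (hp.continuousOn.const_add 1 |>.norm : ContinuousOn (fun w => ‖1 + p w‖) (ball 0 1))
  · intro w hw
    rw [norm_ne_zero_iff]
    intro h
    have := re_pos_of_norm_lt (hp1 w hw)
    rw [h] at this
    simp at this

theorem VV_continuousOn {n : ℕ} {f : Cn n → ℂ} (hf : DifferentiableOn ℂ f (ball 0 1))
    (hfb : ∀ z ∈ ball (0 : Cn n) 1, ‖f z‖ < 1) : ContinuousOn (VV n f) (ball 0 1) := by
  unfold VV
  apply ContinuousOn.add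
  · apply ContinuousOn.mul continuousOn_const
    apply ContinuousOn.log
    · exact continuousOn_const.sub (hf.continuousOn.norm.pow 2)
    · intro z hz
      have := hfb z hz
      nlinarith [norm_nonneg (f z)]
  · apply ContinuousOn.log
    · fun_prop
    · intro z hz
      rw [mem_ball_zero_iff] at hz
      nlinarith [norm_nonneg z]

theorem VV_phi_continuousOn {n : ℕ} {f : Cn n → ℂ} (hf : DifferentiableOn ℂ f (ball 0 1))
    (hfb : ∀ z ∈ ball (0 : Cn n) 1, ‖f z‖ < 1) {z : Cn n} (hz : ‖z‖ < 1) :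
    ContinuousOn (fun w => VV n f (phi z w)) (ball 0 1) :=
  (VV_continuousOn hf hfb).comp (phi_differentiableOn hz).continuousOn (phi_mapsTo hz)

theorem step_moments {n : ℕ} [NeZero n] (hn : 2 ≤ n) {f : Cn n → ℂ}
    (hf : DifferentiableOn ℂ f (ball 0 1)) (hfb : ∀ z ∈ ball (0 : Cn n) 1, ‖f z‖ < 1) {z : Cn n}
    (hz : ‖z‖ < 1) :
    ∃ b : Cn n, ‖b‖ ≤ 1 ∧ ∀ r : ℝ, 0 < r → r ≤ 1 / 4 →
      (∀ ζ : sphere (0 : Cn n) 1, |VV n f (phi z (r • (ζ : Cn n))) - VV n f z| ≤ 6 * n * r) ∧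
      ∫ ζ : sphere (0 : Cn n) 1, (VV n f (phi z (r • (ζ : Cn n))) - VV n f z) ∂(sigma n) ≤
        -r ^ 2 * (1 - ‖b‖ ^ 2) + 9 * n * r ^ 3 ∧
      2 * r ^ 2 * ‖(n : ℂ) • (f z • b) - z‖ ^ 2 / n - 72 * n ^ 2 * r ^ 3 ≤
        ∫ ζ : sphere (0 : Cn n) 1, (VV n f (phi z (r • (ζ : Cn n))) - VV n f z) ^ 2 ∂(sigma n) := by
  have hgd := gg_differentiableOn hf hfb hz
  have hg1 : ∀ w ∈ ball (0 : Cn n) 1, ‖gg f z w‖ < 1 := by
    intro w hw
    exact gg_lt_one hfb hz (by simpa using hw)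
  have hc := hfb z (by simpa using hz)
  have hgr : ∀ w ∈ ball (0 : Cn n) 1, ‖gg f z w‖ ≤ ‖w‖ := by
    intro w hw
    apply Complex.norm_le_norm_of_mapsTo_ball (R := 1) hgd _ (gg_zero f z) (by simpa using hw)
    intro x hx
    rw [mem_closedBall_zero_iff]
    exact (hg1 x hx).le
  obtain ⟨b, hb1, hb⟩ := schwarz_second hgd (fun w hw => (hg1 w hw).le) (gg_zero f z)
  refine ⟨b, hb1, fun r hr0 hr4 => ?_⟩
  have hr1 : r < 1 := by linarith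
  have hn' : (2 : ℝ) ≤ n := by exact_mod_cast hn
  have hn0 : (0 : ℝ) < n := by linarith
  set m : Cn n := (n : ℂ) • (f z • b) - z with hm
  -- norms
  have hwn : ∀ ζ : sphere (0 : Cn n) 1, ‖r • (ζ : Cn n)‖ = r := by
    intro ζ
    rw [norm_smul, norm_sph, mul_one, Real.norm_of_nonneg hr0.le]
  have hwb : ∀ ζ : sphere (0 : Cn n) 1, r • (ζ : Cn n) ∈ ball (0 : Cn n) 1 := by
    intro ζ
    rw [mem_ball_zero_iff, hwn]; exact hr1
  have hG : ∀ ζ : sphere (0 : Cn n) 1, ‖gg f z (r • (ζ : Cn n))‖ ≤ r := by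
    intro ζ
    have := hgr _ (hwb ζ)
    rwa [hwn] at this
  have hl : ∀ ζ : sphere (0 : Cn n) 1, ‖⟪b, r • (ζ : Cn n)⟫_ℂ‖ ≤ r := by
    intro ζ
    have := norm_inner_le_norm (𝕜 := ℂ) b (r • (ζ : Cn n))
    rw [hwn] at this
    nlinarith
  have hGl : ∀ ζ : sphere (0 : Cn n) 1,
      ‖gg f z (r • (ζ : Cn n)) - ⟪b, r • (ζ : Cn n)⟫_ℂ‖ ≤ 2 * r ^ 2 := by
    intro ζ
    have := hb _ (hwb ζ)
    rwa [hwn] at this
  have hmn : ‖m‖ ≤ n + 1 := by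
    calc ‖m‖ ≤ ‖(n : ℂ) • (f z • b)‖ + ‖z‖ := norm_sub_le _ _
      _ ≤ n * 1 + 1 := by
        rw [norm_smul, norm_smul, Complex.norm_natCast]
        have : ‖f z‖ * ‖b‖ ≤ 1 := by nlinarith [norm_nonneg (f z), norm_nonneg b]
        gcongr
      _ = n + 1 := by ring
  have hinner : ∀ w : Cn n, ⟪m, w⟫_ℂ = (n : ℂ) * (conj (f z) * ⟪b, w⟫_ℂ) - ⟪z, w⟫_ℂ := by
    intro w
    rw [hm, inner_sub_left, inner_smul_left, inner_smul_left]
    simp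
  have hstep : ∀ ζ : sphere (0 : Cn n) 1, VV n f (phi z (r • (ζ : Cn n))) - VV n f z =
      -(n : ℝ) * Real.log (1 - ‖gg f z (r • (ζ : Cn n))‖ ^ 2) +
      Real.log (1 - r ^ 2) + 2 * n * Real.log ‖1 + conj (f z) * gg f z (r • (ζ : Cn n))‖ -
      2 * Real.log ‖1 + ⟪z, r • (ζ : Cn n)⟫_ℂ‖ := by
    intro ζ
    rw [VV_step hfb hz (by rw [hwn]; exact hr1), hwn]
  have hr2 : r ^ 2 ≤ 1 / 2 := by nlinarith
  have hr4' : r ^ 4 ≤ r ^ 2 / 16 := by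
    have : r ^ 4 = r ^ 2 * r ^ 2 := by ring
    rw [this]
    have h16 : r ^ 2 ≤ 1 / 16 := by nlinarith
    have h17 : 0 < r ^ 2 := by positivity
    nlinarith
  have hr43 : r ^ 4 ≤ r ^ 3 / 4 := by
    have : r ^ 4 = r ^ 3 * r := by ring
    rw [this]
    have h3 : 0 < r ^ 3 := by positivity
    nlinarith
  -- the four pieces
  have e1 : ∀ ζ : sphere (0 : Cn n) 1, 0 ≤ -Real.log (1 - ‖gg f z (r • (ζ : Cn n))‖ ^ 2) ∧
      -Real.log (1 - ‖gg f z (r • (ζ : Cn n))‖ ^ 2) ≤ ‖gg f z (r • (ζ : Cn n))‖ ^ 2 + 2 * r ^ 4 ∧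
      -Real.log (1 - ‖gg f z (r • (ζ : Cn n))‖ ^ 2) ≤ 2 * r ^ 2 := by
    intro ζ
    have h1 := hG ζ
    have h0 := norm_nonneg (gg f z (r • (ζ : Cn n)))
    have h2 : ‖gg f z (r • (ζ : Cn n))‖ ^ 2 ≤ r ^ 2 := by gcongr
    have h3 := neg_log_lower (x := ‖gg f z (r • (ζ : Cn n))‖ ^ 2) (by linarith)
    have h4 := neg_log_upper (x := ‖gg f z (r • (ζ : Cn n))‖ ^ 2) (by positivity) (by linarith)
    have h5 : (‖gg f z (r • (ζ : Cn n))‖ ^ 2) ^ 2 ≤ r ^ 4 := by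
      calc (‖gg f z (r • (ζ : Cn n))‖ ^ 2) ^ 2 ≤ (r ^ 2) ^ 2 := by gcongr
        _ = r ^ 4 := by ring
    refine ⟨by nlinarith, by linarith, by linarith⟩
  have e2 : -(2 * r ^ 2) ≤ Real.log (1 - r ^ 2) ∧ Real.log (1 - r ^ 2) ≤ -r ^ 2 := by
    have h3 := neg_log_lower (x := r ^ 2) (by linarith)
    have h4 := neg_log_upper (x := r ^ 2) (by positivity) hr2
    have h5 : (r ^ 2) ^ 2 = r ^ 4 := by ring
    constructor <;> nlinarith
  have e3 : ∀ ζ : sphere (0 : Cn n) 1,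
      |Real.log ‖1 + conj (f z) * gg f z (r • (ζ : Cn n))‖ - (conj (f z) * ⟪b, r • (ζ : Cn n)⟫_ℂ).re| ≤
        3 * r ^ 2 := by
    intro ζ
    have h0 : ‖conj (f z) * gg f z (r • (ζ : Cn n))‖ ≤ r := by
      rw [norm_mul, RCLike.norm_conj]
      nlinarith [hG ζ, norm_nonneg (f z), norm_nonneg (gg f z (r • (ζ : Cn n)))]
    have h1 := log_norm_bound (p := conj (f z) * gg f z (r • (ζ : Cn n))) (by linarith)
    have h2 : |(conj (f z) * gg f z (r • (ζ : Cn n))).re - (conj (f z) * ⟪b, r • (ζ : Cn n)⟫_ℂ).re| ≤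
        2 * r ^ 2 := by
      rw [← Complex.sub_re, ← mul_sub]
      refine (Complex.abs_re_le_norm _).trans ?_
      rw [norm_mul, RCLike.norm_conj]
      nlinarith [hGl ζ, norm_nonneg (f z), norm_nonneg (gg f z (r • (ζ : Cn n)) - ⟪b, r • (ζ : Cn n)⟫_ℂ)]
    have h3 : ‖conj (f z) * gg f z (r • (ζ : Cn n))‖ ^ 2 ≤ r ^ 2 := by gcongr
    calc _ ≤ |Real.log ‖1 + conj (f z) * gg f z (r • (ζ : Cn n))‖ - (conj (f z) * gg f z (r • (ζ : Cn n))).re|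
          + |(conj (f z) * gg f z (r • (ζ : Cn n))).re - (conj (f z) * ⟪b, r • (ζ : Cn n)⟫_ℂ).re| :=
          abs_sub_le _ _ _
      _ ≤ 3 * r ^ 2 := by linarith
  have e4 : ∀ ζ : sphere (0 : Cn n) 1,
      |Real.log ‖1 + ⟪z, r • (ζ : Cn n)⟫_ℂ‖ - (⟪z, r • (ζ : Cn n)⟫_ℂ).re| ≤ r ^ 2 := by
    intro ζ
    have h0 : ‖⟪z, r • (ζ : Cn n)⟫_ℂ‖ ≤ r := by
      have := norm_inner_le_norm (𝕜 := ℂ) z (r • (ζ : Cn n))
      rw [hwn] at this
      nlinarith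
    have h1 := log_norm_bound (p := ⟪z, r • (ζ : Cn n)⟫_ℂ) (by linarith)
    have h3 : ‖⟪z, r • (ζ : Cn n)⟫_ℂ‖ ^ 2 ≤ r ^ 2 := by gcongr
    linarith
  -- linear part
  have hlin : ∀ ζ : sphere (0 : Cn n) 1, |2 * (⟪m, r • (ζ : Cn n)⟫_ℂ).re| ≤ 3 * n * r := by
    intro ζ
    rw [abs_mul, abs_of_pos (by norm_num : (0:ℝ) < 2)]
    have h1 := (Complex.abs_re_le_norm (⟪m, r • (ζ : Cn n)⟫_ℂ)).trans
      (norm_inner_le_norm (𝕜 := ℂ) m (r • (ζ : Cn n)))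
    rw [hwn] at h1
    nlinarith
  have happ : ∀ ζ : sphere (0 : Cn n) 1, |(VV n f (phi z (r • (ζ : Cn n))) - VV n f z) -
      2 * (⟪m, r • (ζ : Cn n)⟫_ℂ).re| ≤ 10 * n * r ^ 2 := by
    intro ζ
    rw [hstep, hinner, Complex.sub_re]
    have h1 : ((n : ℂ) * (conj (f z) * ⟪b, r • (ζ : Cn n)⟫_ℂ)).re =
        n * (conj (f z) * ⟪b, r • (ζ : Cn n)⟫_ℂ).re := by
      rw [Complex.mul_re]; simp
    rw [h1]
    obtain ⟨a1, -, a3⟩ := e1 ζ
    have a4 := abs_le.1 (e3 ζ)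
    have a5 := abs_le.1 (e4 ζ)
    have a6 : 0 < r ^ 2 := by positivity
    rw [abs_le]
    constructor <;> nlinarith [e2.1, e2.2, a4.1, a4.2, a5.1, a5.2]
  have hbound : ∀ ζ : sphere (0 : Cn n) 1, |VV n f (phi z (r • (ζ : Cn n))) - VV n f z| ≤ 6 * n * r := by
    intro ζ
    have h1 := happ ζ
    have h2 := hlin ζ
    have h3 := abs_sub_abs_le_abs_sub (VV n f (phi z (r • (ζ : Cn n))) - VV n f z)
      (2 * (⟪m, r • (ζ : Cn n)⟫_ℂ).re)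
    have h4 : 10 * (n : ℝ) * r ^ 2 ≤ 3 * n * r := by nlinarith [mul_pos hn0 hr0]
    linarith
  have hcont : ContinuousOn (fun w => VV n f (phi z w) - VV n f z) (ball 0 1) :=
    (VV_phi_continuousOn hf hfb hz).sub continuousOn_const
  have hint : Integrable (fun ζ : sphere (0 : Cn n) 1 => VV n f (phi z (r • (ζ : Cn n))) - VV n f z)
      (sigma n) := integrable_sphere (F := fun w => VV n f (phi z w) - VV n f z) hr0.le hr1 hcont
  have hint2 : Integrable (fun ζ : sphere (0 : Cn n) 1 =>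
      (VV n f (phi z (r • (ζ : Cn n))) - VV n f z) ^ 2) (sigma n) :=
    integrable_sphere (F := fun w => (VV n f (phi z w) - VV n f z) ^ 2) hr0.le hr1 (hcont.pow 2)
  refine ⟨hbound, ?_, ?_⟩
  · -- mean
    have hp : DifferentiableOn ℂ (fun w => conj (f z) * gg f z w) (ball 0 1) := hgd.const_mul _
    have hp1 : ∀ w ∈ ball (0 : Cn n) 1, ‖conj (f z) * gg f z w‖ < 1 := by
      intro w hw
      rw [norm_mul, RCLike.norm_conj]
      nlinarith [hg1 w hw, norm_nonneg (f z), norm_nonneg (gg f z w)]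
    have hq : DifferentiableOn ℂ (fun w : Cn n => ⟪z, w⟫_ℂ) (ball 0 1) :=
      (innerSL ℂ z).differentiable.differentiableOn
    have hq1 : ∀ w ∈ ball (0 : Cn n) 1, ‖⟪z, w⟫_ℂ‖ < 1 := by
      intro w hw
      rw [mem_ball_zero_iff] at hw
      have := norm_inner_le_norm (𝕜 := ℂ) z w
      nlinarith [norm_nonneg z, norm_nonneg w]
    have m1 := log_mean hp hp1 (by rw [gg_zero]; simp) hr0.le hr1
    have m2 := log_mean hq hq1 (by simp) hr0.le hr1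
    have i1 := log_integrable hp hp1 hr0.le hr1
    have i2 := log_integrable hq hq1 hr0.le hr1
    have i3 : Integrable (fun ζ : sphere (0 : Cn n) 1 =>
        -(n : ℝ) * Real.log (1 - ‖gg f z (r • (ζ : Cn n))‖ ^ 2)) (sigma n) := by
      apply integrable_sphere (F := fun w => -(n : ℝ) * Real.log (1 - ‖gg f z w‖ ^ 2)) hr0.le hr1
      apply ContinuousOn.mul continuousOn_const
      apply ContinuousOn.log
      · exact continuousOn_const.sub (hgd.continuousOn.norm.pow 2)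
      · intro w hw
        have := hg1 w hw
        nlinarith [norm_nonneg (gg f z w)]
    have i5 : Integrable (fun ζ : sphere (0 : Cn n) 1 => ‖⟪b, (ζ : Cn n)⟫_ℂ‖ ^ 2) (sigma n) :=
      inner_sq_integrable b
    simp_rw [hstep]
    have s1 : ∫ ζ : sphere (0 : Cn n) 1, (-(n : ℝ) * Real.log (1 - ‖gg f z (r • (ζ : Cn n))‖ ^ 2) +
        Real.log (1 - r ^ 2) + 2 * n * Real.log ‖1 + conj (f z) * gg f z (r • (ζ : Cn n))‖ -
        2 * Real.log ‖1 + ⟪z, r • (ζ : Cn n)⟫_ℂ‖) ∂(sigma n) =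
        ∫ ζ : sphere (0 : Cn n) 1, -(n : ℝ) * Real.log (1 - ‖gg f z (r • (ζ : Cn n))‖ ^ 2) ∂(sigma n) +
        Real.log (1 - r ^ 2) := by
      rw [integral_sub, integral_add, integral_add, integral_const_mul (2 * (n : ℝ)),
        integral_const_mul (2 : ℝ), m1, m2]
      · simp
      · exact i3
      · exact integrable_const _
      · exact i3.add (integrable_const _)
      · exact i1.const_mul _
      · exact (i3.add (integrable_const _)).add (i1.const_mul _)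
      · exact i2.const_mul _
    rw [s1]
    have s2 : ∫ ζ : sphere (0 : Cn n) 1, -(n : ℝ) * Real.log (1 - ‖gg f z (r • (ζ : Cn n))‖ ^ 2) ∂(sigma n) ≤
        ∫ ζ : sphere (0 : Cn n) 1, ((n : ℝ) * r ^ 2 * ‖⟪b, (ζ : Cn n)⟫_ℂ‖ ^ 2 + n * (6 * r ^ 3)) ∂(sigma n) := by
      apply integral_mono i3 ((i5.const_mul _).add (integrable_const _))
      intro ζ
      obtain ⟨a1, a2, -⟩ := e1 ζ
      have b1 : ‖gg f z (r • (ζ : Cn n))‖ ≤ ‖⟪b, r • (ζ : Cn n)⟫_ℂ‖ + 2 * r ^ 2 := by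
        have h1 := hGl ζ
        have h2 := norm_sub_norm_le (gg f z (r • (ζ : Cn n))) (⟪b, r • (ζ : Cn n)⟫_ℂ)
        linarith
      have b2 : ‖⟪b, r • (ζ : Cn n)⟫_ℂ‖ = r * ‖⟪b, (ζ : Cn n)⟫_ℂ‖ := by
        rw [← Complex.coe_smul, inner_smul_right, norm_mul, Complex.norm_real, Real.norm_of_nonneg hr0.le]
      have b3 := hl ζ
      have b4 : ‖gg f z (r • (ζ : Cn n))‖ ^ 2 ≤ (‖⟪b, r • (ζ : Cn n)⟫_ℂ‖ + 2 * r ^ 2) ^ 2 := by gcongr
      have b5 : (‖⟪b, r • (ζ : Cn n)⟫_ℂ‖ + 2 * r ^ 2) ^ 2 ≤ r ^ 2 * ‖⟪b, (ζ : Cn n)⟫_ℂ‖ ^ 2 + 4 * r ^ 3 + 4 * r ^ 4 := by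
        have b6 : (‖⟪b, r • (ζ : Cn n)⟫_ℂ‖ + 2 * r ^ 2) ^ 2 = ‖⟪b, r • (ζ : Cn n)⟫_ℂ‖ ^ 2 +
          4 * r ^ 2 * ‖⟪b, r • (ζ : Cn n)⟫_ℂ‖ + 4 * r ^ 4 := by ring
        have b7 : 4 * r ^ 2 * ‖⟪b, r • (ζ : Cn n)⟫_ℂ‖ ≤ 4 * r ^ 2 * r := by gcongr
        have b8 : ‖⟪b, r • (ζ : Cn n)⟫_ℂ‖ ^ 2 = r ^ 2 * ‖⟪b, (ζ : Cn n)⟫_ℂ‖ ^ 2 := by rw [b2]; ring
        rw [b6, b8]
        nlinarith
      have b9 : -Real.log (1 - ‖gg f z (r • (ζ : Cn n))‖ ^ 2) ≤ r ^ 2 * ‖⟪b, (ζ : Cn n)⟫_ℂ‖ ^ 2 + 6 * r ^ 3 := by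
        nlinarith
      show -(n : ℝ) * Real.log (1 - ‖gg f z (r • (ζ : Cn n))‖ ^ 2) ≤
        (n : ℝ) * r ^ 2 * ‖⟪b, (ζ : Cn n)⟫_ℂ‖ ^ 2 + n * (6 * r ^ 3)
      calc -(n : ℝ) * Real.log (1 - ‖gg f z (r • (ζ : Cn n))‖ ^ 2) =
          n * (-Real.log (1 - ‖gg f z (r • (ζ : Cn n))‖ ^ 2)) := by ring
        _ ≤ n * (r ^ 2 * ‖⟪b, (ζ : Cn n)⟫_ℂ‖ ^ 2 + 6 * r ^ 3) := by gcongr
        _ = _ := by ring
    have s3 : ∫ ζ : sphere (0 : Cn n) 1, ((n : ℝ) * r ^ 2 * ‖⟪b, (ζ : Cn n)⟫_ℂ‖ ^ 2 + n * (6 * r ^ 3)) ∂(sigma n)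
        = r ^ 2 * ‖b‖ ^ 2 + n * (6 * r ^ 3) := by
      rw [integral_add (i5.const_mul _) (integrable_const _), integral_const_mul, inner_sq]
      simp
      field_simp
    have s4 : 0 < (n : ℝ) * r ^ 3 := by positivity
    nlinarith [e2.2]
  · -- second moment
    have i6 : Integrable (fun ζ : sphere (0 : Cn n) 1 => (2 * (⟪m, (ζ : Cn n)⟫_ℂ).re) ^ 2) (sigma n) := by
      have hc : Continuous (fun ζ : sphere (0 : Cn n) 1 => (2 * (⟪m, (ζ : Cn n)⟫_ℂ).re) ^ 2) := by fun_prop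
      exact hc.integrable_of_hasCompactSupport (HasCompactSupport.of_compactSpace _)
    have s1 : ∫ ζ : sphere (0 : Cn n) 1, (r ^ 2 * (2 * (⟪m, (ζ : Cn n)⟫_ℂ).re) ^ 2 - 60 * n ^ 2 * r ^ 3) ∂(sigma n)
        ≤ ∫ ζ : sphere (0 : Cn n) 1, (VV n f (phi z (r • (ζ : Cn n))) - VV n f z) ^ 2 ∂(sigma n) := by
      apply integral_mono ((i6.const_mul _).sub (integrable_const _)) hint2
      intro ζ
      have h1 := happ ζ
      have h2 := hlin ζ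
      have h3 : (⟪m, r • (ζ : Cn n)⟫_ℂ).re = r * (⟪m, (ζ : Cn n)⟫_ℂ).re := by
        rw [← Complex.coe_smul, inner_smul_right, Complex.mul_re]; simp
      set A := 2 * (⟪m, r • (ζ : Cn n)⟫_ℂ).re with hA
      set X := VV n f (phi z (r • (ζ : Cn n))) - VV n f z with hX
      have h4 : r ^ 2 * (2 * (⟪m, (ζ : Cn n)⟫_ℂ).re) ^ 2 = A ^ 2 := by rw [hA, h3]; ring
      show r ^ 2 * (2 * (⟪m, (ζ : Cn n)⟫_ℂ).re) ^ 2 - 60 * n ^ 2 * r ^ 3 ≤ X ^ 2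
      rw [h4]
      have h5 : X ^ 2 = A ^ 2 + 2 * (A * (X - A)) + (X - A) ^ 2 := by ring
      have h6 : |A * (X - A)| ≤ (3 * n * r) * (10 * n * r ^ 2) := by
        rw [abs_mul]; gcongr
      have h7 := (abs_le.1 h6).1
      nlinarith [sq_nonneg (X - A)]
    have s2 : ∫ ζ : sphere (0 : Cn n) 1, (r ^ 2 * (2 * (⟪m, (ζ : Cn n)⟫_ℂ).re) ^ 2 - 60 * n ^ 2 * r ^ 3) ∂(sigma n)
        = r ^ 2 * (2 * ‖m‖ ^ 2 / n) - 60 * n ^ 2 * r ^ 3 := by
      rw [integral_sub (i6.const_mul _) (integrable_const _), integral_const_mul, re_inner_sq]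
      simp
    rw [s2] at s1
    refine le_trans ?_ s1
    have s3 : 0 < (n : ℝ) ^ 2 * r ^ 3 := by positivity
    have s4 : 2 * r ^ 2 * ‖m‖ ^ 2 / n = r ^ 2 * (2 * ‖m‖ ^ 2 / n) := by ring
    rw [s4]
    nlinarith

end Pool.Agent.MPdb50ff
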