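import Mathlib
import Pool.Agent.Lib.MP_db50ff_an.Defs
import Pool.Agent.Lib.MP_db50ff_an.A1
import Pool.Agent.Lib.MP_db50ff_an.A2
import Pool.Agent.Lib.MP_db50ff_an.A4
import Pool.Agent.Lib.MP_db50ff_an.A5
import Pool.Agent.Lib.MP_db50ff_an.A6

set_option autoImplicit false

/-!
The test function and the one-step inequality.
-/

namespace Pool.Agent.MPdb50ff

open MeasureTheory Metric Set Filter Topology

open scoped InnerProductSpace ComplexConjugate

/-- bounded `C^{1,1}` test function: `0` left of `-1`, convex on `[-1,0]`, concave quadratic on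
`[0,H]`, constant after `H`. -/
noncomputable def theta (H x : ℝ) : ℝ :=
  if x ≤ -1 then 0 else if x ≤ 0 then H / 2 * (x + 1) ^ 2 else
    if x ≤ H then H / 2 + H * x - x ^ 2 / 2 else H / 2 + H ^ 2 / 2

/-- its derivative -/
noncomputable def dtheta (H x : ℝ) : ℝ :=
  if x ≤ -1 then 0 else if x ≤ 0 then H * (x + 1) else if x ≤ H then H - x else 0

theorem theta_continuous {H : ℝ} (hH : 1 ≤ H) : Continuous (theta H) := by
  unfold theta
  apply Continuous.if_le continuous_const _ continuous_id continuous_const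
  · intro x hx
    simp only [id] at hx
    rw [hx, if_pos (by norm_num)]
    norm_num
  · apply Continuous.if_le (by fun_prop) _ continuous_id continuous_const
    · intro x hx
      simp only [id] at hx
      rw [hx, if_pos (by linarith)]
      ring
    · apply Continuous.if_le (by fun_prop) (by fun_prop) continuous_id continuous_const
      intro x hx
      simp only [id] at hx
      rw [hx]
      ring

theorem theta_nonneg {H : ℝ} (hH : 1 ≤ H) (x : ℝ) : 0 ≤ theta H x := by
  unfold theta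
  split_ifs with h1 h2 h3
  · exact le_rfl
  · positivity
  · push Not at h1 h2
    nlinarith
  · positivity

theorem theta_le {H : ℝ} (hH : 1 ≤ H) (x : ℝ) : theta H x ≤ H / 2 + H ^ 2 / 2 := by
  unfold theta
  split_ifs with h1 h2 h3
  · positivity
  · push Not at h1
    have : (x + 1) ^ 2 ≤ 1 := by nlinarith
    nlinarith
  · nlinarith [sq_nonneg (H - x)]
  · exact le_rfl

theorem dtheta_nonneg {H : ℝ} (hH : 1 ≤ H) (x : ℝ) : 0 ≤ dtheta H x := by
  unfold dtheta
  split_ifs with h1 h2 h3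
  · exact le_rfl
  · push Not at h1
    nlinarith
  · linarith
  · exact le_rfl

theorem dtheta_le {H : ℝ} (hH : 1 ≤ H) (x : ℝ) : dtheta H x ≤ H := by
  unfold dtheta
  split_ifs with h1 h2 h3
  · linarith
  · nlinarith
  · linarith
  · linarith

theorem theta_T1 {H : ℝ} (hH : 1 ≤ H) (x y : ℝ) :
    theta H (x + y) ≤ theta H x + dtheta H x * y + H / 2 * y ^ 2 := by
  obtain ⟨z, hz⟩ : ∃ z, z = x + y := ⟨_, rfl⟩
  have hy : y = z - x := by linarith
  rw [← hz, hy]
  unfold theta dtheta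
  by_cases h1 : x ≤ -1
  · rw [if_pos h1, if_pos h1]
    by_cases k1 : z ≤ -1
    · rw [if_pos k1]
      have := mul_nonneg (by linarith : 0 ≤ H / 2) (sq_nonneg (z - x)); linarith
    · rw [if_neg k1]
      push Not at k1
      have h5 : (z + 1) ^ 2 ≤ (z - x) ^ 2 := by nlinarith
      have h6 : H / 2 * (z + 1) ^ 2 ≤ H / 2 * (z - x) ^ 2 := mul_le_mul_of_nonneg_left h5 (by linarith)
      by_cases k2 : z ≤ 0
      · rw [if_pos k2]; linarith
      · rw [if_neg k2]
        push Not at k2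
        by_cases k3 : z ≤ H
        · rw [if_pos k3]; nlinarith
        · rw [if_neg k3]; push Not at k3; nlinarith
  · rw [if_neg h1, if_neg h1]
    push Not at h1
    by_cases h2 : x ≤ 0
    · rw [if_pos h2, if_pos h2]
      have h7 : H / 2 * (x + 1) ^ 2 + H * (x + 1) * (z - x) + H / 2 * (z - x) ^ 2 = H / 2 * (z + 1) ^ 2 := by
        ring
      rw [h7]
      by_cases k1 : z ≤ -1
      · rw [if_pos k1]; positivity
      · rw [if_neg k1]
        push Not at k1
        by_cases k2 : z ≤ 0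
        · rw [if_pos k2]
        · rw [if_neg k2]
          push Not at k2
          by_cases k3 : z ≤ H
          · rw [if_pos k3]; nlinarith
          · rw [if_neg k3]; push Not at k3; nlinarith
    · rw [if_neg h2, if_neg h2]
      push Not at h2
      by_cases h3 : x ≤ H
      · rw [if_pos h3, if_pos h3]
        by_cases k1 : z ≤ -1
        · rw [if_pos k1]
          obtain ⟨e, he⟩ : ∃ e, e = -1 - z := ⟨_, rfl⟩
          have he0 : 0 ≤ e := by linarith
          have hz' : z = -1 - e := by linarith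
          rw [hz']
          have : H / 2 + H * x - x ^ 2 / 2 + (H - x) * (-1 - e - x) + H / 2 * (-1 - e - x) ^ 2 =
            H * x ^ 2 / 2 + x + x ^ 2 / 2 + H * x + e * (H * x + x) + H / 2 * e ^ 2 := by ring
          rw [this]
          have hx0 : 0 ≤ x := h2.le
          positivity
        · rw [if_neg k1]
          push Not at k1
          by_cases k2 : z ≤ 0
          · rw [if_pos k2]
            have : H / 2 + H * x - x ^ 2 / 2 + (H - x) * (z - x) + H / 2 * (z - x) ^ 2 - H / 2 * (z + 1) ^ 2 =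
              (1 + H) * x * (x / 2 - z) := by ring
            have h8 : 0 ≤ (1 + H) * x * (x / 2 - z) := by
              apply mul_nonneg (mul_nonneg (by linarith) h2.le) (by linarith)
            linarith
          · rw [if_neg k2]
            push Not at k2
            by_cases k3 : z ≤ H
            · rw [if_pos k3]
              have : H / 2 + H * x - x ^ 2 / 2 + (H - x) * (z - x) + H / 2 * (z - x) ^ 2 -
                (H / 2 + H * z - z ^ 2 / 2) = (H + 1) / 2 * (z - x) ^ 2 := by ring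
              have h8 : 0 ≤ (H + 1) / 2 * (z - x) ^ 2 := by positivity
              linarith
            · rw [if_neg k3]
              push Not at k3
              have : H / 2 + H * x - x ^ 2 / 2 + (H - x) * (z - x) + H / 2 * (z - x) ^ 2 -
                (H / 2 + H ^ 2 / 2) = (H + 1) / 2 * (z - x) ^ 2 - (z - H) ^ 2 / 2 := by ring
              have h9 : (z - H) ^ 2 ≤ (z - x) ^ 2 := by nlinarith
              nlinarith
      · rw [if_neg h3, if_neg h3]
        push Not at h3
        have h10 : 0 ≤ H / 2 * (z - x) ^ 2 := by positivity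
        have h11 := theta_le hH z
        unfold theta at h11
        linarith

theorem theta_T2 {H : ℝ} (hH : 1 ≤ H) {x y : ℝ} (hx : 1 ≤ x) (hy : |y| ≤ 1) :
    theta H (x + y) ≤ theta H x + dtheta H x * y := by
  have hy' := abs_le.1 hy
  obtain ⟨z, hz⟩ : ∃ z, z = x + y := ⟨_, rfl⟩
  have hyz : y = z - x := by linarith
  have hz0 : 0 ≤ z := by linarith
  rw [← hz, hyz]
  unfold theta dtheta
  rw [if_neg (by linarith : ¬ x ≤ -1), if_neg (by linarith : ¬ x ≤ 0), if_neg (by linarith : ¬ x ≤ -1),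
    if_neg (by linarith : ¬ x ≤ 0), if_neg (by linarith : ¬ z ≤ -1)]
  by_cases h0 : z ≤ 0
  · have : z = 0 := le_antisymm h0 hz0
    subst this
    rw [if_pos le_rfl]
    by_cases h3 : x ≤ H
    · rw [if_pos h3, if_pos h3]; nlinarith
    · rw [if_neg h3, if_neg h3]; nlinarith
  · rw [if_neg h0]
    by_cases h3 : x ≤ H
    · rw [if_pos h3, if_pos h3]
      by_cases h4 : z ≤ H
      · rw [if_pos h4]; nlinarith [sq_nonneg (z - x)]
      · rw [if_neg h4]; push Not at h4; nlinarith [sq_nonneg (H - x)]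
    · rw [if_neg h3, if_neg h3]
      by_cases h4 : z ≤ H
      · rw [if_pos h4]; nlinarith [sq_nonneg (z - H)]
      · rw [if_neg h4]; linarith

theorem theta_T3 {H : ℝ} {x y : ℝ} (hx : 1 ≤ x) (hx2 : x ≤ H - 1) (hy : |y| < 1) :
    theta H (x + y) = theta H x + (H - x) * y - y ^ 2 / 2 := by
  have hy' := abs_lt.1 hy
  unfold theta
  rw [if_neg (by linarith : ¬ x ≤ -1), if_neg (by linarith : ¬ x ≤ 0), if_pos (by linarith : x ≤ H),
    if_neg (by linarith : ¬ x + y ≤ -1), if_neg (by linarith : ¬ x + y ≤ 0), if_pos (by linarith : x + y ≤ H)]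
  ring

theorem theta_T4 {H : ℝ} {x y : ℝ} (hx : x ≤ -2) (hy : |y| ≤ 1) : theta H (x + y) = 0 := by
  have hy' := abs_le.1 hy
  unfold theta
  rw [if_pos (by linarith)]

/-- rigidity: the drift and the variance cannot both be small -/
theorem gain_lower {n : ℕ} (hn : 2 ≤ n) {b z : Cn n} {c : ℂ} (hb : ‖b‖ ≤ 1) (hz : ‖z‖ < 1)
    (hc : 3 / 4 ≤ ‖c‖) :
    1 / (10 * n) ≤ (1 - ‖b‖ ^ 2) + ‖(n : ℂ) • (c • b) - z‖ ^ 2 / n := by
  have hn' : (2 : ℝ) ≤ n := by exact_mod_cast hn
  have hn0 : (0 : ℝ) < n := by linarith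
  by_cases h1 : ‖b‖ ≤ 9 / 10
  · have h2 : (19 : ℝ) / 100 ≤ 1 - ‖b‖ ^ 2 := by nlinarith [norm_nonneg b]
    have h3 : 1 / (10 * (n : ℝ)) ≤ 1 / 20 := by
      apply one_div_le_one_div_of_le (by norm_num); linarith
    have h4 : 0 ≤ ‖(n : ℂ) • (c • b) - z‖ ^ 2 / n := by positivity
    linarith
  · push Not at h1
    have h5 : ‖(n : ℂ) • (c • b)‖ - ‖z‖ ≤ ‖(n : ℂ) • (c • b) - z‖ := norm_sub_norm_le _ _
    rw [norm_smul, norm_smul, Complex.norm_natCast] at h5
    have h6 : (27 : ℝ) / 40 ≤ ‖c‖ * ‖b‖ := by nlinarith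
    have h7 : (n : ℝ) * (27 / 40) ≤ n * (‖c‖ * ‖b‖) := by gcongr
    have h8 : (7 : ℝ) / 20 ≤ ‖(n : ℂ) • (c • b) - z‖ := by linarith
    have h9 : (49 : ℝ) / 400 ≤ ‖(n : ℂ) • (c • b) - z‖ ^ 2 := by nlinarith
    have h10 : 1 / (10 * (n : ℝ)) ≤ ‖(n : ℂ) • (c • b) - z‖ ^ 2 / n := by
      rw [div_le_div_iff₀ (by positivity) hn0]
      nlinarith
    have h11 : 0 ≤ 1 - ‖b‖ ^ 2 := by nlinarith [norm_nonneg b]
    linarith

/-- the window -/
noncomputable def indW (n : ℕ) (f : Cn n → ℂ) (v0 : ℝ) (z : Cn n) : ℝ :=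
  if -2 ≤ VV n f z - v0 ∧ VV n f z - v0 ≤ 1 then 1 else 0

/-- the bulk -/
noncomputable def indB (n : ℕ) (f : Cn n → ℂ) (v0 H : ℝ) (z : Cn n) : ℝ :=
  if 1 ≤ VV n f z - v0 ∧ VV n f z - v0 ≤ H - 1 ∧ 3 / 4 ≤ ‖f z‖ then 1 else 0

theorem one_step {n : ℕ} [NeZero n] (hn : 2 ≤ n) {f : Cn n → ℂ}
    (hf : DifferentiableOn ℂ f (ball 0 1)) (hfb : ∀ z ∈ ball (0 : Cn n) 1, ‖f z‖ < 1) {v0 H : ℝ}
    (hH : 4 ≤ H) {z : Cn n} (hz : ‖z‖ < 1) {r : ℝ} (hr0 : 0 < r) (hr4 : r ≤ 1 / 4)
    (hr : 6 * n * r < 1) :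
    ∫ ζ : sphere (0 : Cn n) 1, theta H (VV n f (phi z (r • (ζ : Cn n))) - v0) ∂(sigma n) ≤
      theta H (VV n f z - v0) + (9 * n * H + 36 * n ^ 2) * r ^ 3 + 18 * n ^ 2 * H * r ^ 2 * indW n f v0 z
      - 1 / (10 * n) * r ^ 2 * indB n f v0 H z := by
  obtain ⟨b, hb1, hb⟩ := step_moments hn hf hfb hz
  obtain ⟨hbd, hmean, hsec⟩ := hb r hr0 hr4
  have hn' : (2 : ℝ) ≤ n := by exact_mod_cast hn
  have hn0 : (0 : ℝ) < n := by linarith
  have hr1 : r < 1 := by linarith
  have hH1 : 1 ≤ H := by linarith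
  have hH0 : 0 < H := by linarith
  have hcont : ContinuousOn (fun w => VV n f (phi z w) - VV n f z) (ball 0 1) :=
    (VV_phi_continuousOn hf hfb hz).sub continuousOn_const
  have hint : Integrable (fun ζ : sphere (0 : Cn n) 1 => VV n f (phi z (r • (ζ : Cn n))) - VV n f z)
      (sigma n) := integrable_sphere (F := fun w => VV n f (phi z w) - VV n f z) hr0.le hr1 hcont
  have hint2 : Integrable (fun ζ : sphere (0 : Cn n) 1 =>
      (VV n f (phi z (r • (ζ : Cn n))) - VV n f z) ^ 2) (sigma n) :=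
    integrable_sphere (F := fun w => (VV n f (phi z w) - VV n f z) ^ 2) hr0.le hr1 (hcont.pow 2)
  have hintT : Integrable (fun ζ : sphere (0 : Cn n) 1 => theta H (VV n f (phi z (r • (ζ : Cn n))) - v0))
      (sigma n) := by
    apply integrable_sphere (F := fun w => theta H (VV n f (phi z w) - v0)) hr0.le hr1
    exact (theta_continuous hH1).comp_continuousOn ((VV_phi_continuousOn hf hfb hz).sub continuousOn_const)
  set x : ℝ := VV n f z - v0 with hx
  obtain ⟨ξ, hξ⟩ : ∃ ξ : sphere (0 : Cn n) 1 → ℝ,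
      ∀ ζ, ξ ζ = VV n f (phi z (r • (ζ : Cn n))) - VV n f z := ⟨_, fun _ => rfl⟩
  have hxi : ∀ ζ : sphere (0 : Cn n) 1, VV n f (phi z (r • (ζ : Cn n))) - v0 = x + ξ ζ := by
    intro ζ; rw [hξ, hx]; ring
  have hξ1 : ∀ ζ, |ξ ζ| < 1 := by
    intro ζ; rw [hξ]; exact (hbd ζ).trans_lt hr
  have hξb : ∀ ζ, |ξ ζ| ≤ 6 * n * r := by
    intro ζ; rw [hξ]; exact hbd ζ
  simp_rw [hxi] at hintT ⊢
  simp_rw [← hξ] at hint hint2 hmean hsec
  have hM1 : ∫ ζ, ξ ζ ∂(sigma n) ≤ 9 * n * r ^ 3 := by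
    have : 0 ≤ r ^ 2 * (1 - ‖b‖ ^ 2) := by
      apply mul_nonneg (by positivity)
      nlinarith [norm_nonneg b]
    linarith
  have hilin : ∀ a c : ℝ, Integrable (fun ζ => a + c * ξ ζ) (sigma n) := fun a c =>
    (integrable_const _).add (hint.const_mul _)
  have hr3 : 0 < r ^ 3 := by positivity
  have hr2 : 0 < r ^ 2 := by positivity
  have hd0 := dtheta_nonneg hH1 x
  have hdH := dtheta_le hH1 x
  by_cases c1 : x < -2
  · -- far left
    have hW : indW n f v0 z = 0 := by
      unfold indW; rw [if_neg]; rintro ⟨h1, -⟩; linarith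
    have hB : indB n f v0 H z = 0 := by
      unfold indB; rw [if_neg]; rintro ⟨h1, -⟩; linarith
    rw [hW, hB]
    have : ∀ ζ, theta H (x + ξ ζ) = 0 := fun ζ => theta_T4 c1.le (hξ1 ζ).le
    simp_rw [this]
    have h2 := theta_nonneg hH1 x
    simp only [integral_zero, mul_zero, add_zero, sub_zero]
    positivity
  · push Not at c1
    by_cases c2 : x < 1
    · -- window
      have hW : indW n f v0 z = 1 := by
        unfold indW; rw [if_pos]; exact ⟨by linarith, by linarith⟩
      have hB : indB n f v0 H z = 0 := by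
        unfold indB; rw [if_neg]; rintro ⟨h1, -⟩; linarith
      rw [hW, hB]
      have h1 : ∫ ζ, theta H (x + ξ ζ) ∂(sigma n) ≤
          ∫ ζ, (theta H x + dtheta H x * ξ ζ + H / 2 * (6 * n * r) ^ 2) ∂(sigma n) := by
        apply integral_mono hintT ((hilin _ _).add (integrable_const _))
        intro ζ
        have h2 := theta_T1 hH1 x (ξ ζ)
        have h3 : (ξ ζ) ^ 2 ≤ (6 * n * r) ^ 2 := by
          rw [← sq_abs]
          have := hξb ζ
          gcongr
        have h4 : H / 2 * (ξ ζ) ^ 2 ≤ H / 2 * (6 * n * r) ^ 2 := by gcongr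
        show theta H (x + ξ ζ) ≤ theta H x + dtheta H x * ξ ζ + H / 2 * (6 * n * r) ^ 2
        linarith
      have h2 : ∫ ζ, (theta H x + dtheta H x * ξ ζ + H / 2 * (6 * n * r) ^ 2) ∂(sigma n) =
          theta H x + dtheta H x * ∫ ζ, ξ ζ ∂(sigma n) + H / 2 * (6 * n * r) ^ 2 := by
        rw [integral_add (hilin _ _) (integrable_const _),
          integral_add (integrable_const _) (hint.const_mul _), integral_const_mul]
        simp
      rw [h2] at h1
      have h3 : dtheta H x * ∫ ζ, ξ ζ ∂(sigma n) ≤ H * (9 * n * r ^ 3) := by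
        calc dtheta H x * ∫ ζ, ξ ζ ∂(sigma n) ≤ dtheta H x * (9 * n * r ^ 3) := by gcongr
          _ ≤ H * (9 * n * r ^ 3) := by gcongr
      have h4 : 0 < 36 * (n : ℝ) ^ 2 * r ^ 3 := by positivity
      nlinarith
    · push Not at c2
      have hW0 : 0 ≤ 18 * (n : ℝ) ^ 2 * H * r ^ 2 * indW n f v0 z := by
        have : 0 ≤ indW n f v0 z := by unfold indW; split_ifs <;> norm_num
        positivity
      by_cases c3 : x ≤ H - 1
      · -- bulk
        have h1 : ∫ ζ, theta H (x + ξ ζ) ∂(sigma n) =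
            theta H x + (H - x) * ∫ ζ, ξ ζ ∂(sigma n) - (∫ ζ, (ξ ζ) ^ 2 ∂(sigma n)) / 2 := by
          have : ∀ ζ, theta H (x + ξ ζ) = theta H x + (H - x) * ξ ζ - (1 / 2 : ℝ) * (ξ ζ) ^ 2 := by
            intro ζ
            rw [theta_T3 c2 c3 (hξ1 ζ)]; ring
          simp_rw [this]
          rw [integral_sub (hilin _ _) (hint2.const_mul _),
            integral_add (integrable_const _) (hint.const_mul _), integral_const_mul, integral_const_mul]
          simp
          ring
        rw [h1]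
        set m : Cn n := (n : ℂ) • (f z • b) - z with hm
        have h0b : 0 ≤ 1 - ‖b‖ ^ 2 := by nlinarith [norm_nonneg b]
        have h3 : (H - x) * ∫ ζ, ξ ζ ∂(sigma n) ≤ -r ^ 2 * (1 - ‖b‖ ^ 2) + 9 * n * H * r ^ 3 := by
          have hHx : 1 ≤ H - x := by linarith
          have hHx2 : H - x ≤ H := by linarith
          calc (H - x) * ∫ ζ, ξ ζ ∂(sigma n) ≤ (H - x) * (-r ^ 2 * (1 - ‖b‖ ^ 2) + 9 * n * r ^ 3) := by
                gcongr
            _ = -((H - x) * (r ^ 2 * (1 - ‖b‖ ^ 2))) + (H - x) * (9 * n * r ^ 3) := by ring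
            _ ≤ -(1 * (r ^ 2 * (1 - ‖b‖ ^ 2))) + H * (9 * n * r ^ 3) := by gcongr
            _ = _ := by ring
        have h4 : (∫ ζ, (ξ ζ) ^ 2 ∂(sigma n)) / 2 ≥ r ^ 2 * (‖m‖ ^ 2 / n) - 36 * n ^ 2 * r ^ 3 := by
          have : 2 * r ^ 2 * ‖m‖ ^ 2 / n = 2 * (r ^ 2 * (‖m‖ ^ 2 / n)) := by ring
          rw [this] at hsec
          linarith
        have h5 : theta H x + (H - x) * ∫ ζ, ξ ζ ∂(sigma n) - (∫ ζ, (ξ ζ) ^ 2 ∂(sigma n)) / 2 ≤
            theta H x + (9 * n * H + 36 * n ^ 2) * r ^ 3 - r ^ 2 * ((1 - ‖b‖ ^ 2) + ‖m‖ ^ 2 / n) := by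
          nlinarith
        refine h5.trans ?_
        by_cases c4 : 3 / 4 ≤ ‖f z‖
        · have hB : indB n f v0 H z = 1 := by
            unfold indB; rw [if_pos]; exact ⟨c2, c3, c4⟩
          have h6 := gain_lower hn hb1 hz c4
          rw [hB]
          have h7 : r ^ 2 * (1 / (10 * n)) ≤ r ^ 2 * ((1 - ‖b‖ ^ 2) + ‖m‖ ^ 2 / n) := by gcongr
          linarith
        · have hB : indB n f v0 H z = 0 := by
            unfold indB; rw [if_neg]; rintro ⟨-, -, h⟩; exact c4 h
          rw [hB]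
          have h7 : 0 ≤ r ^ 2 * ((1 - ‖b‖ ^ 2) + ‖m‖ ^ 2 / n) := by positivity
          linarith
      · -- far right
        have hB : indB n f v0 H z = 0 := by
          unfold indB; rw [if_neg]; rintro ⟨-, h1, -⟩; exact c3 h1
        rw [hB]
        have h1 : ∫ ζ, theta H (x + ξ ζ) ∂(sigma n) ≤
            ∫ ζ, (theta H x + dtheta H x * ξ ζ) ∂(sigma n) := by
          apply integral_mono hintT ((integrable_const _).add (hint.const_mul _))
          intro ζ
          exact theta_T2 hH1 c2 (hξ1 ζ).le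
        rw [integral_add (integrable_const _) (hint.const_mul _), integral_const_mul] at h1
        have h3 : dtheta H x * ∫ ζ, ξ ζ ∂(sigma n) ≤ H * (9 * n * r ^ 3) := by
          calc dtheta H x * ∫ ζ, ξ ζ ∂(sigma n) ≤ dtheta H x * (9 * n * r ^ 3) := by gcongr
            _ ≤ H * (9 * n * r ^ 3) := by gcongr
        have h4 : 0 < 36 * (n : ℝ) ^ 2 * r ^ 3 := by positivity
        simp only [integral_const, probReal_univ, one_smul] at h1
        nlinarith

end Pool.Agent.MPdb50ff
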