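import Mathlib
import Pool.Agent.Lib.MP_db50ff_an.Defs
import Pool.Agent.Lib.MP_db50ff_an.A1
import Pool.Agent.Lib.MP_db50ff_an.A2
import Pool.Agent.Lib.MP_db50ff_an.A3
import Pool.Agent.Lib.MP_db50ff_an.A4
import Pool.Agent.Lib.MP_db50ff_an.A5
import Pool.Agent.Lib.MP_db50ff_an.A6

set_option autoImplicit false

/-!
The invariant random walk in the ball and its occupation times.
-/

namespace Pool.Agent.MPdb50ff

open MeasureTheory Metric Set Filter Topology

open scoped InnerProductSpace ComplexConjugate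

/-- one step of the walk -/
noncomputable def stepMap (n : ℕ) (r : ℝ) (p : Cn n × sphere (0 : Cn n) 1) : Cn n :=
  phi p.1 (r • (p.2 : Cn n))

theorem stepMap_measurable (n : ℕ) (r : ℝ) : Measurable (stepMap n r) := by
  have h2 : Continuous (fun p : Cn n × sphere (0 : Cn n) 1 => r • (p.2 : Cn n)) :=
    (continuous_subtype_val.comp continuous_snd).const_smul r
  have h : Measurable (fun p : Cn n × sphere (0 : Cn n) 1 => (p.1, r • (p.2 : Cn n))) :=
    measurable_fst.prodMk h2.measurable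
  have h3 : stepMap n r = (fun p : Cn n × Cn n => phi p.1 p.2) ∘
    (fun p : Cn n × sphere (0 : Cn n) 1 => (p.1, r • (p.2 : Cn n))) := rfl
  rw [h3]
  exact phi_measurable.comp h

/-- law of the walk after `k` steps, started at the origin -/
noncomputable def walk (n : ℕ) (r : ℝ) : ℕ → Measure (Cn n)
  | 0 => Measure.dirac 0
  | k + 1 => Measure.map (stepMap n r) ((walk n r k).prod (sigma n))

instance walk_prob {n : ℕ} [NeZero n] (r : ℝ) (k : ℕ) : IsProbabilityMeasure (walk n r k) := by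
  induction k with
  | zero => unfold walk; infer_instance
  | succ k ih =>
    unfold walk
    exact Measure.isProbabilityMeasure_map (stepMap_measurable n r).aemeasurable

theorem walk_ball {n : ℕ} [NeZero n] {r : ℝ} (hr0 : 0 ≤ r) (hr1 : r < 1) (k : ℕ) :
    ∀ᵐ z ∂(walk n r k), ‖z‖ < 1 := by
  induction k with
  | zero =>
    unfold walk
    rw [ae_dirac_eq]
    simp
  | succ k ih =>
    unfold walk
    rw [ae_map_iff (stepMap_measurable n r).aemeasurable (measurableSet_lt (by fun_prop) (by fun_prop))]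
    have h1 : ∀ᵐ p ∂((walk n r k).prod (sigma n)), ‖p.1‖ < 1 :=
      Measure.quasiMeasurePreserving_fst.ae ih
    filter_upwards [h1] with p hp
    apply phi_lt_one hp
    rw [norm_smul, norm_sph, mul_one, Real.norm_of_nonneg hr0]
    exact hr1

theorem walk_inv {n : ℕ} [NeZero n] (r : ℝ) (k : ℕ) (U : Cn n ≃ₗᵢ[ℂ] Cn n) :
    Measure.map (fun z => U z) (walk n r k) = walk n r k := by
  have hU : Measurable (fun z => U z) := U.continuous.measurable
  induction k with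
  | zero =>
    unfold walk
    rw [Measure.map_dirac' hU]
    simp
  | succ k ih =>
    unfold walk
    rw [Measure.map_map hU (stepMap_measurable n r)]
    have h1 : (fun z => U z) ∘ stepMap n r = stepMap n r ∘ (Prod.map (fun z => U z) (sphMap U)) := by
      ext1 p
      simp only [Function.comp_apply, stepMap]
      rw [← phi_map]
      congr 1
      exact (toRealIso U).map_smul r (p.2 : Cn n)
    rw [h1, ← Measure.map_map (stepMap_measurable n r) (hU.prodMap (continuous_sphMap U).measurable),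
      ← Measure.map_prod_map _ _ hU (continuous_sphMap U).measurable, ih, sigma_map]

theorem walk_succ_integral {n : ℕ} [NeZero n] {r : ℝ} {k : ℕ} {u : Cn n → ℝ} (hu : Measurable u)
    {C : ℝ} (hC : ∀ z, |u z| ≤ C) :
    ∫ z, u z ∂(walk n r (k + 1)) =
      ∫ z, ∫ ζ : sphere (0 : Cn n) 1, u (phi z (r • (ζ : Cn n))) ∂(sigma n) ∂(walk n r k) := by
  have h1 : walk n r (k + 1) = Measure.map (stepMap n r) ((walk n r k).prod (sigma n)) := rfl
  rw [h1, integral_map (stepMap_measurable n r).aemeasurable hu.aestronglyMeasurable, integral_prod]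
  · rfl
  · exact Integrable.of_bound (hu.comp (stepMap_measurable n r)).aestronglyMeasurable C
      (Eventually.of_forall fun p => by rw [Real.norm_eq_abs]; exact hC _)

theorem walk_polar {n : ℕ} [NeZero n] (r : ℝ) (k : ℕ) {u : Cn n → ℝ} (hu : Measurable u)
    {C : ℝ} (hC : ∀ z, |u z| ≤ C) :
    ∫ z, u z ∂(walk n r k) =
      ∫ ζ, ∫ z, u (polarMap n (z, ζ)) ∂(walk n r k) ∂(sigma n) := by
  have h1 := polar (walk n r k) (walk_inv r k)
  have hm : Measurable (polarMap n) := (polarMap_continuous n).measurable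
  conv_lhs => rw [← h1]
  rw [integral_map hm.aemeasurable hu.aestronglyMeasurable, integral_prod_symm]
  exact Integrable.of_bound (hu.comp hm).aestronglyMeasurable C
      (Eventually.of_forall fun p => by rw [Real.norm_eq_abs]; exact hC _)

/-- the mean of `(1-r²)/|1+<rζ,z>|²` is at most `1 - r²/4` -/
theorem poisson_mean {n : ℕ} [NeZero n] (hn : 2 ≤ n) {z : Cn n} (hz : ‖z‖ < 1) {r : ℝ}
    (hr0 : 0 < r) (hr : r ≤ 1 / 200) :
    ∫ ζ : sphere (0 : Cn n) 1, (1 - r ^ 2) / ‖1 + ⟪z, r • (ζ : Cn n)⟫_ℂ‖ ^ 2 ∂(sigma n) ≤ 1 - r ^ 2 / 4 := by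
  have hn' : (2 : ℝ) ≤ n := by exact_mod_cast hn
  have hn0 : (0 : ℝ) < n := by linarith
  have hr1 : r < 1 := by linarith
  have hr2 : 0 < 1 - r ^ 2 := by nlinarith
  have hwn : ∀ ζ : sphere (0 : Cn n) 1, ‖r • (ζ : Cn n)‖ = r := by
    intro ζ
    rw [norm_smul, norm_sph, mul_one, Real.norm_of_nonneg hr0.le]
  have hq : DifferentiableOn ℂ (fun w : Cn n => ⟪z, w⟫_ℂ) (ball 0 1) :=
    (innerSL ℂ z).differentiable.differentiableOn
  have hq1 : ∀ w ∈ ball (0 : Cn n) 1, ‖⟪z, w⟫_ℂ‖ < 1 := by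
    intro w hw
    rw [mem_ball_zero_iff] at hw
    have := norm_inner_le_norm (𝕜 := ℂ) z w
    nlinarith [norm_nonneg z, norm_nonneg w]
  have m2 := log_mean hq hq1 (by simp) hr0.le hr1
  have i2 := log_integrable hq hq1 hr0.le hr1
  have e2 : Real.log (1 - r ^ 2) ≤ -r ^ 2 := by
    have h3 := neg_log_lower (x := r ^ 2) (by nlinarith)
    linarith
  have e2' : -(2 * r ^ 2) ≤ Real.log (1 - r ^ 2) := by
    have h4 := neg_log_upper (x := r ^ 2) (by positivity) (by nlinarith)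
    have h5 : r ^ 2 ≤ 1 / 2 := by nlinarith
    have h6 : 0 < r ^ 2 := by positivity
    have : (r ^ 2) ^ 2 ≤ r ^ 2 / 2 := by nlinarith
    linarith
  obtain ⟨y, hy⟩ : ∃ y : sphere (0 : Cn n) 1 → ℝ, ∀ ζ, y ζ = Real.log (1 - r ^ 2) -
    2 * Real.log ‖1 + ⟪z, r • (ζ : Cn n)⟫_ℂ‖ := ⟨_, fun _ => rfl⟩
  have hexp : ∀ ζ : sphere (0 : Cn n) 1, (1 - r ^ 2) / ‖1 + ⟪z, r • (ζ : Cn n)⟫_ℂ‖ ^ 2 = Real.exp (y ζ) := by
    intro ζ
    have h0 : 0 < ‖1 + ⟪z, r • (ζ : Cn n)⟫_ℂ‖ :=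
      norm_pos_iff.2 (one_add_inner_ne hz (by rw [hwn]; exact hr1))
    rw [hy, Real.exp_sub, Real.exp_log hr2]
    congr 1
    rw [mul_comm, Real.exp_mul, Real.exp_log h0]
    norm_num
  have hre : ∀ ζ : sphere (0 : Cn n) 1, ‖⟪z, r • (ζ : Cn n)⟫_ℂ‖ ≤ r := by
    intro ζ
    have := norm_inner_le_norm (𝕜 := ℂ) z (r • (ζ : Cn n))
    rw [hwn] at this
    nlinarith
  have hyapp : ∀ ζ : sphere (0 : Cn n) 1, |y ζ + 2 * (⟪z, r • (ζ : Cn n)⟫_ℂ).re| ≤ 4 * r ^ 2 := by
    intro ζ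
    have h1 := log_norm_bound (p := ⟪z, r • (ζ : Cn n)⟫_ℂ) (by linarith [hre ζ])
    have h3 : ‖⟪z, r • (ζ : Cn n)⟫_ℂ‖ ^ 2 ≤ r ^ 2 := by
      have := hre ζ
      gcongr
    have h4 := abs_le.1 h1
    rw [hy, abs_le]
    constructor <;> nlinarith [h4.1, h4.2]
  have hlin : ∀ ζ : sphere (0 : Cn n) 1, |2 * (⟪z, r • (ζ : Cn n)⟫_ℂ).re| ≤ 2 * r := by
    intro ζ
    rw [abs_mul, abs_of_pos (by norm_num : (0:ℝ) < 2)]
    have h1 := (Complex.abs_re_le_norm (⟪z, r • (ζ : Cn n)⟫_ℂ)).trans (hre ζ)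
    linarith
  have hyb : ∀ ζ, |y ζ| ≤ 3 * r := by
    intro ζ
    have h1 := hyapp ζ
    have h2 := hlin ζ
    have h3 : |y ζ| ≤ |y ζ + 2 * (⟪z, r • (ζ : Cn n)⟫_ℂ).re| + |2 * (⟪z, r • (ζ : Cn n)⟫_ℂ).re| := by
      have := abs_sub (y ζ + 2 * (⟪z, r • (ζ : Cn n)⟫_ℂ).re) (2 * (⟪z, r • (ζ : Cn n)⟫_ℂ).re)
      simpa using this
    nlinarith
  have hysq : ∀ ζ : sphere (0 : Cn n) 1, (y ζ) ^ 2 ≤ r ^ 2 * (2 * (⟪z, (ζ : Cn n)⟫_ℂ).re) ^ 2 + 20 * r ^ 3 := by
    intro ζ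
    have h3 : (⟪z, r • (ζ : Cn n)⟫_ℂ).re = r * (⟪z, (ζ : Cn n)⟫_ℂ).re := by
      rw [← Complex.coe_smul, inner_smul_right, Complex.mul_re]; simp
    have h1 := hyapp ζ
    have h2 := hlin ζ
    set A := 2 * (⟪z, r • (ζ : Cn n)⟫_ℂ).re with hA
    have h4 : r ^ 2 * (2 * (⟪z, (ζ : Cn n)⟫_ℂ).re) ^ 2 = A ^ 2 := by rw [hA, h3]; ring
    rw [h4]
    have h5 : (y ζ) ^ 2 = A ^ 2 - 2 * (A * (y ζ + A)) + (y ζ + A) ^ 2 := by ring
    have h6 : |A * (y ζ + A)| ≤ (2 * r) * (4 * r ^ 2) := by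
      rw [abs_mul]; gcongr
    have h7 := (abs_le.1 h6).1
    have h8 : (y ζ + A) ^ 2 ≤ (4 * r ^ 2) ^ 2 := by
      rw [← sq_abs]; gcongr
    have h9 : (4 * r ^ 2) ^ 2 = 16 * r * r ^ 3 := by ring
    have h10 : 0 < r ^ 3 := by positivity
    nlinarith
  have hexpb : ∀ ζ, Real.exp (y ζ) ≤ 1 + y ζ + (y ζ) ^ 2 / 2 + 27 * r ^ 3 := by
    intro ζ
    have h1 : |y ζ| ≤ 1 := (hyb ζ).trans (by linarith)
    have h2 := Real.exp_bound h1 (n := 3) (by norm_num)
    have h3 : ∑ m ∈ Finset.range 3, (y ζ) ^ m / (m.factorial : ℝ) = 1 + y ζ + (y ζ) ^ 2 / 2 := by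
      simp [Finset.sum_range_succ, Nat.factorial]
    rw [h3] at h2
    have h4 := (abs_le.1 h2).2
    have h5 : |y ζ| ^ 3 ≤ (3 * r) ^ 3 := by
      have := hyb ζ
      gcongr
    have h6 : |y ζ| ^ 3 * ((Nat.succ 3 : ℕ) / ((Nat.factorial 3 : ℕ) * (3 : ℕ) : ℝ)) ≤ |y ζ| ^ 3 * 1 := by
      apply mul_le_mul_of_nonneg_left _ (by positivity)
      norm_num [Nat.factorial]
    have h7 : (3 * r) ^ 3 = 27 * r ^ 3 := by ring
    push_cast at h4 h6
    linarith
  have i6 : Integrable (fun ζ : sphere (0 : Cn n) 1 => (2 * (⟪z, (ζ : Cn n)⟫_ℂ).re) ^ 2) (sigma n) := by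
    have hc : Continuous (fun ζ : sphere (0 : Cn n) 1 => (2 * (⟪z, (ζ : Cn n)⟫_ℂ).re) ^ 2) := by fun_prop
    exact hc.integrable_of_hasCompactSupport (HasCompactSupport.of_compactSpace _)
  have iy : Integrable y (sigma n) := by
    have : y = fun ζ : sphere (0 : Cn n) 1 => Real.log (1 - r ^ 2) - 2 * Real.log ‖1 + ⟪z, r • (ζ : Cn n)⟫_ℂ‖ := funext hy
    rw [this]
    exact (integrable_const _).sub (i2.const_mul 2)
  have iexp : Integrable (fun ζ => Real.exp (y ζ)) (sigma n) := by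
    simp_rw [← hexp]
    apply integrable_sphere (F := fun w => (1 - r ^ 2) / ‖1 + ⟪z, w⟫_ℂ‖ ^ 2) hr0.le hr1
    apply ContinuousOn.div continuousOn_const
    · fun_prop
    · intro w hw
      rw [mem_ball_zero_iff] at hw
      exact pow_ne_zero 2 (norm_ne_zero_iff.2 (one_add_inner_ne hz hw))
  have my : ∫ ζ, y ζ ∂(sigma n) = Real.log (1 - r ^ 2) := by
    simp_rw [hy]
    rw [integral_sub (integrable_const _) (i2.const_mul 2), integral_const_mul, m2]
    simp
  simp_rw [hexp]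
  have hbig : ∀ ζ, Real.exp (y ζ) ≤ (1 + 37 * r ^ 3) + y ζ + (r ^ 2 / 2) * (2 * (⟪z, (ζ : Cn n)⟫_ℂ).re) ^ 2 := by
    intro ζ
    have h1 := hexpb ζ
    have h2 := hysq ζ
    linarith
  have ilin : Integrable (fun ζ => (1 + 37 * r ^ 3) + y ζ) (sigma n) := (integrable_const _).add iy
  calc ∫ ζ, Real.exp (y ζ) ∂(sigma n) ≤
      ∫ ζ : sphere (0 : Cn n) 1, ((1 + 37 * r ^ 3) + y ζ + (r ^ 2 / 2) * (2 * (⟪z, (ζ : Cn n)⟫_ℂ).re) ^ 2) ∂(sigma n) := by
        apply integral_mono iexp (ilin.add (i6.const_mul _))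
        exact hbig
    _ = (1 + 37 * r ^ 3) + Real.log (1 - r ^ 2) + (r ^ 2 / 2) * (2 * ‖z‖ ^ 2 / n) := by
        rw [integral_add ilin (i6.const_mul _), integral_add (integrable_const _) iy,
          integral_const_mul, re_inner_sq, my]
        simp
    _ ≤ 1 - r ^ 2 / 4 := by
        have h1 : 2 * ‖z‖ ^ 2 / (n : ℝ) ≤ 1 := by
          rw [div_le_one hn0]
          nlinarith [norm_nonneg z]
        have h2 : (r ^ 2 / 2) * (2 * ‖z‖ ^ 2 / n) ≤ (r ^ 2 / 2) * 1 := by gcongr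
        have h3 : r ^ 3 = r ^ 2 * r := by ring
        have h4 : 0 < r ^ 2 := by positivity
        nlinarith

/-- potential function -/
noncomputable def psi {n : ℕ} (ε0 : ℝ) (z : Cn n) : ℝ := min 1 (max 0 ((1 - ‖z‖ ^ 2) / ε0))

/-- indicator of a shell -/
noncomputable def indI {n : ℕ} (κ ε0 : ℝ) (z : Cn n) : ℝ :=
  if κ * ε0 ≤ 1 - ‖z‖ ^ 2 ∧ 1 - ‖z‖ ^ 2 ≤ ε0 then 1 else 0

theorem psi_nonneg {n : ℕ} (ε0 : ℝ) (z : Cn n) : 0 ≤ psi ε0 z := by
  unfold psi
  exact le_min zero_le_one (le_max_left _ _)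

theorem psi_le_one {n : ℕ} (ε0 : ℝ) (z : Cn n) : psi ε0 z ≤ 1 := min_le_left _ _

theorem psi_continuous {n : ℕ} (ε0 : ℝ) : Continuous (psi (n := n) ε0) := by
  unfold psi; fun_prop

theorem indI_nonneg {n : ℕ} (κ ε0 : ℝ) (z : Cn n) : 0 ≤ indI κ ε0 z := by
  unfold indI; split_ifs <;> norm_num

theorem indI_le_one {n : ℕ} (κ ε0 : ℝ) (z : Cn n) : indI κ ε0 z ≤ 1 := by
  unfold indI; split_ifs <;> norm_num

theorem indI_measurable {n : ℕ} (κ ε0 : ℝ) : Measurable (indI (n := n) κ ε0) := by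
  unfold indI
  apply Measurable.ite _ measurable_const measurable_const
  have h1 : Measurable (fun z : Cn n => 1 - ‖z‖ ^ 2) := by fun_prop
  exact (measurableSet_le measurable_const h1).inter (measurableSet_le h1 measurable_const)

theorem psi_step {n : ℕ} [NeZero n] (hn : 2 ≤ n) {z : Cn n} (hz : ‖z‖ < 1) {r : ℝ}
    (hr0 : 0 < r) (hr : r ≤ 1 / 200) {κ ε0 : ℝ} (hκ : 0 < κ) (hε : 0 < ε0) :
    ∫ ζ : sphere (0 : Cn n) 1, psi ε0 (phi z (r • (ζ : Cn n))) ∂(sigma n) ≤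
      psi ε0 z - r ^ 2 / 4 * κ * indI κ ε0 z := by
  have hr1 : r < 1 := by linarith
  have hwn : ∀ ζ : sphere (0 : Cn n) 1, ‖r • (ζ : Cn n)‖ = r := by
    intro ζ
    rw [norm_smul, norm_sph, mul_one, Real.norm_of_nonneg hr0.le]
  have hz2 : 0 < 1 - ‖z‖ ^ 2 := by nlinarith [norm_nonneg z]
  have hP := poisson_mean hn hz hr0 hr
  have iP : Integrable (fun ζ : sphere (0 : Cn n) 1 => (1 - r ^ 2) / ‖1 + ⟪z, r • (ζ : Cn n)⟫_ℂ‖ ^ 2) (sigma n) := by
    apply integrable_sphere (F := fun w => (1 - r ^ 2) / ‖1 + ⟪z, w⟫_ℂ‖ ^ 2) hr0.le hr1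
    apply ContinuousOn.div continuousOn_const
    · fun_prop
    · intro w hw
      rw [mem_ball_zero_iff] at hw
      exact pow_ne_zero 2 (norm_ne_zero_iff.2 (one_add_inner_ne hz hw))
  have ipsi : Integrable (fun ζ : sphere (0 : Cn n) 1 => psi ε0 (phi z (r • (ζ : Cn n)))) (sigma n) := by
    apply integrable_sphere (F := fun w => psi ε0 (phi z w)) hr0.le hr1
    exact (psi_continuous ε0).comp_continuousOn (phi_differentiableOn hz).continuousOn
  have h1 : ∫ ζ : sphere (0 : Cn n) 1, psi ε0 (phi z (r • (ζ : Cn n))) ∂(sigma n) ≤ 1 := by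
    calc _ ≤ ∫ ζ : sphere (0 : Cn n) 1, (1 : ℝ) ∂(sigma n) :=
          integral_mono ipsi (integrable_const _) (fun ζ => psi_le_one _ _)
      _ = 1 := by simp
  have h2 : ∫ ζ : sphere (0 : Cn n) 1, psi ε0 (phi z (r • (ζ : Cn n))) ∂(sigma n) ≤
      (1 - ‖z‖ ^ 2) / ε0 * (1 - r ^ 2 / 4) := by
    calc _ ≤ ∫ ζ : sphere (0 : Cn n) 1, (1 - ‖z‖ ^ 2) / ε0 * ((1 - r ^ 2) / ‖1 + ⟪z, r • (ζ : Cn n)⟫_ℂ‖ ^ 2) ∂(sigma n) := by
          apply integral_mono ipsi (iP.const_mul _)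
          intro ζ
          have h3 := phi_norm hz (w := r • (ζ : Cn n)) (by rw [hwn]; exact hr1)
          have h4 := phi_lt_one hz (w := r • (ζ : Cn n)) (by rw [hwn]; exact hr1)
          have h5 : 0 ≤ (1 - ‖phi z (r • (ζ : Cn n))‖ ^ 2) / ε0 := by
            apply div_nonneg _ hε.le
            nlinarith [norm_nonneg (phi z (r • (ζ : Cn n)))]
          show psi ε0 (phi z (r • (ζ : Cn n))) ≤ _
          unfold psi
          refine (min_le_right _ _).trans ?_
          rw [max_eq_right h5, h3, hwn]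
          apply le_of_eq
          ring
      _ = (1 - ‖z‖ ^ 2) / ε0 * ∫ ζ : sphere (0 : Cn n) 1, ((1 - r ^ 2) / ‖1 + ⟪z, r • (ζ : Cn n)⟫_ℂ‖ ^ 2) ∂(sigma n) := by
          rw [integral_const_mul]
      _ ≤ _ := by gcongr
  have hq : 0 < (1 - ‖z‖ ^ 2) / ε0 := div_pos hz2 hε
  have hr2 : 0 < r ^ 2 := by positivity
  have hpsi : psi ε0 z = min 1 ((1 - ‖z‖ ^ 2) / ε0) := by
    unfold psi; rw [max_eq_right hq.le]
  rw [hpsi]
  by_cases hI : κ * ε0 ≤ 1 - ‖z‖ ^ 2 ∧ 1 - ‖z‖ ^ 2 ≤ ε0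
  · have h6 : indI κ ε0 z = 1 := by unfold indI; rw [if_pos hI]
    have h7 : (1 - ‖z‖ ^ 2) / ε0 ≤ 1 := by rw [div_le_one hε]; exact hI.2
    have h8 : κ ≤ (1 - ‖z‖ ^ 2) / ε0 := by rw [le_div_iff₀ hε]; exact hI.1
    rw [h6, min_eq_right h7]
    have h9 : r ^ 2 / 4 * κ ≤ r ^ 2 / 4 * ((1 - ‖z‖ ^ 2) / ε0) := by gcongr
    linarith
  · have h6 : indI κ ε0 z = 0 := by unfold indI; rw [if_neg hI]
    rw [h6, mul_zero, sub_zero]
    apply le_min h1
    refine h2.trans ?_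
    nlinarith [mul_pos hq hr2]

/-- occupation time of a shell -/
theorem occupation {n : ℕ} [NeZero n] (hn : 2 ≤ n) {r : ℝ}
    (hr0 : 0 < r) (hr : r ≤ 1 / 200) {κ ε0 : ℝ} (hκ : 0 < κ) (hε : 0 < ε0) (K : ℕ) :
    ∑ k ∈ Finset.range K, r ^ 2 * ∫ z, indI κ ε0 z ∂(walk n r k) ≤ 4 / κ := by
  have hr1 : r < 1 := by linarith
  have hstep : ∀ k, ∫ z, psi ε0 z ∂(walk n r (k + 1)) ≤
      ∫ z, psi ε0 z ∂(walk n r k) - r ^ 2 / 4 * κ * ∫ z, indI κ ε0 z ∂(walk n r k) := by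
    intro k
    have ipsi : ∀ k, Integrable (fun z => psi ε0 z) (walk n r k) := fun k =>
      Integrable.of_bound (psi_continuous ε0).aestronglyMeasurable 1
        (Eventually.of_forall fun z => by
          rw [Real.norm_of_nonneg (psi_nonneg _ _)]; exact psi_le_one _ _)
    have iI : Integrable (fun z => indI κ ε0 z) (walk n r k) :=
      Integrable.of_bound (indI_measurable κ ε0).aestronglyMeasurable 1
        (Eventually.of_forall fun z => by
          rw [Real.norm_of_nonneg (indI_nonneg _ _ _)]; exact indI_le_one _ _ _)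
    rw [walk_succ_integral (psi_continuous ε0).measurable (C := 1)
      (fun z => by rw [abs_of_nonneg (psi_nonneg _ _)]; exact psi_le_one _ _)]
    rw [← integral_const_mul, ← integral_sub (ipsi k) (iI.const_mul _)]
    apply integral_mono_ae _ ((ipsi k).sub (iI.const_mul _))
    · filter_upwards [walk_ball hr0.le hr1 k] with z hz
      exact psi_step hn hz hr0 hr hκ hε
    · apply Integrable.of_bound (C := 1)
      · have hm : StronglyMeasurable (fun p : Cn n × sphere (0 : Cn n) 1 => psi ε0 (stepMap n r p)) :=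
          ((psi_continuous ε0).measurable.comp (stepMap_measurable n r)).stronglyMeasurable
        exact hm.integral_prod_right.aestronglyMeasurable
      · refine Eventually.of_forall fun z => ?_
        rw [Real.norm_of_nonneg (integral_nonneg fun ζ => psi_nonneg _ _)]
        have hm : Measurable (fun ζ : sphere (0 : Cn n) 1 => psi ε0 (phi z (r • (ζ : Cn n)))) := by
          have := (psi_continuous ε0).measurable.comp ((stepMap_measurable n r).comp
            (measurable_const.prodMk measurable_id : Measurable (fun ζ : sphere (0 : Cn n) 1 => (z, ζ))))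
          exact this
        calc _ ≤ ∫ ζ : sphere (0 : Cn n) 1, (1 : ℝ) ∂(sigma n) := by
              apply integral_mono _ (integrable_const _) (fun ζ => psi_le_one _ _)
              exact Integrable.of_bound hm.aestronglyMeasurable 1 (Eventually.of_forall fun ζ => by
                rw [Real.norm_of_nonneg (psi_nonneg _ _)]; exact psi_le_one _ _)
          _ = 1 := by simp
  have hsum : ∀ K : ℕ, (r ^ 2 / 4 * κ) * ∑ k ∈ Finset.range K, ∫ z, indI κ ε0 z ∂(walk n r k) ≤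
      1 - ∫ z, psi ε0 z ∂(walk n r K) := by
    intro K
    induction K with
    | zero =>
      simp only [Finset.range_zero, Finset.sum_empty, mul_zero]
      have : ∫ z, psi ε0 z ∂(walk n r 0) ≤ 1 := by
        unfold walk
        rw [integral_dirac]
        exact psi_le_one _ _
      linarith
    | succ K ih =>
      rw [Finset.sum_range_succ, mul_add]
      have := hstep K
      linarith
  have h1 := hsum K
  have h2 : 0 ≤ ∫ z, psi ε0 z ∂(walk n r K) := integral_nonneg fun z => psi_nonneg _ _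
  rw [← Finset.mul_sum, le_div_iff₀ hκ]
  nlinarith

end Pool.Agent.MPdb50ff
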