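import Mathlib
import Pool.Agent.Lib.MP_db50ff_an.Defs
import Pool.Agent.Lib.MP_db50ff_an.A1
import Pool.Agent.Lib.MP_db50ff_an.A2
import Pool.Agent.Lib.MP_db50ff_an.A3
import Pool.Agent.Lib.MP_db50ff_an.A4
import Pool.Agent.Lib.MP_db50ff_an.A5
import Pool.Agent.Lib.MP_db50ff_an.A6
import Pool.Agent.Lib.MP_db50ff_an.A7
import Pool.Agent.Lib.MP_db50ff_an.A8

set_option autoImplicit false

/-!
No admissible function satisfies a Lipschitz condition of order `1/n`.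
-/

namespace Pool.Agent.MPdb50ff

open MeasureTheory Metric Set Filter Topology

open scoped InnerProductSpace ComplexConjugate

theorem VV_measurable {n : ℕ} {f : Cn n → ℂ} (hf : Measurable f) : Measurable (VV n f) := by
  unfold VV
  apply Measurable.add
  · exact (Real.measurable_log.comp (measurable_const.sub (hf.norm.pow_const 2))).const_mul _
  · exact Real.measurable_log.comp (by fun_prop)

theorem indW_measurable {n : ℕ} {f : Cn n → ℂ} (hf : Measurable f) (v0 : ℝ) :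
    Measurable (indW n f v0) := by
  unfold indW
  apply Measurable.ite _ measurable_const measurable_const
  have h1 : Measurable (fun z => VV n f z - v0) := (VV_measurable hf).sub_const _
  exact (measurableSet_le measurable_const h1).inter (measurableSet_le h1 measurable_const)

theorem indB_measurable {n : ℕ} {f : Cn n → ℂ} (hf : Measurable f) (v0 H : ℝ) :
    Measurable (indB n f v0 H) := by
  unfold indB
  apply Measurable.ite _ measurable_const measurable_const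
  have h1 : Measurable (fun z => VV n f z - v0) := (VV_measurable hf).sub_const _
  exact (measurableSet_le measurable_const h1).inter
    ((measurableSet_le h1 measurable_const).inter (measurableSet_le measurable_const hf.norm))

theorem indW_nonneg {n : ℕ} (f : Cn n → ℂ) (v0 : ℝ) (z : Cn n) : 0 ≤ indW n f v0 z := by
  unfold indW; split_ifs <;> norm_num

theorem indW_le_one {n : ℕ} (f : Cn n → ℂ) (v0 : ℝ) (z : Cn n) : indW n f v0 z ≤ 1 := by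
  unfold indW; split_ifs <;> norm_num

theorem indB_nonneg {n : ℕ} (f : Cn n → ℂ) (v0 H : ℝ) (z : Cn n) : 0 ≤ indB n f v0 H z := by
  unfold indB; split_ifs <;> norm_num

theorem indB_le_one {n : ℕ} (f : Cn n → ℂ) (v0 H : ℝ) (z : Cn n) : indB n f v0 H z ≤ 1 := by
  unfold indB; split_ifs <;> norm_num

/-- logarithmic form of the window condition -/
theorem VV_le_iff {n : ℕ} {f : Cn n → ℂ} {z : Cn n} (hD : 0 < 1 - ‖f z‖ ^ 2)
    (hz : 0 < 1 - ‖z‖ ^ 2) {A : ℝ} (hA : 0 < A) (t : ℝ) :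
    VV n f z ≤ t - n * Real.log A ↔ (1 - ‖z‖ ^ 2) * A ^ n ≤ Real.exp t * (1 - ‖f z‖ ^ 2) ^ n := by
  unfold VV
  have h1 : Real.log ((1 - ‖z‖ ^ 2) * A ^ n) = Real.log (1 - ‖z‖ ^ 2) + n * Real.log A := by
    rw [Real.log_mul hz.ne' (by positivity), Real.log_pow]
  have h2 : Real.log (Real.exp t * (1 - ‖f z‖ ^ 2) ^ n) = t + n * Real.log (1 - ‖f z‖ ^ 2) := by
    rw [Real.log_mul (Real.exp_pos t).ne' (by positivity), Real.log_exp, Real.log_pow]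
  rw [← Real.log_le_log_iff (x := (1 - ‖z‖ ^ 2) * A ^ n) (by positivity) (by positivity), h1, h2]
  constructor <;> intro h <;> linarith

theorem VV_ge_iff {n : ℕ} {f : Cn n → ℂ} {z : Cn n} (hD : 0 < 1 - ‖f z‖ ^ 2)
    (hz : 0 < 1 - ‖z‖ ^ 2) {A : ℝ} (hA : 0 < A) (t : ℝ) :
    t - n * Real.log A ≤ VV n f z ↔ Real.exp t * (1 - ‖f z‖ ^ 2) ^ n ≤ (1 - ‖z‖ ^ 2) * A ^ n := by
  unfold VV
  have h1 : Real.log ((1 - ‖z‖ ^ 2) * A ^ n) = Real.log (1 - ‖z‖ ^ 2) + n * Real.log A := by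
    rw [Real.log_mul hz.ne' (by positivity), Real.log_pow]
  have h2 : Real.log (Real.exp t * (1 - ‖f z‖ ^ 2) ^ n) = t + n * Real.log (1 - ‖f z‖ ^ 2) := by
    rw [Real.log_mul (Real.exp_pos t).ne' (by positivity), Real.log_exp, Real.log_pow]
  rw [← Real.log_le_log_iff (x := Real.exp t * (1 - ‖f z‖ ^ 2) ^ n) (by positivity) (by positivity), h1, h2]
  constructor <;> intro h <;> linarith

/-- the constant `κ = 3^{-n} e^{-3}` -/
noncomputable def kap (n : ℕ) : ℝ := (3 ^ n * Real.exp 3)⁻¹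

theorem kap_pos (n : ℕ) : 0 < kap n := by unfold kap; positivity

/-- on a radius, the window is visited only in a shell of bounded hyperbolic width -/
theorem window_shell {n : ℕ} (hn : 1 ≤ n) {f : Cn n → ℂ} (hfb : ∀ z ∈ ball (0 : Cn n) 1, ‖f z‖ < 1)
    {C' : ℝ} (hC : 1 ≤ C') {ζ : sphere (0 : Cn n) 1} (hζ : ‖f ζ‖ < 1)
    (hH : ∀ ρ : ℝ, 0 ≤ ρ → ρ < 1 → |(1 - ‖f (ρ • (ζ : Cn n))‖ ^ 2) - (1 - ‖f ζ‖ ^ 2)| ≤
      C' * (1 - ρ ^ 2) ^ ((1 : ℝ) / n)) {ρ : ℝ} (hρ0 : 0 ≤ ρ) (hρ1 : ρ < 1) {v0 : ℝ}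
    (hv0 : v0 = -1 - n * Real.log (2 * C'))
    (hw : -2 ≤ VV n f (ρ • (ζ : Cn n)) - v0 ∧ VV n f (ρ • (ζ : Cn n)) - v0 ≤ 1) :
    kap n * ((1 - ‖f ζ‖ ^ 2) / C') ^ n ≤ 1 - ρ ^ 2 ∧ 1 - ρ ^ 2 ≤ ((1 - ‖f ζ‖ ^ 2) / C') ^ n := by
  have hn0 : (n : ℝ) ≠ 0 := by positivity
  have hzn : ‖ρ • (ζ : Cn n)‖ = ρ := by
    rw [norm_smul, norm_sph, mul_one, Real.norm_of_nonneg hρ0]
  have hzb : ρ • (ζ : Cn n) ∈ ball (0 : Cn n) 1 := by rw [mem_ball_zero_iff, hzn]; exact hρ1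
  have hF := hfb _ hzb
  set z : Cn n := ρ • (ζ : Cn n) with hz
  have hD : 0 < 1 - ‖f z‖ ^ 2 := by nlinarith [norm_nonneg (f z)]
  have hd : 0 < 1 - ‖f ζ‖ ^ 2 := by nlinarith [norm_nonneg (f ζ)]
  have hε : 0 < 1 - ‖z‖ ^ 2 := by rw [hzn]; nlinarith
  have hC0 : 0 < C' := by linarith
  obtain ⟨D, hDdef⟩ : ∃ D, D = 1 - ‖f z‖ ^ 2 := ⟨_, rfl⟩
  obtain ⟨d, hddef⟩ : ∃ d, d = 1 - ‖f ζ‖ ^ 2 := ⟨_, rfl⟩
  obtain ⟨e, hedef⟩ : ∃ e, e = (1 - ρ ^ 2) ^ ((1 : ℝ) / n) := ⟨_, rfl⟩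
  have hε' : 0 < 1 - ρ ^ 2 := by rwa [hzn] at hε
  have he0 : 0 < e := by rw [hedef]; positivity
  have hen : e ^ n = 1 - ρ ^ 2 := by
    rw [hedef, ← Real.rpow_natCast, ← Real.rpow_mul hε'.le, one_div, inv_mul_cancel₀ hn0, Real.rpow_one]
  have h1 := hH ρ hρ0 hρ1
  rw [← hz, ← hDdef, ← hddef, ← hedef] at h1
  rw [← hDdef] at hD
  rw [← hddef] at hd ⊢
  have hw1 : VV n f z ≤ 0 - n * Real.log (2 * C') := by linarith [hw.2]
  have hw2 : -3 - n * Real.log (2 * C') ≤ VV n f z := by linarith [hw.1]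
  rw [VV_le_iff (by rw [← hDdef]; exact hD) hε (by positivity), hzn, ← hDdef, Real.exp_zero, one_mul, ← hen,
    ← mul_pow] at hw1
  rw [VV_ge_iff (by rw [← hDdef]; exact hD) hε (by positivity), hzn, ← hDdef, ← hen] at hw2
  have h2 : e * (2 * C') ≤ D := le_of_pow_le_pow_left₀ (by omega) hD.le hw1
  have h3 := abs_le.1 h1
  have h4 : C' * e ≤ d := by linarith [h3.2]
  have h5 : d ≤ 3 / 2 * D := by linarith [h3.1]
  rw [← hen]
  constructor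
  · -- lower
    have h6 : D ^ n ≤ Real.exp 3 * (e ^ n * (2 * C') ^ n) := by
      have h7 : Real.exp 3 * (Real.exp (-3) * D ^ n) = D ^ n := by
        rw [← mul_assoc, ← Real.exp_add]; simp
      rw [← h7]
      exact mul_le_mul_of_nonneg_left hw2 (Real.exp_pos 3).le
    have h8 : d ^ n ≤ (3 / 2) ^ n * (Real.exp 3 * (e ^ n * (2 * C') ^ n)) := by
      calc d ^ n ≤ (3 / 2 * D) ^ n := by gcongr
        _ = (3 / 2) ^ n * D ^ n := by rw [mul_pow]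
        _ ≤ _ := by gcongr
    have h9 : (3 / 2) ^ n * (Real.exp 3 * (e ^ n * (2 * C') ^ n)) = (3 ^ n * Real.exp 3) * (e ^ n * C' ^ n) := by
      have : (3 / 2 : ℝ) ^ n * (2 * C') ^ n = 3 ^ n * C' ^ n := by
        rw [← mul_pow, ← mul_pow]; congr 1; ring
      calc _ = ((3 / 2 : ℝ) ^ n * (2 * C') ^ n) * (Real.exp 3 * e ^ n) := by ring
        _ = _ := by rw [this]; ring
    rw [h9] at h8
    unfold kap
    rw [div_pow, inv_mul_le_iff₀ (by positivity), div_le_iff₀ (by positivity)]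
    linarith
  · have : e ≤ d / C' := by rw [le_div_iff₀ hC0]; linarith
    gcongr

/-- on a radius ending at a point where `|f| = 1`, `V` stays large -/
theorem radius_E {n : ℕ} (hn : 1 ≤ n) {f : Cn n → ℂ} (hfb : ∀ z ∈ ball (0 : Cn n) 1, ‖f z‖ < 1)
    {C' : ℝ} (hC : 1 ≤ C') {ζ : sphere (0 : Cn n) 1} (hζ : ‖f ζ‖ = 1)
    (hH : ∀ ρ : ℝ, 0 ≤ ρ → ρ < 1 → |(1 - ‖f (ρ • (ζ : Cn n))‖ ^ 2) - (1 - ‖f ζ‖ ^ 2)| ≤
      C' * (1 - ρ ^ 2) ^ ((1 : ℝ) / n)) {ρ : ℝ} (hρ0 : 0 ≤ ρ) (hρ1 : ρ < 1) {v0 : ℝ}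
    (hv0 : v0 = -1 - n * Real.log (2 * C')) :
    1 < VV n f (ρ • (ζ : Cn n)) - v0 := by
  have hn0 : (n : ℝ) ≠ 0 := by positivity
  have hnpos : (0 : ℝ) < n := by positivity
  have hzn : ‖ρ • (ζ : Cn n)‖ = ρ := by
    rw [norm_smul, norm_sph, mul_one, Real.norm_of_nonneg hρ0]
  have hzb : ρ • (ζ : Cn n) ∈ ball (0 : Cn n) 1 := by rw [mem_ball_zero_iff, hzn]; exact hρ1
  have hF := hfb _ hzb
  set z : Cn n := ρ • (ζ : Cn n) with hz
  have hD : 0 < 1 - ‖f z‖ ^ 2 := by nlinarith [norm_nonneg (f z)]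
  have hε : 0 < 1 - ‖z‖ ^ 2 := by rw [hzn]; nlinarith
  have hε' : 0 < 1 - ρ ^ 2 := by rwa [hzn] at hε
  have hC0 : 0 < C' := by linarith
  have h1 := hH ρ hρ0 hρ1
  rw [← hz, hζ] at h1
  have h2 : 1 - ‖f z‖ ^ 2 ≤ C' * (1 - ρ ^ 2) ^ ((1 : ℝ) / n) := by
    have := (abs_le.1 h1).2
    linarith
  have h3 : (1 - ‖f z‖ ^ 2) ^ n ≤ (1 - ρ ^ 2) * C' ^ n := by
    calc (1 - ‖f z‖ ^ 2) ^ n ≤ (C' * (1 - ρ ^ 2) ^ ((1 : ℝ) / n)) ^ n := by gcongr
      _ = (1 - ρ ^ 2) * C' ^ n := by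
        rw [mul_pow, ← Real.rpow_natCast ((1 - ρ ^ 2) ^ ((1 : ℝ) / n)), ← Real.rpow_mul hε'.le, one_div,
          inv_mul_cancel₀ hn0, Real.rpow_one, mul_comm]
  have h4 : 0 - n * Real.log C' ≤ VV n f z := by
    rw [VV_ge_iff hD hε hC0, Real.exp_zero, one_mul, hzn]
    exact h3
  have h5 : Real.log (2 * C') = Real.log 2 + Real.log C' := Real.log_mul (by norm_num) hC0.ne'
  have h6 : 0 < (n : ℝ) * Real.log 2 := mul_pos hnpos (Real.log_pos (by norm_num))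
  rw [hv0, h5]
  linarith

end Pool.Agent.MPdb50ff
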