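import Mathlib
import Pool.Agent.Lib.MP_db50ff_an.Defs
import Pool.Agent.Lib.MP_db50ff_an.A1
import Pool.Agent.Lib.MP_db50ff_an.A2
import Pool.Agent.Lib.MP_db50ff_an.A3
import Pool.Agent.Lib.MP_db50ff_an.A4
import Pool.Agent.Lib.MP_db50ff_an.A5
import Pool.Agent.Lib.MP_db50ff_an.A6
import Pool.Agent.Lib.MP_db50ff_an.A7
import Pool.Agent.Lib.MP_db50ff_an.A8
import Pool.Agent.Lib.MP_db50ff_an.A9

set_option autoImplicit false

/-!
The contradiction.
-/

namespace Pool.Agent.MPdb50ff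

open MeasureTheory Metric Set Filter Topology

open scoped InnerProductSpace ComplexConjugate

theorem bdd_integrable {α : Type*} [MeasurableSpace α] {μ : Measure α} [IsFiniteMeasure μ]
    {u : α → ℝ} (hu : Measurable u) {C : ℝ} (hC : ∀ z, |u z| ≤ C) : Integrable u μ :=
  Integrable.of_bound hu.aestronglyMeasurable C
    (Eventually.of_forall fun z => by rw [Real.norm_eq_abs]; exact hC z)

theorem inner_step_integrable {n : ℕ} [NeZero n] {r : ℝ} {k : ℕ} {u : Cn n → ℝ} (hu : Measurable u)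
    {C : ℝ} (hC : ∀ z, |u z| ≤ C) :
    Integrable (fun z => ∫ ζ : sphere (0 : Cn n) 1, u (phi z (r • (ζ : Cn n))) ∂(sigma n))
      (walk n r k) := by
  have hm : StronglyMeasurable (fun p : Cn n × sphere (0 : Cn n) 1 => u (stepMap n r p)) :=
    (hu.comp (stepMap_measurable n r)).stronglyMeasurable
  apply Integrable.of_bound (C := C) hm.integral_prod_right.aestronglyMeasurable
  refine Eventually.of_forall fun z => ?_
  have h1 := norm_integral_le_of_norm_le_const (μ := sigma n) (C := C)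
    (f := fun ζ : sphere (0 : Cn n) 1 => u (phi z (r • (ζ : Cn n))))
    (Eventually.of_forall fun ζ => by rw [Real.norm_eq_abs]; exact hC _)
  simpa using h1

theorem inner_polar_integrable {n : ℕ} [NeZero n] {r : ℝ} {k : ℕ} {u : Cn n → ℝ} (hu : Measurable u)
    {C : ℝ} (hC : ∀ z, |u z| ≤ C) :
    Integrable (fun ζ : sphere (0 : Cn n) 1 => ∫ z, u (polarMap n (z, ζ)) ∂(walk n r k)) (sigma n) := by
  have hm : StronglyMeasurable (fun p : Cn n × sphere (0 : Cn n) 1 => u (polarMap n p)) :=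
    (hu.comp (polarMap_continuous n).measurable).stronglyMeasurable
  apply Integrable.of_bound (C := C) hm.integral_prod_left'.aestronglyMeasurable
  refine Eventually.of_forall fun ζ => ?_
  have h1 := norm_integral_le_of_norm_le_const (μ := walk n r k) (C := C)
    (f := fun z => u (polarMap n (z, ζ)))
    (Eventually.of_forall fun z => by rw [Real.norm_eq_abs]; exact hC _)
  simpa using h1

theorem one_n {n : ℕ} (hn : 2 ≤ n) : 1 ≤ n := by omega

theorem window_occ {n : ℕ} [NeZero n] (hn : 2 ≤ n) {f : Cn n → ℂ} (hfm : Measurable f)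
    (hfb : ∀ z ∈ ball (0 : Cn n) 1, ‖f z‖ < 1) (hfs : ∀ ζ : sphere (0 : Cn n) 1, ‖f ζ‖ ≤ 1)
    {C' : ℝ} (hC : 1 ≤ C')
    (hH : ∀ ζ : sphere (0 : Cn n) 1, ∀ ρ : ℝ, 0 ≤ ρ → ρ < 1 →
      |(1 - ‖f (ρ • (ζ : Cn n))‖ ^ 2) - (1 - ‖f ζ‖ ^ 2)| ≤ C' * (1 - ρ ^ 2) ^ ((1 : ℝ) / n))
    {v0 : ℝ} (hv0 : v0 = -1 - n * Real.log (2 * C')) {r : ℝ} (hr0 : 0 < r) (hr : r ≤ 1 / 200) (K : ℕ) :
    ∑ k ∈ Finset.range K, r ^ 2 * ∫ z, indW n f v0 z ∂(walk n r k) ≤ 4 / kap n := by
  have hr1 : r < 1 := by linarith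
  have hWm := indW_measurable hfm v0
  have hWb : ∀ z, |indW n f v0 z| ≤ 1 := fun z => by
    rw [abs_of_nonneg (indW_nonneg _ _ _)]; exact indW_le_one _ _ _
  have h1 : ∑ k ∈ Finset.range K, r ^ 2 * ∫ z, indW n f v0 z ∂(walk n r k) =
      ∫ ζ, ∑ k ∈ Finset.range K, r ^ 2 * ∫ z, indW n f v0 (polarMap n (z, ζ)) ∂(walk n r k) ∂(sigma n) := by
    rw [integral_finsetSum]
    · apply Finset.sum_congr rfl
      intro k _
      rw [integral_const_mul, ← walk_polar r k hWm hWb]
    · intro k _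
      exact (inner_polar_integrable hWm hWb).const_mul _
  rw [h1]
  have h2 : ∀ ζ : sphere (0 : Cn n) 1,
      ∑ k ∈ Finset.range K, r ^ 2 * ∫ z, indW n f v0 (polarMap n (z, ζ)) ∂(walk n r k) ≤ 4 / kap n := by
    intro ζ
    have hpos : 0 ≤ 4 / kap n := by have := kap_pos n; positivity
    rcases lt_or_eq_of_le (hfs ζ) with hlt | heq
    · have hε : 0 < ((1 - ‖f ζ‖ ^ 2) / C') ^ n := by
        have : 0 < 1 - ‖f ζ‖ ^ 2 := by nlinarith [norm_nonneg (f ζ)]
        positivity
      refine le_trans ?_ (occupation hn hr0 hr (kap_pos n) hε K)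
      apply Finset.sum_le_sum
      intro k _
      apply mul_le_mul_of_nonneg_left _ (by positivity)
      apply integral_mono_ae
      · exact bdd_integrable (hWm.comp ((polarMap_continuous n).measurable.comp
          (measurable_id.prodMk measurable_const))) (fun z => hWb _)
      · exact bdd_integrable (indI_measurable _ _) (C := 1) (fun z => by
          rw [abs_of_nonneg (indI_nonneg _ _ _)]; exact indI_le_one _ _ _)
      · filter_upwards [walk_ball hr0.le hr1 k] with z hz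
        show indW n f v0 (polarMap n (z, ζ)) ≤ indI (kap n) (((1 - ‖f ζ‖ ^ 2) / C') ^ n) z
        by_cases hw : -2 ≤ VV n f (‖z‖ • (ζ : Cn n)) - v0 ∧ VV n f (‖z‖ • (ζ : Cn n)) - v0 ≤ 1
        · have := window_shell (one_n hn) hfb hC hlt (hH ζ) (norm_nonneg z) hz hv0 hw
          have h3 : indI (kap n) (((1 - ‖f ζ‖ ^ 2) / C') ^ n) z = 1 := by
            unfold indI; rw [if_pos this]
          rw [h3]
          exact indW_le_one _ _ _
        · have h3 : indW n f v0 (polarMap n (z, ζ)) = 0 := by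
            unfold indW polarMap; rw [if_neg hw]
          rw [h3]
          exact indI_nonneg _ _ _
    · refine le_trans (le_of_eq ?_) hpos
      apply Finset.sum_eq_zero
      intro k _
      have : ∫ z, indW n f v0 (polarMap n (z, ζ)) ∂(walk n r k) = 0 := by
        apply integral_eq_zero_of_ae
        filter_upwards [walk_ball hr0.le hr1 k] with z hz
        have h3 := radius_E (one_n hn) hfb hC heq (hH ζ) (norm_nonneg z) hz hv0
        show indW n f v0 (polarMap n (z, ζ)) = 0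
        unfold indW polarMap
        rw [if_neg]
        rintro ⟨-, h4⟩
        simp only at h4
        linarith
      rw [this, mul_zero]
  calc _ ≤ ∫ ζ : sphere (0 : Cn n) 1, 4 / kap n ∂(sigma n) := by
        apply integral_mono _ (integrable_const _) h2
        exact integrable_finsetSum _ fun k _ => (inner_polar_integrable hWm hWb).const_mul _
    _ = 4 / kap n := by simp

/-- indicator of `V ≥ v0 + 1` -/
noncomputable def indG (n : ℕ) (f : Cn n → ℂ) (v0 : ℝ) (z : Cn n) : ℝ :=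
  if 1 ≤ VV n f z - v0 then 1 else 0

theorem indG_nonneg {n : ℕ} (f : Cn n → ℂ) (v0 : ℝ) (z : Cn n) : 0 ≤ indG n f v0 z := by
  unfold indG; split_ifs <;> norm_num

theorem indG_le_one {n : ℕ} (f : Cn n → ℂ) (v0 : ℝ) (z : Cn n) : indG n f v0 z ≤ 1 := by
  unfold indG; split_ifs <;> norm_num

theorem indG_measurable {n : ℕ} {f : Cn n → ℂ} (hf : Measurable f) (v0 : ℝ) :
    Measurable (indG n f v0) := by
  unfold indG
  apply Measurable.ite _ measurable_const measurable_const
  exact measurableSet_le measurable_const ((VV_measurable hf).sub_const _)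

theorem good_mass {n : ℕ} [NeZero n] (hn : 2 ≤ n) {f : Cn n → ℂ} (hfm : Measurable f)
    (hfb : ∀ z ∈ ball (0 : Cn n) 1, ‖f z‖ < 1)
    {C' : ℝ} (hC : 1 ≤ C')
    (hH : ∀ ζ : sphere (0 : Cn n) 1, ∀ ρ : ℝ, 0 ≤ ρ → ρ < 1 →
      |(1 - ‖f (ρ • (ζ : Cn n))‖ ^ 2) - (1 - ‖f ζ‖ ^ 2)| ≤ C' * (1 - ρ ^ 2) ^ ((1 : ℝ) / n))
    {v0 : ℝ} (hv0 : v0 = -1 - n * Real.log (2 * C')) {r : ℝ} (hr0 : 0 < r) (hr1 : r < 1) (k : ℕ) :
    (sigma n).real {ζ | ‖f ζ‖ = 1} ≤ ∫ z, indG n f v0 z ∂(walk n r k) := by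
  have hGm := indG_measurable hfm v0
  have hGb : ∀ z, |indG n f v0 z| ≤ 1 := fun z => by
    rw [abs_of_nonneg (indG_nonneg _ _ _)]; exact indG_le_one _ _ _
  rw [walk_polar r k hGm hGb]
  have hEm : MeasurableSet {ζ : sphere (0 : Cn n) 1 | ‖f ζ‖ = 1} :=
    measurableSet_eq_fun (hfm.comp measurable_subtype_coe).norm measurable_const
  have h1 : (sigma n).real {ζ : sphere (0 : Cn n) 1 | ‖f ζ‖ = 1} =
      ∫ ζ, ({ζ : sphere (0 : Cn n) 1 | ‖f ζ‖ = 1}.indicator (fun _ => (1 : ℝ))) ζ ∂(sigma n) := by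
    rw [integral_indicator hEm]
    simp
  rw [h1]
  apply integral_mono _ (inner_polar_integrable hGm hGb)
  · intro ζ
    by_cases hζ : ‖f ζ‖ = 1
    · have h2 : ({ζ : sphere (0 : Cn n) 1 | ‖f ζ‖ = 1}.indicator (fun _ => (1 : ℝ))) ζ = 1 :=
        Set.indicator_of_mem (s := {ζ : sphere (0 : Cn n) 1 | ‖f ζ‖ = 1}) hζ _
      simp only [h2]
      have h3 : ∫ z, indG n f v0 (polarMap n (z, ζ)) ∂(walk n r k) = 1 := by
        have : ∀ᵐ z ∂(walk n r k), indG n f v0 (polarMap n (z, ζ)) = 1 := by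
          filter_upwards [walk_ball hr0.le hr1 k] with z hz
          have h3 := radius_E (one_n hn) hfb hC hζ (hH ζ) (norm_nonneg z) hz hv0
          unfold indG polarMap
          rw [if_pos]
          exact h3.le
        rw [integral_congr_ae this]
        simp
      rw [h3]
    · have h2 : ({ζ : sphere (0 : Cn n) 1 | ‖f ζ‖ = 1}.indicator (fun _ => (1 : ℝ))) ζ = 0 :=
        Set.indicator_of_notMem (s := {ζ : sphere (0 : Cn n) 1 | ‖f ζ‖ = 1}) hζ _
      simp only [h2]
      exact integral_nonneg fun z => indG_nonneg _ _ _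
  · exact (integrable_const _).indicator hEm

theorem theta_lin {H : ℝ} (hH : 1 ≤ H) {x : ℝ} (hx : 0 ≤ x) : theta H x ≤ H / 2 + H * x := by
  unfold theta
  split_ifs with h1 h2 h3
  · linarith
  · have : x = 0 := le_antisymm h2 hx
    subst this; simp
  · nlinarith [sq_nonneg x]
  · push Not at h3; nlinarith

theorem theta_big {H : ℝ} (hH : 2 ≤ H) {x : ℝ} (hx : H - 1 ≤ x) : H ^ 2 / 2 ≤ theta H x := by
  unfold theta
  rw [if_neg (by linarith : ¬ x ≤ -1)]
  split_ifs with h2 h3
  · linarith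
  · nlinarith [mul_nonneg (by linarith : 0 ≤ x - (H - 1)) (by linarith : 0 ≤ H - x)]
  · linarith

/-- pointwise decomposition of `{V ≥ v0+1}` -/
theorem indG_le {n : ℕ} (hn : 1 ≤ n) {f : Cn n → ℂ} {v0 H C' : ℝ} (hH : 2 ≤ H) (hC : 1 ≤ C')
    (hv0 : v0 = -1 - n * Real.log (2 * C')) {z : Cn n} (hz : ‖z‖ < 1) (hf : ‖f z‖ < 1) :
    indG n f v0 z ≤ indB n f v0 H z + 2 / H ^ 2 * theta H (VV n f z - v0) +
      indI ((7 / (32 * C')) ^ n) 1 z := by
  have hH0 : 0 < H := by linarith
  have h0 : 0 ≤ 2 / H ^ 2 * theta H (VV n f z - v0) := by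
    have := theta_nonneg (by linarith : 1 ≤ H) (VV n f z - v0)
    positivity
  have h1 := indB_nonneg f v0 H z
  have h2 : 0 ≤ indI ((7 / (32 * C')) ^ n) 1 z := indI_nonneg _ _ _
  by_cases hG : 1 ≤ VV n f z - v0
  · have e1 : indG n f v0 z = 1 := by unfold indG; rw [if_pos hG]
    rw [e1]
    by_cases hx : VV n f z - v0 ≤ H - 1
    · by_cases h34 : 3 / 4 ≤ ‖f z‖
      · have e2 : indB n f v0 H z = 1 := by unfold indB; rw [if_pos ⟨hG, hx, h34⟩]
        linarith
      · push Not at h34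
        have e3 : indI ((7 / (32 * C')) ^ n) 1 z = 1 := by
          unfold indI
          rw [if_pos]
          have hD : 7 / 16 ≤ 1 - ‖f z‖ ^ 2 := by nlinarith [norm_nonneg (f z)]
          have hε : 0 < 1 - ‖z‖ ^ 2 := by nlinarith [norm_nonneg z]
          constructor
          · have h3 : 0 - n * Real.log (2 * C') ≤ VV n f z := by linarith
            rw [VV_ge_iff (by linarith) hε (by positivity), Real.exp_zero, one_mul] at h3
            have h4 : (7 / 16 : ℝ) ^ n ≤ (1 - ‖f z‖ ^ 2) ^ n := by gcongr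
            have h5 : (7 / (32 * C')) ^ n * (2 * C') ^ n = (7 / 16 : ℝ) ^ n := by
              rw [← mul_pow]; congr 1; field_simp; norm_num
            have h6 : (7 / (32 * C')) ^ n * (2 * C') ^ n ≤ (1 - ‖z‖ ^ 2) * (2 * C') ^ n := by
              rw [h5]; linarith
            have h7 : 0 < (2 * C') ^ n := by positivity
            rw [mul_one]
            exact le_of_mul_le_mul_right h6 h7
          · nlinarith [norm_nonneg z, sq_nonneg ‖z‖]
        linarith
    · push Not at hx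
      have h5 := theta_big hH hx.le
      have h6 : 1 ≤ 2 / H ^ 2 * theta H (VV n f z - v0) := by
        rw [div_mul_eq_mul_div, le_div_iff₀ (by positivity)]
        linarith
      linarith
  · have e1 : indG n f v0 z = 0 := by unfold indG; rw [if_neg hG]
    rw [e1]
    positivity

end Pool.Agent.MPdb50ff
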