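import Mathlib
import Pool.Agent.Lib.MP_db50ff_an.Defs
import Pool.Agent.Lib.MP_db50ff_an.A10

set_option autoImplicit false

/-!
No admissible function satisfies a Lipschitz condition of order `1/n`.
-/

namespace Pool.Agent.MPdb50ff

open MeasureTheory Metric Set Filter Topology

open scoped InnerProductSpace ComplexConjugate

theorem no_order {n : ℕ} [NeZero n] (hn : 2 ≤ n) {f : Cn n → ℂ} (hfm : Measurable f)
    (hf : DifferentiableOn ℂ f (ball 0 1))
    (hfb : ∀ z ∈ ball (0 : Cn n) 1, ‖f z‖ < 1) (hfs : ∀ ζ : sphere (0 : Cn n) 1, ‖f ζ‖ ≤ 1)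
    (hf0 : f 0 = 0) {C' : ℝ} (hC : 1 ≤ C')
    (hH : ∀ ζ : sphere (0 : Cn n) 1, ∀ ρ : ℝ, 0 ≤ ρ → ρ < 1 →
      |(1 - ‖f (ρ • (ζ : Cn n))‖ ^ 2) - (1 - ‖f ζ‖ ^ 2)| ≤ C' * (1 - ρ ^ 2) ^ ((1 : ℝ) / n))
    (hE : 0 < (sigma n).real {ζ | ‖f ζ‖ = 1}) : False := by
  have hn' : (2 : ℝ) ≤ n := by exact_mod_cast hn
  have hn0 : (0 : ℝ) < n := by linarith
  obtain ⟨s0, hs0⟩ : ∃ s0, s0 = (sigma n).real {ζ : sphere (0 : Cn n) 1 | ‖f ζ‖ = 1} := ⟨_, rfl⟩
  rw [← hs0] at hE
  obtain ⟨v0, hv0⟩ : ∃ v0 : ℝ, v0 = -1 - n * Real.log (2 * C') := ⟨_, rfl⟩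
  obtain ⟨T0, hT0⟩ : ∃ T0 : ℝ, T0 = 4 / kap n := ⟨_, rfl⟩
  have hT0pos : 0 < T0 := by rw [hT0]; have := kap_pos n; positivity
  obtain ⟨X, hX⟩ : ∃ X : ℝ, X = -v0 := ⟨_, rfl⟩
  have hXpos : 0 < X := by
    rw [hX, hv0]
    have : 0 < Real.log (2 * C') := Real.log_pos (by linarith)
    have := mul_pos hn0 this
    linarith
  obtain ⟨ε1, hε1⟩ : ∃ ε1 : ℝ, ε1 = (7 / (32 * C')) ^ n := ⟨_, rfl⟩
  have hε1pos : 0 < ε1 := by rw [hε1]; positivity
  obtain ⟨Y, hY⟩ : ∃ Y : ℝ, Y = 1 / 2 + X + 18 * n ^ 2 * T0 + 1 := ⟨_, rfl⟩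
  have hYpos : 0 < Y := by rw [hY]; positivity
  obtain ⟨H, hHdef⟩ : ∃ H : ℝ, H = max 4 (4 * Y / s0) := ⟨_, rfl⟩
  have hH4 : 4 ≤ H := by rw [hHdef]; exact le_max_left _ _
  have hHY : 4 * Y / s0 ≤ H := by rw [hHdef]; exact le_max_right _ _
  have hH1 : 1 ≤ H := by linarith
  have hHpos : 0 < H := by linarith
  obtain ⟨t, ht⟩ := exists_nat_gt (2 / s0 * (10 * n * (H * Y) + 4 / ε1))
  have htpos : 0 < (t : ℝ) := lt_trans (by positivity) ht
  obtain ⟨κ3, hκ3⟩ : ∃ κ3 : ℝ, κ3 = 9 * n * H + 36 * n ^ 2 := ⟨_, rfl⟩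
  have hκ3pos : 0 < κ3 := by rw [hκ3]; positivity
  obtain ⟨N, hN⟩ := exists_nat_gt (max (κ3 * t) (max 200 (6 * n)))
  have hN1 : κ3 * t < N := lt_of_le_of_lt (le_max_left _ _) hN
  have hN2 : (200 : ℝ) < N := lt_of_le_of_lt (le_trans (le_max_left _ _) (le_max_right _ _)) hN
  have hN3 : 6 * (n : ℝ) < N := lt_of_le_of_lt (le_trans (le_max_right _ _) (le_max_right _ _)) hN
  have hNpos : (0 : ℝ) < N := by linarith
  obtain ⟨r, hr⟩ : ∃ r : ℝ, r = 1 / N := ⟨_, rfl⟩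
  have hr0 : 0 < r := by rw [hr]; positivity
  have hrN : r * N = 1 := by rw [hr]; field_simp
  have hr200 : r ≤ 1 / 200 := by
    rw [hr]
    exact one_div_le_one_div_of_le (by norm_num) hN2.le
  have hr4 : r ≤ 1 / 4 := by linarith
  have hr1 : r < 1 := by linarith
  have hr6 : 6 * n * r < 1 := by
    rw [hr, mul_one_div, div_lt_one hNpos]; exact hN3
  obtain ⟨K, hK⟩ : ∃ K : ℕ, K = t * N ^ 2 := ⟨_, rfl⟩
  have hKr2 : (K : ℝ) * r ^ 2 = t := by
    rw [hK, hr]; push_cast; field_simp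
  have hKr3 : κ3 * (K * r ^ 3) ≤ 1 := by
    have : (K : ℝ) * r ^ 3 = t * r := by
      rw [← hKr2]; ring
    rw [this]
    nlinarith
  -- the sequences
  obtain ⟨a, ha⟩ : ∃ a : ℕ → ℝ, ∀ k, a k = ∫ z, theta H (VV n f z - v0) ∂(walk n r k) := ⟨_, fun _ => rfl⟩
  obtain ⟨W, hW⟩ : ∃ W : ℕ → ℝ, ∀ k, W k = ∫ z, indW n f v0 z ∂(walk n r k) := ⟨_, fun _ => rfl⟩
  obtain ⟨B, hB⟩ : ∃ B : ℕ → ℝ, ∀ k, B k = ∫ z, indB n f v0 H z ∂(walk n r k) := ⟨_, fun _ => rfl⟩
  obtain ⟨S, hS⟩ : ∃ S : ℕ → ℝ, ∀ k, S k = ∫ z, indI ε1 1 z ∂(walk n r k) := ⟨_, fun _ => rfl⟩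
  have hTm : Measurable (fun z => theta H (VV n f z - v0)) :=
    (theta_continuous hH1).measurable.comp ((VV_measurable hfm).sub_const _)
  have hTb : ∀ z, |theta H (VV n f z - v0)| ≤ H / 2 + H ^ 2 / 2 := fun z => by
    rw [abs_of_nonneg (theta_nonneg hH1 _)]; exact theta_le hH1 _
  have hWm := indW_measurable hfm v0
  have hWb : ∀ z, |indW n f v0 z| ≤ 1 := fun z => by
    rw [abs_of_nonneg (indW_nonneg _ _ _)]; exact indW_le_one _ _ _
  have hBm := indB_measurable hfm v0 H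
  have hBb : ∀ z, |indB n f v0 H z| ≤ 1 := fun z => by
    rw [abs_of_nonneg (indB_nonneg _ _ _ _)]; exact indB_le_one _ _ _ _
  have hIm : Measurable (indI (n := n) ε1 1) := indI_measurable _ _
  have hIb : ∀ z : Cn n, |indI ε1 1 z| ≤ 1 := fun z => by
    rw [abs_of_nonneg (indI_nonneg _ _ _)]; exact indI_le_one _ _ _
  have hGm := indG_measurable hfm v0
  have hGb : ∀ z, |indG n f v0 z| ≤ 1 := fun z => by
    rw [abs_of_nonneg (indG_nonneg _ _ _)]; exact indG_le_one _ _ _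
  have iT : ∀ k, Integrable (fun z => theta H (VV n f z - v0)) (walk n r k) := fun k =>
    bdd_integrable hTm hTb
  have iW : ∀ k, Integrable (fun z => indW n f v0 z) (walk n r k) := fun k => bdd_integrable hWm hWb
  have iB : ∀ k, Integrable (fun z => indB n f v0 H z) (walk n r k) := fun k => bdd_integrable hBm hBb
  have iI : ∀ k, Integrable (fun z : Cn n => indI ε1 1 z) (walk n r k) := fun k => bdd_integrable hIm hIb
  have iG : ∀ k, Integrable (fun z => indG n f v0 z) (walk n r k) := fun k => bdd_integrable hGm hGb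
  have ha0 : ∀ k, 0 ≤ a k := fun k => by
    rw [ha]; exact integral_nonneg fun z => theta_nonneg hH1 _
  have hW0 : ∀ k, 0 ≤ W k := fun k => by
    rw [hW]; exact integral_nonneg fun z => indW_nonneg _ _ _
  have hB0 : ∀ k, 0 ≤ B k := fun k => by
    rw [hB]; exact integral_nonneg fun z => indB_nonneg _ _ _ _
  -- one step
  have hstep : ∀ k, a (k + 1) ≤ a k + κ3 * r ^ 3 + 18 * n ^ 2 * H * r ^ 2 * W k -
      1 / (10 * n) * r ^ 2 * B k := by
    intro k
    rw [ha (k + 1), walk_succ_integral hTm hTb]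
    have h1 : ∫ z, (∫ ζ : sphere (0 : Cn n) 1, theta H (VV n f (phi z (r • (ζ : Cn n))) - v0) ∂(sigma n))
        ∂(walk n r k) ≤ ∫ z, ((theta H (VV n f z - v0) + κ3 * r ^ 3) +
          18 * n ^ 2 * H * r ^ 2 * indW n f v0 z - 1 / (10 * n) * r ^ 2 * indB n f v0 H z) ∂(walk n r k) := by
      apply integral_mono_ae (inner_step_integrable hTm hTb)
      · exact (((iT k).add (integrable_const _)).add ((iW k).const_mul _)).sub ((iB k).const_mul _)
      · filter_upwards [walk_ball hr0.le hr1 k] with z hz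
        have := one_step hn hf hfb (v0 := v0) hH4 hz hr0 hr4 hr6
        rw [← hκ3] at this
        exact this
    refine h1.trans (le_of_eq ?_)
    have e1 : Integrable (fun z => theta H (VV n f z - v0) + κ3 * r ^ 3) (walk n r k) :=
      (iT k).add (integrable_const _)
    have e2 : Integrable (fun z => (theta H (VV n f z - v0) + κ3 * r ^ 3) +
        18 * n ^ 2 * H * r ^ 2 * indW n f v0 z) (walk n r k) := e1.add ((iW k).const_mul _)
    rw [integral_sub e2 ((iB k).const_mul _), integral_add e1 ((iW k).const_mul _),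
      integral_add (iT k) (integrable_const _), integral_const, integral_const_mul, integral_const_mul,
      ha, hW, hB, probReal_univ, one_smul]
  -- window time
  have hwin : ∀ k, ∑ j ∈ Finset.range k, r ^ 2 * W j ≤ T0 := by
    intro k
    rw [hT0]
    simp_rw [hW]
    exact window_occ hn hfm hfb hfs hC hH hv0 hr0 hr200 k
  have hin : ∀ k, ∑ j ∈ Finset.range k, r ^ 2 * S j ≤ 4 / ε1 := by
    intro k
    simp_rw [hS]
    exact occupation hn hr0 hr200 hε1pos one_pos k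
  -- telescoping
  have htel : ∀ k, a k ≤ a 0 + κ3 * (k * r ^ 3) + 18 * n ^ 2 * H * ∑ j ∈ Finset.range k, r ^ 2 * W j -
      1 / (10 * n) * ∑ j ∈ Finset.range k, r ^ 2 * B j := by
    intro k
    induction k with
    | zero => simp
    | succ k ih =>
      rw [Finset.sum_range_succ, Finset.sum_range_succ]
      have := hstep k
      push_cast
      linarith
  have ha00 : a 0 ≤ H / 2 + H * X := by
    rw [ha]
    have hw : walk n r 0 = Measure.dirac 0 := rfl
    rw [hw, integral_dirac]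
    have : VV n f 0 - v0 = X := by
      unfold VV
      rw [hf0, hX]; simp
    rw [this]
    exact theta_lin hH1 hXpos.le
  have hHYb : H / 2 + H * X + 1 + 18 * n ^ 2 * H * T0 ≤ H * Y := by
    rw [hY]; nlinarith
  have hak : ∀ k ≤ K, a k ≤ H * Y := by
    intro k hk
    have h1 := htel k
    have h2 : 0 ≤ ∑ j ∈ Finset.range k, r ^ 2 * B j :=
      Finset.sum_nonneg fun j _ => mul_nonneg (by positivity) (hB0 j)
    have h3 := hwin k
    have h4 : κ3 * (k * r ^ 3) ≤ 1 := by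
      refine le_trans ?_ hKr3
      have : (k : ℝ) ≤ K := by exact_mod_cast hk
      gcongr
    have h5 : 18 * (n : ℝ) ^ 2 * H * ∑ j ∈ Finset.range k, r ^ 2 * W j ≤ 18 * n ^ 2 * H * T0 := by gcongr
    have h6 : 0 ≤ 1 / (10 * (n : ℝ)) * ∑ j ∈ Finset.range k, r ^ 2 * B j := by positivity
    linarith
  -- lower bound of the bulk mass
  have hBk : ∀ k ≤ K, s0 / 2 - S k ≤ B k := by
    intro k hk
    have h1 := good_mass hn hfm hfb hC hH hv0 hr0 hr1 k
    rw [← hs0] at h1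
    have h2 : ∫ z, indG n f v0 z ∂(walk n r k) ≤
        ∫ z, (indB n f v0 H z + 2 / H ^ 2 * theta H (VV n f z - v0) + indI ε1 1 z) ∂(walk n r k) := by
      apply integral_mono_ae (iG k) (((iB k).add ((iT k).const_mul _)).add (iI k))
      filter_upwards [walk_ball hr0.le hr1 k] with z hz
      have := indG_le (one_n hn) (by linarith : 2 ≤ H) hC hv0 hz (hfb z (by simpa using hz))
      rw [← hε1] at this
      exact this
    have e1 : Integrable (fun z => indB n f v0 H z + 2 / H ^ 2 * theta H (VV n f z - v0)) (walk n r k) :=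
      (iB k).add ((iT k).const_mul _)
    rw [integral_add e1 (iI k), integral_add (iB k) ((iT k).const_mul _), integral_const_mul, ← ha, ← hB,
      ← hS] at h2
    have h3 : 2 / H ^ 2 * a k ≤ s0 / 2 := by
      have h4 := hak k hk
      have h5 : 4 * Y ≤ H * s0 := by rwa [div_le_iff₀ hE] at hHY
      rw [div_mul_eq_mul_div, div_le_iff₀ (by positivity)]
      nlinarith
    linarith
  have hsumB : t * (s0 / 2) - 4 / ε1 ≤ ∑ j ∈ Finset.range K, r ^ 2 * B j := by
    have h1 : ∑ j ∈ Finset.range K, r ^ 2 * (s0 / 2 - S j) ≤ ∑ j ∈ Finset.range K, r ^ 2 * B j := by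
      apply Finset.sum_le_sum
      intro j hj
      exact mul_le_mul_of_nonneg_left (hBk j (Finset.mem_range.1 hj).le) (by positivity)
    have h2 : ∑ j ∈ Finset.range K, r ^ 2 * (s0 / 2 - S j) =
        (K * r ^ 2) * (s0 / 2) - ∑ j ∈ Finset.range K, r ^ 2 * S j := by
      simp_rw [mul_sub]
      rw [Finset.sum_sub_distrib, Finset.sum_const, Finset.card_range, nsmul_eq_mul]
      ring
    rw [h2, hKr2] at h1
    have h3 := hin K
    linarith
  have hfin := htel K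
  have h3 := hwin K
  have h5 : 18 * (n : ℝ) ^ 2 * H * ∑ j ∈ Finset.range K, r ^ 2 * W j ≤ 18 * n ^ 2 * H * T0 := by gcongr
  have h7 : 1 / (10 * (n : ℝ)) * (t * (s0 / 2) - 4 / ε1) ≤
      1 / (10 * n) * ∑ j ∈ Finset.range K, r ^ 2 * B j := by gcongr
  have h8 : H * Y < 1 / (10 * (n : ℝ)) * (t * (s0 / 2) - 4 / ε1) := by
    rw [one_div, lt_inv_mul_iff₀ (by positivity)]
    rw [div_mul_eq_mul_div, div_lt_iff₀ hE] at ht
    linarith
  have h9 := ha0 K
  linarith

end Pool.Agent.MPdb50ff
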