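import Mathlib
import Pool.Agent.Lib.MP_db50ff_an.Defs
import Pool.Agent.Lib.MP_db50ff_an.A11

set_option autoImplicit false

/-!
Reduction of the theorem to `no_order`.
-/

namespace Pool.Agent.MPdb50ff

open MeasureTheory Metric Set Filter Topology

theorem no_order_inv {n : ℕ} (hn : 2 ≤ n) {α : ℝ} (hα : 1 / (n : ℝ) ≤ α) {f : Cn n → ℂ}
    (hadm : Admissible n f) (hlip : LipOrder n α f) : False := by
  have : NeZero n := ⟨by omega⟩
  obtain ⟨C, hC⟩ := hlip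
  obtain ⟨g, hg⟩ : ∃ g : Cn n → ℂ, g = (closedBall (0 : Cn n) 1).indicator f := ⟨_, rfl⟩
  have hgf : ∀ z ∈ closedBall (0 : Cn n) 1, g z = f z := by
    intro z hz
    rw [hg, indicator_of_mem hz]
  have hgm : Measurable g := by
    rw [hg]
    classical
    have hm : MeasurableSet (closedBall (0 : Cn n) 1) := isClosed_closedBall.measurableSet
    have := hadm.cont.measurable_piecewise (continuousOn_const (c := (0 : ℂ))) hm
    rw [← Set.piecewise_eq_indicator]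
    exact this
  have hgd : DifferentiableOn ℂ g (ball 0 1) :=
    hadm.holo.congr fun z hz => hgf z (ball_subset_closedBall hz)
  have hs : ∀ ζ : sphere (0 : Cn n) 1, (ζ : Cn n) ∈ closedBall (0 : Cn n) 1 := fun ζ =>
    sphere_subset_closedBall ζ.2
  have hb : ∀ z ∈ closedBall (0 : Cn n) 1, ‖g z‖ ≤ 1 := by
    intro z hz; rw [hgf z hz]; exact hadm.bound z hz
  have hg0 : g 0 = 0 := by rw [hgf 0 (by simp)]; exact hadm.zero
  have hb1 : ∀ z ∈ ball (0 : Cn n) 1, ‖g z‖ < 1 := by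
    intro z hz
    have h1 : ‖g z‖ ≤ ‖z‖ := by
      apply Complex.norm_le_norm_of_mapsTo_ball (R := 1) hgd _ hg0 (by simpa using hz)
      intro x hx
      rw [mem_closedBall_zero_iff]
      exact hb x (ball_subset_closedBall hx)
    rw [mem_ball_zero_iff] at hz
    linarith
  have hmeas : 0 < (sigma n).real {ζ : sphere (0 : Cn n) 1 | ‖g ζ‖ = 1} := by
    have h1 : {ζ : sphere (0 : Cn n) 1 | ‖g ζ‖ = 1} = {ζ : sphere (0 : Cn n) 1 | ‖f ζ‖ = 1} := by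
      apply congrArg
      ext ζ
      rw [hgf _ (hs ζ)]
    rw [h1, measureReal_def]
    exact ENNReal.toReal_pos hadm.unimodular.ne' (measure_ne_top _ _)
  refine no_order hn hgm hgd hb1 (fun ζ => hb _ (hs ζ)) hg0 (C' := 2 * |C| + 1)
    (by have := abs_nonneg C; linarith) ?_ hmeas
  intro ζ ρ hρ0 hρ1
  have hz : ρ • (ζ : Cn n) ∈ closedBall (0 : Cn n) 1 := by
    rw [mem_closedBall_zero_iff, norm_smul, norm_sph, mul_one, Real.norm_of_nonneg hρ0]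
    exact hρ1.le
  have h1 := hC _ hz _ (hs ζ)
  have h2 : ‖ρ • (ζ : Cn n) - (ζ : Cn n)‖ = 1 - ρ := by
    have : ρ • (ζ : Cn n) - (ζ : Cn n) = (ρ - 1) • (ζ : Cn n) := by rw [sub_smul, one_smul]
    rw [this, norm_smul, norm_sph, mul_one, Real.norm_eq_abs, abs_sub_comm, abs_of_pos (by linarith)]
  rw [h2, ← hgf _ hz, ← hgf _ (hs ζ)] at h1
  have h0 : 0 < 1 - ρ := by linarith
  have h3 : (1 - ρ) ^ α ≤ (1 - ρ ^ 2) ^ ((1 : ℝ) / n) := by
    calc (1 - ρ) ^ α ≤ (1 - ρ) ^ ((1 : ℝ) / n) :=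
          Real.rpow_le_rpow_of_exponent_ge h0 (by linarith) hα
      _ ≤ (1 - ρ ^ 2) ^ ((1 : ℝ) / n) := by
          apply Real.rpow_le_rpow h0.le
          · nlinarith
          · positivity
  have h4 : ‖g (ρ • (ζ : Cn n)) - g ζ‖ ≤ |C| * (1 - ρ ^ 2) ^ ((1 : ℝ) / n) := by
    have h5 : 0 ≤ (1 - ρ) ^ α := by positivity
    calc _ ≤ C * (1 - ρ) ^ α := h1
      _ ≤ |C| * (1 - ρ) ^ α := mul_le_mul_of_nonneg_right (le_abs_self C) h5
      _ ≤ _ := mul_le_mul_of_nonneg_left h3 (abs_nonneg C)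
  have h6 : |(1 - ‖g (ρ • (ζ : Cn n))‖ ^ 2) - (1 - ‖g ζ‖ ^ 2)| ≤ 2 * ‖g (ρ • (ζ : Cn n)) - g ζ‖ := by
    have e1 : (1 - ‖g (ρ • (ζ : Cn n))‖ ^ 2) - (1 - ‖g ζ‖ ^ 2) =
        -((‖g (ρ • (ζ : Cn n))‖ - ‖g ζ‖) * (‖g (ρ • (ζ : Cn n))‖ + ‖g ζ‖)) := by ring
    rw [e1, abs_neg, abs_mul]
    have e2 : |‖g (ρ • (ζ : Cn n))‖ - ‖g ζ‖| ≤ ‖g (ρ • (ζ : Cn n)) - g ζ‖ := abs_norm_sub_norm_le _ _
    have e3 : |‖g (ρ • (ζ : Cn n))‖ + ‖g ζ‖| ≤ 2 := by
      rw [abs_of_nonneg (by positivity)]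
      have := hb _ hz
      have := hb _ (hs ζ)
      linarith
    calc _ ≤ ‖g (ρ • (ζ : Cn n)) - g ζ‖ * 2 := by gcongr
      _ = _ := by ring
  have h7 : 0 ≤ (1 - ρ ^ 2) ^ ((1 : ℝ) / n) := by
    apply Real.rpow_nonneg
    nlinarith
  nlinarith [abs_nonneg C]

end Pool.Agent.MPdb50ff
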