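import Mathlib
import Pool.Agent.Lib.MP_db50ff_an.Defs
import Pool.Agent.Lib.MP_db50ff_an.Limit

set_option autoImplicit false

namespace Pool.Agent.MPdb50ff

open MeasureTheory Metric Complex Real Filter Topology

open scoped InnerProductSpace ComplexConjugate Pointwise

theorem sigma_pos {d : ℕ} {K : Set (sphere (0 : Cn (d+1)) 1)} (hK : MeasurableSet K)
    (hpos : 0 < volume {w : Fin (d+1) → ℂ | w ∈ region d ∧ ∃ ζ ∈ K, nz w = (ζ : Cn (d+1))}) :
    0 < sigma (d+1) K := by
  have h1 : 0 < (volume : Measure (Cn (d+1))).toSphere K := by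
    rw [Measure.toSphere_apply' _ hK]
    apply ENNReal.mul_pos
    · have : 0 < Module.finrank ℝ (Cn (d+1)) := Module.finrank_pos
      exact_mod_cast this.ne'
    · set e := (PiLp.continuousLinearEquiv 2 ℝ (fun _ : Fin (d+1) => ℂ)).symm with he
      set μ : Measure (Cn (d+1)) := Measure.map e volume with hμ
      have : μ.IsAddHaarMeasure := e.isAddHaarMeasure_map volume
      intro h0
      have h2 : μ (Set.Ioo (0 : ℝ) 1 • ((↑) '' K)) = 0 :=
        Measure.absolutelyContinuous_isAddHaarMeasure μ volume h0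
      have h3 : volume (e ⁻¹' (Set.Ioo (0 : ℝ) 1 • ((↑) '' K : Set (Cn (d+1))))) ≤
          μ (Set.Ioo (0 : ℝ) 1 • ((↑) '' K)) :=
        Measure.le_map_apply e.continuous.measurable.aemeasurable _
      have h4 : {w : Fin (d+1) → ℂ | w ∈ region d ∧ ∃ ζ ∈ K, nz w = (ζ : Cn (d+1))} ⊆
          e ⁻¹' (Set.Ioo (0 : ℝ) 1 • ((↑) '' K : Set (Cn (d+1)))) := by
        rintro w ⟨hw, ζ, hζ, hwζ⟩
        rw [Set.mem_preimage, Set.mem_smul]
        have hw0 := region_ne_zero hw
        have hne : (WithLp.toLp 2 w : Cn (d+1)) ≠ 0 := by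
          intro h
          apply hw0
          have := congrArg (fun x : Cn (d+1) => WithLp.ofLp x) h
          simpa using this
        have hn0 : 0 < ‖(WithLp.toLp 2 w : Cn (d+1))‖ := norm_pos_iff.2 hne
        refine ⟨‖(WithLp.toLp 2 w : Cn (d+1))‖, ⟨hn0, hw.2.2.2.2⟩, (ζ : Cn (d+1)), ⟨ζ, hζ, rfl⟩, ?_⟩
        rw [← hwζ, nz]
        have h5 : (‖(WithLp.toLp 2 w : Cn (d+1))‖ : ℂ) ≠ 0 := by
          exact_mod_cast hn0.ne'
        have h6 : e w = WithLp.toLp 2 w := rfl
        rw [h6, ← Complex.coe_smul, smul_smul, mul_inv_cancel₀ h5, one_smul]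
      have h5 := measure_mono (μ := volume) h4
      rw [h2] at h3
      exact absurd (le_antisymm (h5.trans h3) zero_le) hpos.ne'
  unfold sigma
  rw [Measure.smul_apply, smul_eq_mul]
  apply ENNReal.mul_pos _ h1.ne'
  exact ENNReal.inv_ne_zero.2 (measure_ne_top _ _)

end Pool.Agent.MPdb50ff
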